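import Pool.Agent.Work.MP_8f87b2_h20.S5X3

/-!
# Section 5: the region, components
-/

set_option autoImplicit false

namespace Pool.OddHC

open Finset Equiv BinaryTree Multiset Ring1 Pool.Agent.Work.MP_8f87b2_co Pool.OddHop

variable {i j k : ℕ} {τ : Type} {P : τ → Set (Cyc k) → DG k → Prop}

/-- no link -/
theorem reg_none {K : Set (RD × Multiset ℕ)}
    (h : ∀ p0 : Cyc k, cl p0 ∈ K → ∃ Gp Gw, ClsOK (AEP P) (cl p0) ∅ Gp Gw P P) : ClsReg P K := by
  refine ⟨∅, fun F hF => absurd hF (Set.notMem_empty F), fun F hF => absurd hF (Set.notMem_empty F), ?_⟩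
  rw [inG_empty']
  exact h

/-- one link -/
theorem reg_one {K : Set (RD × Multiset ℕ)} {F : Set (Cyc k)} (hne : F.Nonempty) (hty : Typd P P F)
    (hcl : ∀ c ∈ F, cl c ∈ K)
    (h : ∀ p0 : Cyc k, cl p0 ∈ K → ∃ Gp Gw, ClsOK (AEP P) (cl p0) F Gp Gw P P) : ClsReg P K := by
  refine ⟨{F}, ?_, ?_, ?_⟩
  · rintro F' hF'
    rw [Set.mem_singleton_iff] at hF'
    rw [hF']
    exact ⟨hne, hty, hcl⟩
  · rintro F' hF' F'' hF'' c _ _
    rw [Set.mem_singleton_iff] at hF' hF''
    rw [hF', hF'']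
  · rw [inG_single]
    exact h

/-- two links -/
theorem reg_two {K : Set (RD × Multiset ℕ)} {F F' : Set (Cyc k)} (hne : F.Nonempty) (hty : Typd P P F)
    (hcl : ∀ c ∈ F, cl c ∈ K) (hne' : F'.Nonempty) (hty' : Typd P P F')
    (hcl' : ∀ c ∈ F', cl c ∈ K) (hd : ∀ c ∈ F, c ∉ F')
    (h : ∀ p0 : Cyc k, cl p0 ∈ K → ∃ Gp Gw, ClsOK (AEP P) (cl p0) (F ∪ F') Gp Gw P P) : ClsReg P K := by
  have e : inG ({F, F'} : Set (Set (Cyc k))) = F ∪ F' := by
    ext c
    constructor
    · rintro ⟨G, hG | hG, hc⟩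
      · exact Or.inl (hG ▸ hc)
      · exact Or.inr ((Set.mem_singleton_iff.1 hG) ▸ hc)
    · rintro (hc | hc)
      · exact ⟨F, Or.inl rfl, hc⟩
      · exact ⟨F', Or.inr rfl, hc⟩
  refine ⟨{F, F'}, ?_, ?_, ?_⟩
  · rintro G (rfl | hG)
    · exact ⟨hne, hty, hcl⟩
    · rw [Set.mem_singleton_iff.1 hG]
      exact ⟨hne', hty', hcl'⟩
  · rintro G hG G' hG' c hc hc'
    rcases hG with rfl | hG <;> rcases hG' with rfl | hG'
    · rfl
    · rw [Set.mem_singleton_iff.1 hG'] at hc'
      exact absurd hc' (hd c hc)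
    · rw [Set.mem_singleton_iff.1 hG] at hc
      exact absurd hc (hd c hc')
    · rw [Set.mem_singleton_iff.1 hG, Set.mem_singleton_iff.1 hG']
  · rw [e]
    exact h

/-- three links -/
theorem reg_three {K : Set (RD × Multiset ℕ)} {F F' F'' : Set (Cyc k)} (hne : F.Nonempty) (hty : Typd P P F)
    (hcl : ∀ c ∈ F, cl c ∈ K) (hne' : F'.Nonempty) (hty' : Typd P P F')
    (hcl' : ∀ c ∈ F', cl c ∈ K) (hne'' : F''.Nonempty) (hty'' : Typd P P F'')
    (hcl'' : ∀ c ∈ F'', cl c ∈ K) (hd : ∀ c ∈ F, c ∉ F') (hd' : ∀ c ∈ F, c ∉ F'') (hd'' : ∀ c ∈ F', c ∉ F'')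
    (h : ∀ p0 : Cyc k, cl p0 ∈ K → ∃ Gp Gw, ClsOK (AEP P) (cl p0) (F ∪ F' ∪ F'') Gp Gw P P) : ClsReg P K := by
  have e : inG ({F, F', F''} : Set (Set (Cyc k))) = F ∪ F' ∪ F'' := by
    ext c
    constructor
    · rintro ⟨G, hG | hG | hG, hc⟩
      · exact Or.inl (Or.inl (hG ▸ hc))
      · exact Or.inl (Or.inr (hG ▸ hc))
      · exact Or.inr ((Set.mem_singleton_iff.1 hG) ▸ hc)
    · rintro ((hc | hc) | hc)
      · exact ⟨F, Or.inl rfl, hc⟩
      · exact ⟨F', Or.inr (Or.inl rfl), hc⟩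
      · exact ⟨F'', Or.inr (Or.inr rfl), hc⟩
  refine ⟨{F, F', F''}, ?_, ?_, ?_⟩
  · rintro G (rfl | rfl | hG)
    · exact ⟨hne, hty, hcl⟩
    · exact ⟨hne', hty', hcl'⟩
    · rw [Set.mem_singleton_iff.1 hG]
      exact ⟨hne'', hty'', hcl''⟩
  · rintro G hG G' hG' c hc hc'
    have key : ∀ {A : Set (Cyc k)}, A ∈ ({F, F', F''} : Set (Set (Cyc k))) → A = F ∨ A = F' ∨ A = F'' := by
      rintro A (h | h | h)
      · exact Or.inl h
      · exact Or.inr (Or.inl h)
      · exact Or.inr (Or.inr (Set.mem_singleton_iff.1 h))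
    rcases key hG with rfl | rfl | rfl <;> rcases key hG' with rfl | rfl | rfl
    · rfl
    · exact absurd hc' (hd c hc)
    · exact absurd hc' (hd' c hc)
    · exact absurd hc (hd c hc')
    · rfl
    · exact absurd hc' (hd'' c hc)
    · exact absurd hc (hd' c hc')
    · exact absurd hc (hd'' c hc')
    · rfl
  · rw [e]
    exact h

namespace S5

/-- the content of `C_a` -/
def cC (n a m : ℕ) : Multiset ℕ := {n + 2} + replicate a 2 + replicate m 1

noncomputable def kC (n a m : ℕ) : RD × Multiset ℕ := (⟨n, cyc (pwX n)⟩, cC n a m)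

noncomputable def kX (n a m : ℕ) : RD × Multiset ℕ := (⟨n + 1, cyc (vX n)⟩, cX n a m)

variable {n a m : ℕ} {p : Cyc k}

theorem cl_kC (hn : 1 ≤ n) : cl p = kC n a m ↔ contc p = cC n a m := by
  constructor
  · intro h
    exact congrArg Prod.snd h
  · intro h
    unfold cl kC
    rw [(Rd_Ca hn h).2.2.2.1, h]

theorem cl_kX (hn : 1 ≤ n) : cl p = kX n a m ↔ contc p = cX n a m := by
  constructor
  · intro h
    exact congrArg Prod.snd h
  · intro h
    obtain ⟨U, g1, g2, -⟩ := Rd_X hn h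
    unfold cl kX
    rw [g1, h]
    change (Rd U, _) = _
    rw [g2]

theorem n3_cC (n a m : ℕ) : (cC n a m).count 3 = if 3 = n + 2 then 1 else 0 := by
  unfold cC
  rw [Multiset.count_add, Multiset.count_add, Multiset.count_singleton, Multiset.count_replicate, Multiset.count_replicate]
  simp

theorem n3_cX (n a m : ℕ) : (cX n a m).count 3 = (if 3 = n + 2 then 1 else 0) + 1 := by
  unfold cX
  rw [Multiset.count_add, Multiset.count_add, Multiset.count_add, Multiset.count_singleton, Multiset.count_singleton,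
    Multiset.count_replicate, Multiset.count_replicate]
  simp

theorem n2_cC (hn : 1 ≤ n) : (cC n a m).count 2 = a := by
  unfold cC
  rw [Multiset.count_add, Multiset.count_add, Multiset.count_singleton, Multiset.count_replicate_self,
    Multiset.count_replicate, if_neg (by omega)]
  simp

theorem n2_cX (hn : 1 ≤ n) : (cX n a m).count 2 = a := by
  unfold cX
  rw [Multiset.count_add, Multiset.count_add, Multiset.count_add, Multiset.count_singleton, Multiset.count_singleton,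
    Multiset.count_replicate_self, Multiset.count_replicate, if_neg (by omega)]
  simp

theorem cC_ne_cX (n a m a' m' : ℕ) : cC n a m ≠ cX n a' m' := by
  intro h
  have := congrArg (Multiset.count 3) h
  rw [n3_cC, n3_cX] at this
  omega

theorem cC_ne {a' m' : ℕ} (hn : 1 ≤ n) (h : a ≠ a') : cC n a m ≠ cC n a' m' := by
  intro e
  have := congrArg (Multiset.count 2) e
  rw [n2_cC hn, n2_cC hn] at this
  exact h this

theorem cX_ne {a' m' : ℕ} (hn : 1 ≤ n) (h : a ≠ a') : cX n a m ≠ cX n a' m' := by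
  intro e
  have := congrArg (Multiset.count 2) e
  rw [n2_cX hn, n2_cX hn] at this
  exact h this

/-- the content link with `[3]`, left, as a plain triple -/
theorem mk_c3 (S : BinaryTree Unit) (hS : 3 ≤ ht S) (hk : S.numNodes + 3 = k) :
    ∃ (b c : OddHC.X k) (g : DG k), b.1 = app S (.nil △ H1.ch 2) ∧ c.1 = H1.ch 2 △ S ∧
      IsTri (H1.ch 2) S .nil {cyc b, cyc c} g ∧ contc (cyc b) = cont S + ({1} + {2}) ∧
      contc (cyc c) = {3} + cont S := by
  have e1 : cont (w1 S .nil (H1.ch 2)) = cont S + ({1} + {2}) := by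
    rw [cont_w1, cont_nil, raise_zero, c_ch (by norm_num)]
  have e2 : cont (w1 .nil (H1.ch 2) S) = {3} + cont S := by
    rw [cont_w1, cont_nil, zero_add, c_ch (by norm_num)]
    congr 1
  obtain ⟨b, c, g, hb, hc, ht'⟩ := mk_tri (k := k) (H1.ch 2) S .nil (by
      rw [show (H1.ch 2).numNodes = 2 from rfl, show (BinaryTree.nil : BinaryTree Unit).numNodes = 0 from rfl]
      omega) (by
      rw [e1, e2]
      intro e
      have := congrArg (Multiset.count 1) e
      rw [Multiset.count_add, Multiset.count_add, Multiset.count_add] at this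
      simp at this) (by
      rw [ht_w1, ht_w1, ht_ch]
      change max (OddHC.ht S) (max 1 2) = max 0 (max (2 + 1) (OddHC.ht S))
      omega) (by
      rw [ht_w1, ht_w1, ht_ch]
      change max (OddHC.ht S) (max 1 2) < max 2 (max (OddHC.ht S + 1) 0)
      omega)
  refine ⟨b, c, g, hb, ?_, ht', ?_, ?_⟩
  · rw [hc]; rfl
  · rw [contc_cyc, hb, e1]
  · rw [contc_cyc, hc, e2]

/-- the words over `S` of content `(s, 2^a, 1^m)` -/
theorem c3_cont {S : BinaryTree Unit} (h : cont S = {n + 2} + replicate a 2 + replicate m 1) :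
    cont S + ({1} + {2}) = cC n (a + 1) (m + 1) ∧ {3} + cont S = cX n a m := by
  rw [h]
  unfold cC cX
  rw [Multiset.replicate_succ, Multiset.replicate_succ, ← Multiset.singleton_add, ← Multiset.singleton_add]
  constructor
  · abel
  · abel

theorem num_of_cont {S : BinaryTree Unit} (h : cont S = {n + 2} + replicate a 2 + replicate m 1) :
    S.numNodes = n + 2 + 2 * a + m := by
  rw [← cont_sum S, h, Multiset.sum_add, Multiset.sum_add, Multiset.sum_singleton, Multiset.sum_replicate,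
    Multiset.sum_replicate]
  simp only [smul_eq_mul]
  omega

theorem ht_S {S : BinaryTree Unit} (hn : 1 ≤ n) (h : cont S = {n + 2} + replicate a 2 + replicate m 1) :
    3 ≤ OddHC.ht S := by
  rw [add_assoc] at h
  have := ht_of_cont h
  omega

/-- **COMPONENT** `{C_(a+1), X_a}`, `m(X_a) = m ≥ 1`, `a ≥ 1`: the link exists iff `C_(a+1)` is odd -/
theorem pair_reg (hn : 1 ≤ n) (ha : 1 ≤ a) (hm : 1 ≤ m) (ham : 2 ≤ m ∨ 2 ≤ a) (hk : n + 5 + 2 * a + m = k)
    (hWin : ∃ z, Win P P n a m z)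
    (hEnv : ∀ p0 : Cyc k, contc p0 = cX n a m → ClsEnv (AEP P) P P (cl p0))
    (hCl : ∀ S F g, ShX n a m S → IsTri (H1.ch 2) S .nil F g → ∃ t, P t F g)
    (hC0 : ¬ (oddF n (a + 1) ∧ oddF (n + 2 + a) (m + 1)) → ∀ p0 : Cyc k, contc p0 = cC n (a + 1) (m + 1) →
      ∃ Gp Gw, ClsOK (AEP P) (cl p0) ∅ Gp Gw P P)
    (hC1 : oddF n (a + 1) ∧ oddF (n + 2 + a) (m + 1) → ∀ S, ShX n a m S → ∀ b : OddHC.X k,
      b.1 = app S (.nil △ H1.ch 2) → ∀ (p0 : Cyc k) (X : Set (Cyc k)), contc p0 = cC n (a + 1) (m + 1) →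
        (∀ c, contc c = cC n (a + 1) (m + 1) → (c ∈ X ↔ c = cyc b)) → ∃ Gp Gw, ClsOK (AEP P) (cl p0) X Gp Gw P P) :
    ClsReg P {kC n (a + 1) (m + 1), kX n a m} := by
  obtain ⟨z, hz⟩ := hWin
  by_cases hod : oddF n (a + 1) ∧ oddF (n + 2 + a) (m + 1)
  · obtain ⟨S, hS, hG⟩ := X_guest hn ha hm ham hk hz
    have hcS := hS.cont hn ha
    obtain ⟨e1, e2⟩ := c3_cont hcS
    obtain ⟨b, c, g, hb, hc, hT, f1, f2⟩ := mk_c3 S (ht_S hn hcS) (by rw [num_of_cont hcS]; omega) (k := k)
    rw [e1] at f1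
    rw [e2] at f2
    refine reg_one (F := {cyc b, cyc c}) ⟨_, Or.inl rfl⟩ ?_ ?_ ?_
    · obtain ⟨t, ht⟩ := hCl S _ g hS hT
      exact Or.inl ⟨t, g, ht⟩
    · rintro c' (rfl | rfl)
      · exact Or.inl ((cl_kC hn).2 f1)
      · exact Or.inr ((cl_kX hn).2 f2)
    · rintro p0 (h0 | h0)
      · rw [cl_kC hn] at h0
        refine hC1 hod S hS b hb p0 _ h0 fun c' hc' => ?_
        constructor
        · rintro (h | h)
          · exact h
          · rw [Set.mem_singleton_iff.1 h, f2] at hc'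
            exact absurd hc'.symm (cC_ne_cX _ _ _ _ _)
        · rintro rfl
          exact Or.inl rfl
      · rw [Set.mem_singleton_iff, cl_kX hn] at h0
        refine hG c hc p0 _ h0 (hEnv p0 h0) fun c' hc' => ?_
        constructor
        · rintro (h | h)
          · rw [h, f1] at hc'
            exact absurd hc' (cC_ne_cX _ _ _ _ _)
          · exact h
        · rintro rfl
          exact Or.inr rfl
  · refine reg_none ?_
    rintro p0 (h0 | h0)
    · exact hC0 hod p0 ((cl_kC hn).1 h0)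
    · rw [Set.mem_singleton_iff, cl_kX hn] at h0
      exact X_win hn hm h0 (hEnv p0 h0) (fun c hc => absurd hc (Set.notMem_empty c)) hz

end S5

end Pool.OddHC
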