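import Pool.Agent.Work.MP_8f87b2_mid.DisC
import Pool.Agent.Work.MP_8f87b2_h27.DisKm

/-!
# Section 5: plain links with one big soliton

`mk_tri`: existence of a plain triple. `TyS5`: the two forms which are not of type `TyCr`, `TyCl`, `TyKm`:
LONG `()^(t-1) ([s])` (or mirrored) and `() ([s] ()^n) (())`.
-/

set_option autoImplicit false

namespace Pool.OddHC

open Finset BinaryTree Pool.Agent.Work.MP_8f87b2_co

variable {k : ℕ}

/-- existence of a plain triple -/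
theorem mk_tri (P Q R : BinaryTree Unit) (hk : P.numNodes + Q.numNodes + R.numNodes + 1 = k)
    (hne : cont (w1 Q R P) ≠ cont (w1 R P Q)) (h1 : ht (w1 Q R P) = ht (w1 R P Q))
    (h2 : ht (w1 Q R P) < ht (w1 P Q R)) : ∃ (b c : X k) (g : DG k), b.1 = w1 Q R P ∧
      c.1 = w1 R P Q ∧ IsTri P Q R {cyc b, cyc c} g := by
  refine ⟨x1 Q R P (by omega), x1 R P Q (by omega), _, rfl, rfl,
    x1 P Q R hk, _, _, rfl, rfl, rfl, ?_, ?_, ?_, rfl, rfl⟩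
  · intro e
    apply hne
    have := congrArg contc e
    exact this
  · rw [htc_cyc, htc_cyc]
    exact h1
  · rw [htc_cyc, htc_cyc]
    exact h2

/-- TYPE S5: LONG (both sides), and the link between the classes `(s, 2, 2, ..)` and `(s, 3, ..)` -/
def TyS5 (F : Set (Cyc k)) (g : DG k) : Prop :=
  ∃ s n : ℕ, 3 ≤ s ∧ 2 ≤ n ∧ (IsTri (lp (n + 2)) (H1.ch s) .nil F g ∨
    IsTri .nil (H1.ch s) (lp (n + 2)) F g ∨ IsTri (lp 1) (app (H1.ch s) (lp n)) (H1.ch 2) F g)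

variable {F : Set (Cyc k)} {g : DG k}

theorem TyS5.tri (h : TyS5 F g) : ∃ P Q R, IsTri P Q R F g := by
  obtain ⟨s, n, -, -, h | h | h⟩ := h
  · exact ⟨_, _, _, h⟩
  · exact ⟨_, _, _, h⟩
  · exact ⟨_, _, _, h⟩

theorem TyS5.hF (h : TyS5 F g) : ∀ w, w ∈ g.F ↔ cyc w ∈ F := by
  obtain ⟨P, Q, R, h⟩ := h.tri
  exact h.hF

theorem TyS5.new (h : TyS5 F g) : ∀ c ∈ F, ∃ u ∈ g.B, cyc u = c := by
  obtain ⟨P, Q, R, h⟩ := h.tri
  exact h.new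

theorem TyS5.old (h : TyS5 F g) : ∃ u ∈ g.B, cyc u ∉ F := by
  obtain ⟨P, Q, R, h⟩ := h.tri
  exact h.old

theorem TyS5.arcs (h : TyS5 F g) : g.arcs = ∅ := by
  obtain ⟨P, Q, R, h⟩ := h.tri
  exact h.arcs

theorem TyS5.abs (h : TyS5 F g) : g.Abs := by
  obtain ⟨P, Q, R, h⟩ := h.tri
  exact h.abs

theorem TyS5.htp (h : TyS5 F g) : ∀ c ∈ F, ∀ d ∈ F, htc c = htc d := by
  obtain ⟨P, Q, R, h⟩ := h.tri
  exact h.htp

theorem TyS5.rank (h : TyS5 F g) : ∀ w ∈ g.B, cyc w ∈ F ∨ ∀ c ∈ F, htc c < htc (cyc w) := by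
  obtain ⟨P, Q, R, h⟩ := h.tri
  exact h.rank

theorem TyS5.path (h : TyS5 F g) : ∀ a ∈ g.arcs, ∃ n : ℕ, (TT ^ (n + 1)) a.1 = a.2 ∧ a.1 ∈ g.B ∧
    ∀ i < n, (TT ^ (i + 1)) a.1 ∈ innA a := by
  intro a ha
  rw [h.arcs] at ha
  exact absurd ha (by simp)

end Pool.OddHC
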