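import Pool.Agent.Work.MP_8f87b2_h20.S5Ty

/-!
# Section 5: contents of the words of the links
-/

set_option autoImplicit false

namespace Pool.OddHC

open Finset BinaryTree Multiset Pool.Agent.Work.MP_8f87b2_co

namespace S5

theorem c_ch {n : ℕ} (h : 1 ≤ n) : cont (H1.ch n) = {n} := by
  obtain ⟨n, rfl⟩ : ∃ n', n = n' + 1 := ⟨n - 1, by omega⟩
  clear h
  induction n with
  | zero => rfl
  | succ n ih =>
    change cont (H1.ch (n + 1) △ .nil) = _
    rw [cont_node, ih, cont_nil, add_zero]
    unfold raise
    simp

theorem c_lp (n : ℕ) : cont (lp n) = replicate n 1 := by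
  unfold lp
  rw [cont_lv, cont_nil, add_zero]

/-- squares -/
def sq (n : ℕ) : BinaryTree Unit := lv2 n .nil

theorem c_sq (n : ℕ) : cont (sq n) = replicate n 2 := by
  unfold sq
  rw [cont_lv2, cont_nil, add_zero]

theorem raise_top {s : ℕ} {M : Multiset ℕ} (h : ∀ x ∈ M, x ≤ s) : raise ({s} + M) = {s + 1} + M := by
  have h1 : ({s} + M).sup = s := by
    apply le_antisymm
    · rw [Multiset.sup_le]
      intro x hx
      rcases Multiset.mem_add.1 hx with h2 | h2
      · exact (Multiset.mem_singleton.1 h2).le
      · exact h x h2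
    · exact Multiset.le_sup (Multiset.mem_add.2 (Or.inl (Multiset.mem_singleton_self s)))
  unfold raise
  rw [h1, Multiset.singleton_add, Multiset.erase_cons_head, Multiset.singleton_add]

theorem raise_lp (n : ℕ) : raise (replicate (n + 1) 1) = {2} + replicate n 1 := by
  rw [Multiset.replicate_succ, ← Multiset.singleton_add]
  exact raise_top (M := replicate n 1) fun x hx => (Multiset.eq_of_mem_replicate hx).le

theorem raise_nil : raise 0 = {1} := raise_zero

theorem sq_num (n : ℕ) : (sq n).numNodes = 2 * n := by
  rw [← cont_sum, c_sq, Multiset.sum_replicate]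
  simp [mul_comm]

end S5

end Pool.OddHC
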