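import Pool.Agent.Work.MP_8f87b2_h20.S5Near
import Pool.Agent.Work.MP_8f87b2_h62.VOne

/-!
# Section 5: rotations over the reduced T-cycles `(s - 1, 1^a)` and `(s - 1, 2)`
-/

set_option autoImplicit false

namespace Pool.OddHC

open Finset Equiv BinaryTree Multiset Ring1 Pool.Agent.Work.MP_8f87b2_co

namespace S5

variable {k j : ℕ}

theorem RotU.conj {u u' : X j} (hU : RotU u) (hu : cyc u' = cyc u) : RotU u' := by
  intro k b h c
  obtain ⟨w1, h1, h2⟩ := align (k := k) (w := phi u' b h) hU hu rfl 0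
  obtain ⟨w2, h3, h4⟩ := align (k := k) (w := phi u' (fun x => b (x + c)) (by rw [sum_shift]; exact h)) hU hu rfl (-c)
  rw [← h2, ← h4]
  congr 1
  apply Subtype.ext
  rw [h1, h3]
  congr 2
  funext x
  congr 1
  ring

theorem rotU_phi {q : ℕ} (hq : 1 ≤ q) (F : ZMod (2 * q + 1) → ℕ) (hj : q + pkn (pwX q).1 + ∑ x, F x = j) :
    RotU (phi (pwX q) F hj) := fun _ b h c => cyc_eq.2 (same_rot hq F hj b h c)

/-- over one soliton -/
theorem rotU_one {q : ℕ} (hq : 1 ≤ q) {u : X j} (h : Rd (cyc u) = ⟨q, cyc (pwX q)⟩) : RotU u := by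
  obtain ⟨a, hk, ha, -⟩ := over_u hq (pwX q) (cyc u) h
  exact (rotU_phi hq a hk).conj ha

theorem rotU_turn {u : X j} {n : ℕ} (h1 : (TT ^ n) u = u) (h2 : sp u n = 2) : RotU u := by
  intro k b h c
  have step : ∀ i : ℕ, cyc (phi u b h) = cyc (phi u (fun x => b (x + 2 * (i : ZMod (2 * j + 1))))
      (by rw [sum_shift]; exact h)) := by
    intro i
    induction i with
    | zero =>
      congr 1
      apply phi_congr rfl
      funext x
      rw [Nat.cast_zero, mul_zero, add_zero]
    | succ i ih =>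
      rw [ih, cyc_eq]
      refine ⟨(n : ℤ), ?_⟩
      rw [zpow_natCast, pow_phi]
      apply phi_congr h1
      funext x
      rw [h2]
      congr 1
      push_cast
      ring
  have h5 : (2 * (j : ZMod (2 * j + 1)) + 1) = 0 := by
    have := ZMod.natCast_self (2 * j + 1)
    push_cast at this
    exact this
  have := step ((-(c * j) : ZMod (2 * j + 1)).val)
  rw [this]
  congr 1
  apply phi_congr rfl
  funext x
  rw [ZMod.natCast_zmod_val]
  congr 1
  linear_combination (-c) * h5

theorem lp_of_ht : ∀ t : BinaryTree Unit, ht t ≤ 1 → t = lv t.numNodes .nil := by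
  intro t
  induction t with
  | nil => intro _; rfl
  | node _ A B _ ih =>
    intro h
    change max (ht A + 1) (ht B) ≤ 1 at h
    have hA : A = .nil := by
      by_contra hn
      have := ht_pos hn
      omega
    subst hA
    have e : (BinaryTree.node () .nil B).numNodes = B.numNodes + 1 := by
      change 0 + B.numNodes + 1 = _
      omega
    rw [e, lv]
    have := ih (by omega)
    rw [← this]

/-- content `(s - 1, 2)`, `s ≥ 3` -/
theorem rotU_two {n : ℕ} (u : X (n + 4)) (h : cont u.1 = {n + 2} + {2}) : RotU u := by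
  rcases Nat.eq_zero_or_pos n with rfl | hn
  · -- content (2, 2)
    have e : contc (cyc u) = ({1} + {1} : Multiset ℕ).map (· + 1) + replicate 0 1 := by
      rw [contc_cyc, h]
      simp
    obtain ⟨g1, g2, g3⟩ := Rd_cont (by simp) e
    obtain ⟨⟨i, V⟩, eV⟩ : ∃ d, d = Rd (cyc u) := ⟨_, rfl⟩
    obtain ⟨v, rfl⟩ := Quotient.exists_rep V
    rw [← eV] at g1 g2
    change i = _ at g2
    have hi : i = 2 := by rw [g2]; rfl
    subst hi
    change cont v.1 = _ at g1
    have hv : v = HT.hhX 2 := by
      apply Subtype.ext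
      change v.1 = lv 2 .nil
      have h1 : ht v.1 ≤ 1 := by
        rw [ht_eq, g1]
        decide
      rw [lp_of_ht v.1 h1, X_num]
    subst hv
    obtain ⟨a, hk, ha, -⟩ := over_u (by norm_num) (HT.hhX 2) (cyc u) eV.symm
    have : RotU (phi (HT.hhX 2) a hk) := fun _ b h c => cyc_eq.2 (HT.same_rot (by norm_num) a hk b h c)
    exact this.conj ha
  · obtain ⟨h1, h2⟩ := J1.turn_two hn u h
    exact rotU_turn h1 h2

end S5

end Pool.OddHC
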