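import Pool.Agent.Work.MP_8f87b2_h20.S5X2

/-!
# Section 5: the classes `X_a`, `m ≥ 1`: no guest, one guest
-/

set_option autoImplicit false

namespace Pool.OddHC

open Finset Equiv BinaryTree Multiset Ring1 Pool.Agent.Work.MP_8f87b2_co Pool.OddHop

variable {i j k : ℕ}

variable {τp τw : Type} {Pp : τp → Set (Cyc k) → DG k → Prop} {Pw : τw → Set (Cyc k) → DG k → Prop}
  {AE : Cyc k → Cyc k → Prop}

namespace S5

/-! ### contents -/

theorem c_gE (n a m : ℕ) : cont (gE n a m) = {n + 2} + replicate a 2 + replicate m 1 := by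
  unfold gE
  rw [cont_app, cont_app, c_lp, c_sq, c_ch (by omega)]

theorem c_gE1 {n a : ℕ} (ha : 2 ≤ a) : cont (gE1 n a) = {n + 2} + replicate a 2 + replicate 1 1 := by
  unfold gE1
  obtain ⟨a, rfl⟩ : ∃ a', a = a' + 2 := ⟨a - 2, by omega⟩
  rw [cont_app, cont_app, cont_app, c_lp, c_sq, c_sq, c_ch (by omega), Nat.add_sub_cancel, Multiset.replicate_add]
  abel

theorem c_pk {n b : ℕ} (hn : 1 ≤ n) : cont (app (H1.ch (n + 1)) (H1.ch 2) △ sq b) = {n + 2} + replicate (b + 1) 2 := by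
  rw [cont_node, cont_app, c_ch (by omega), c_ch (by omega), c_sq, raise_top (s := n + 1) (M := {2}) fun x hx => by
    rw [Multiset.mem_singleton.1 hx]
    omega]
  rw [Multiset.replicate_succ, ← Multiset.singleton_add, add_assoc]

theorem c_gO {n a m : ℕ} (hn : 1 ≤ n) (ha : 1 ≤ a) : cont (gO n a m) = {n + 2} + replicate a 2 + replicate m 1 := by
  unfold gO
  obtain ⟨a, rfl⟩ : ∃ a', a = a' + 1 := ⟨a - 1, by omega⟩
  rw [cont_app, Nat.add_sub_cancel, c_pk hn, c_lp]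

theorem c_gO1 {n a : ℕ} (hn : 1 ≤ n) (ha : 3 ≤ a) : cont (gO1 n a) = {n + 2} + replicate a 2 + replicate 1 1 := by
  unfold gO1
  obtain ⟨a, rfl⟩ : ∃ a', a = a' + 3 := ⟨a - 3, by omega⟩
  rw [cont_app, cont_app, Nat.add_sub_cancel, c_pk hn, c_lp, c_sq, show a + 3 = (a + 1) + 2 by ring,
    Multiset.replicate_add (a + 1) 2]
  abel

theorem c_gO2 {n : ℕ} (hn : 1 ≤ n) : cont (gO2 n) = {n + 2} + replicate 2 2 + replicate 1 1 := by
  unfold gO2
  rw [cont_node, cont_app, cont_node, c_lp, raise_lp 1, cont_nil, c_sq, c_ch (by omega), add_zero,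
    raise_top (s := n + 1) (M := {2} + replicate 1 1) fun x hx => by
      rcases Multiset.mem_add.1 hx with h | h
      · rw [Multiset.mem_singleton.1 h]
        omega
      · rw [Multiset.eq_of_mem_replicate h]
        omega]
  rw [show (replicate 2 2 : Multiset ℕ) = {2} + {2} from rfl]
  simp only [Multiset.replicate_one]
  abel

/-- shapes of the guests: `F = {[3] S, S () [2]}` -/
def ShX (n a m : ℕ) (S : BinaryTree Unit) : Prop :=
  (2 ≤ m ∧ (S = gE n a m ∨ S = gO n a m ∨ Gd n a m S)) ∨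
    (m = 1 ∧ 2 ≤ a ∧ (S = gE1 n a ∨ (3 ≤ a ∧ S = gO1 n a) ∨ (a = 2 ∧ S = gO2 n)))

theorem ShX.cont {n a m : ℕ} (hn : 1 ≤ n) (ha : 1 ≤ a) {S : BinaryTree Unit} (h : ShX n a m S) :
    OddHC.cont S = {n + 2} + replicate a 2 + replicate m 1 := by
  rcases h with ⟨hm, rfl | rfl | h⟩ | ⟨rfl, h2, rfl | ⟨h3, rfl⟩ | ⟨rfl, rfl⟩⟩
  · exact c_gE n a m
  · exact c_gO hn ha
  · exact h.cont ha (by omega)
  · exact c_gE1 h2
  · exact c_gO1 hn h3
  · exact c_gO2 hn

/-! ### the class -/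

/-- the content of `X_a` -/
def cX (n a m : ℕ) : Multiset ℕ := {n + 2} + {3} + replicate a 2 + replicate m 1

theorem Rd_X {n a m : ℕ} (hn : 1 ≤ n) {p : Cyc k} (h : contc p = cX n a m) :
    ∃ U : Cyc (n + 3 + a), Rd p = ⟨n + 3 + a, U⟩ ∧ Rd U = ⟨n + 1, cyc (vX n)⟩ ∧ (contc U).count 1 = a ∧
      (contc p).count 1 = m ∧ contc U = {n + 1} + {2} + replicate a 1 := by
  have e : contc p = ({n + 1} + {2} + replicate a 1 : Multiset ℕ).map (· + 1) + replicate m 1 := by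
    rw [h, Multiset.map_add, Multiset.map_add, Multiset.map_singleton, Multiset.map_singleton, Multiset.map_replicate]
    rfl
  obtain ⟨g1, g2, g3⟩ := Rd_cont (by
    intro h0
    rcases Multiset.mem_add.1 h0 with h0 | h0
    · rcases Multiset.mem_add.1 h0 with h0 | h0
      · exact absurd (Multiset.mem_singleton.1 h0) (by omega)
      · exact absurd (Multiset.mem_singleton.1 h0) (by omega)
    · exact absurd (Multiset.eq_of_mem_replicate h0) (by omega)) e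
  obtain ⟨⟨i, U⟩, eU⟩ : ∃ d, d = Rd p := ⟨_, rfl⟩
  rw [← eU] at g1 g2 ⊢
  change contc U = _ at g1
  change i = _ at g2
  have g2' : i = n + 3 + a := by
    rw [g2, Multiset.sum_add, Multiset.sum_add, Multiset.sum_singleton, Multiset.sum_singleton, Multiset.sum_replicate]
    simp
  subst g2'
  have e1 : contc U = ({n} + {1} : Multiset ℕ).map (· + 1) + replicate a 1 := by
    rw [g1, Multiset.map_add, Multiset.map_singleton, Multiset.map_singleton]
  obtain ⟨f1, f2, f3⟩ := Rd_cont (by simp; omega) e1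
  refine ⟨U, rfl, ?_, f3, g3, g1⟩
  obtain ⟨⟨i', V⟩, eV⟩ : ∃ d, d = Rd U := ⟨_, rfl⟩
  rw [← eV] at f1 f2 ⊢
  change contc V = _ at f1
  change i' = _ at f2
  have f2' : i' = n + 1 := by rw [f2, Multiset.sum_add, Multiset.sum_singleton, Multiset.sum_singleton]
  subst f2'
  rw [Uq_n1 _ n hn V (cyc (vX n)) f1 (by rw [contc_cyc, c_vX hn])]

theorem Rd_uX {n a : ℕ} (hn : 1 ≤ n) : Rd (cyc (uX n a)) = ⟨n + 1, cyc (vX n)⟩ := Rd_pile (uX_pile hn)

theorem Rd_yX {n a : ℕ} (hn : 1 ≤ n) (ha : 1 ≤ a) : Rd (cyc (yX n a ha)) = ⟨n + 1, cyc (vX n)⟩ :=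
  Rd_near (yX_near hn ha)

theorem pkc_u {n a : ℕ} {U : Cyc (n + 3 + a)} (hU : contc U = {n + 1} + {2} + replicate a 1) : pkc U = a + 2 := by
  unfold pkc
  rw [hU, Multiset.card_add, Multiset.card_add, Multiset.card_singleton, Multiset.card_singleton,
    Multiset.card_replicate]
  omega

/-- a window at the pile over the pile -/
def Win (Pp : τp → Set (Cyc k) → DG k → Prop) (Pw : τw → Set (Cyc k) → DG k → Prop) (n a m : ℕ) (z : Cyc k) : Prop :=
  (∃ (v : OddHC.X (n + 1)) (u : OddHC.X (n + 3 + a)) (w : OddHC.X k), cyc v = cyc (vX n) ∧ Pile u v a ∧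
    Pile w u m ∧ cyc w = z) ∧ Typd Pp Pw {z}

theorem Win.rd {n a m : ℕ} (hn : 1 ≤ n) {z : Cyc k} (h : Win Pp Pw n a m z) :
    Rd z = ⟨n + 3 + a, cyc (uX n a)⟩ := by
  obtain ⟨⟨v, u, w, h1, h2, h3, rfl⟩, -⟩ := h
  rw [Rd_pile h3, pile_same (rotU_v hn (c_vX hn)) h1 (uX_pile hn) h2]

theorem oddF_one' (j : ℕ) : oddF j 1 := by
  have h1 : Nat.card (Ms (2 * j + 1) 1) = 2 * j + 1 := by
    have e1 : Nat.card (Ms (2 * j + 1) 1) = Nat.card (Sym (ZMod (2 * j + 1)) 1) :=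
      (Nat.card_congr (Sym.equivNatSumOfFintype (ZMod (2 * j + 1)) 1)).symm
    rw [e1, Nat.card_eq_fintype_card, Sym.card_sym_eq_choose, ZMod.card]
    simp
  unfold oddF
  rw [h1]
  exact ⟨j, rfl⟩

variable {p0 : Cyc k} {n a m : ℕ}

theorem num_ch2 (S : BinaryTree Unit) : (H1.ch 2 △ S).numNodes = S.numNodes + 3 := by
  change (H1.ch 2).numNodes + S.numNodes + 1 = _
  rw [show (H1.ch 2).numNodes = 2 from rfl]
  omega

theorem X_size (hn : 1 ≤ n) (h0 : contc p0 = cX n a m) : n + 5 + 2 * a + m = k := by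
  rw [← contc_sum p0, h0]
  unfold cX
  rw [Multiset.sum_add, Multiset.sum_add, Multiset.sum_add, Multiset.sum_singleton, Multiset.sum_singleton,
    Multiset.sum_replicate, Multiset.sum_replicate]
  simp only [smul_eq_mul]
  omega

theorem cl_X (hn : 1 ≤ n) (h0 : contc p0 = cX n a m) {p : Cyc k} :
    cl p = cl p0 ↔ contc p = cX n a m := by
  constructor
  · intro h
    rw [← h0]
    exact congrArg Prod.snd h
  · intro h
    obtain ⟨U, g1, g2, -⟩ := Rd_X hn h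
    obtain ⟨U1, f1, f2, -⟩ := Rd_X hn h0
    exact cl_same f1 g1 (g2.trans f2.symm)

/-- **no guest**, `m ≥ 1` -/
theorem X_win (hn : 1 ≤ n) (hm : 1 ≤ m) (h0 : contc p0 = cX n a m) (hEnv : ClsEnv AE Pp Pw (cl p0))
    {X : Set (Cyc k)} (hX : ∀ c ∈ X, contc c ≠ cX n a m) {z : Cyc k} (hz : Win Pp Pw n a m z) :
    ∃ Gp Gw, ClsOK AE (cl p0) X Gp Gw Pp Pw := by
  obtain ⟨U1, g1, g2, g3, g4, g5⟩ := Rd_X hn h0
  have hs := X_size hn h0
  refine r1_win hEnv g1 hm (by rw [pkc_u g5]; omega) ?_ z (cyc (uX n a)) ?_ (hz.rd hn) ?_ ?_ hz.2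
  · intro c hc he
    apply hX c hc
    rw [← h0]
    exact congrArg Prod.snd he
  · rw [Rd_uX hn, g2]
  · exact (uX_pile hn).two
  · intro hm2
    obtain ⟨⟨v, u, w, h1, h2, h3, rfl⟩, -⟩ := hz
    apply h3.two
    have h4 := count_class (k := k) (m := m) g1 (by rw [pkc_u g5]; omega) (p := cyc w) (U := cyc (uX n a))
      (by
        rw [Rd_pile h3, pile_same (rotU_v hn (c_vX hn)) h1 (uX_pile hn) h2]) (by rw [Rd_uX hn, g2])
    rw [h4, hm2]

theorem Win.two (hn : 1 ≤ n) (h0 : contc p0 = cX n a m) {z : Cyc k} (hz : Win Pp Pw n a m z) (hm2 : m = 2) :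
    IsTwo z := by
  obtain ⟨U1, g1, g2, g3, g4, g5⟩ := Rd_X hn h0
  have hs := X_size hn h0
  have hR := hz.rd hn
  obtain ⟨⟨v, u, w, h1, h2, h3, rfl⟩, -⟩ := hz
  apply h3.two
  have h4 := count_class (k := k) (m := m) g1 (by rw [pkc_u g5]; omega) (p := cyc w) (U := cyc (uX n a))
    hR (by rw [Rd_uX hn, g2])
  rw [h4, hm2]

/-- **ONE GUEST**, `m ≥ 1`, `a ≥ 1`: the link is `F = {[3] S, S () [2]}` -/
theorem X_guest (hn : 1 ≤ n) (ha : 1 ≤ a) (hm : 1 ≤ m) (ham : 2 ≤ m ∨ 2 ≤ a) (hk : n + 5 + 2 * a + m = k)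
    {z : Cyc k} (hz : Win Pp Pw n a m z) : ∃ S, ShX n a m S ∧ ∀ c : OddHC.X k, c.1 = H1.ch 2 △ S →
      ∀ (p0 : Cyc k) (X : Set (Cyc k)), contc p0 = cX n a m → ClsEnv AE Pp Pw (cl p0) →
        (∀ c', contc c' = cX n a m → (c' ∈ X ↔ c' = cyc c)) → ∃ Gp Gw, ClsOK AE (cl p0) X Gp Gw Pp Pw := by
  have hzR := hz.rd hn
  by_cases ho : oddF (n + 3 + a) m
  · by_cases ho2 : oddF (n + 1) a
    · -- both odd
      have key : ∀ S, (∀ c : OddHC.X k, c.1 = H1.ch 2 △ S → Rd (cyc c) = ⟨n + 3 + a, cyc (uX n a)⟩ ∧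
          (m = 2 → IsTwo (cyc c))) → ∀ c : OddHC.X k, c.1 = H1.ch 2 △ S →
          ∀ (p0 : Cyc k) (X : Set (Cyc k)), contc p0 = cX n a m → ClsEnv AE Pp Pw (cl p0) →
            (∀ c', contc c' = cX n a m → (c' ∈ X ↔ c' = cyc c)) →
            ∃ Gp Gw, ClsOK AE (cl p0) X Gp Gw Pp Pw := by
        intro S hS c hc p0 X h0 hEnv hX
        obtain ⟨U1, g1, g2, g3, g4, g5⟩ := Rd_X hn h0
        have hs := X_size hn h0
        obtain ⟨e1, e2⟩ := hS c hc
        refine r1_guest hEnv g1 hm (by rw [pkc_u g5]; omega) ho (cyc c) (cyc (uX n a)) (by rw [Rd_uX hn, g2]) e1 ?_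
          (fun c' hc' => hX c' ((cl_X hn h0).1 hc')) (uX_pile hn).two e2
        rw [Rd_uX hn]
        have e3 : (contc (cyc (uX n a))).count 1 = a := by
          rw [Rd_contc (show Rd (cyc (uX n a)) = Rd U1 by rw [Rd_uX hn, g2]), g3]
        rw [e3]
        exact ho2
      have htwo : ∀ {w : OddHC.X k} {u : OddHC.X (n + 3 + a)}, Pile w u m → m = 2 → IsTwo (cyc w) := by
        rintro w u ⟨x, hx⟩ rfl
        refine ⟨_, u, x, 0, w, Nat.zero_le _, rfl, rfl, ?_⟩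
        rw [hx]
        congr 2
        funext y
        rw [Nat.cast_zero, add_zero]
        split_ifs <;> rfl
      rcases Nat.lt_or_ge 1 m with h1 | h1
      · refine ⟨gE n a m, Or.inl ⟨h1, Or.inl rfl⟩, key _ fun c hc => ?_⟩
        exact ⟨Rd_pile (gE_pile hc), htwo (gE_pile hc)⟩
      · obtain rfl : m = 1 := by omega
        refine ⟨gE1 n a, Or.inr ⟨rfl, by omega, Or.inl rfl⟩, key _ fun c hc => ?_⟩
        exact ⟨gE1_rd (by omega) hc, fun h => absurd h (by norm_num)⟩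
    · -- families odd, the class even
      have ha2 : 2 ≤ a := by
        by_contra h
        obtain rfl : a = 1 := by omega
        exact ho2 (oddF_one' _)
      obtain ⟨hne, hrem⟩ := rem_uy hn ha2 ho2
      have key : ∀ S, (∀ c : OddHC.X k, c.1 = H1.ch 2 △ S → Rd (cyc c) = ⟨n + 3 + a, cyc (yX n a ha)⟩ ∧
          (m = 2 → IsTwo (cyc c))) → ∀ c : OddHC.X k, c.1 = H1.ch 2 △ S →
          ∀ (p0 : Cyc k) (X : Set (Cyc k)), contc p0 = cX n a m → ClsEnv AE Pp Pw (cl p0) →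
            (∀ c', contc c' = cX n a m → (c' ∈ X ↔ c' = cyc c)) →
            ∃ Gp Gw, ClsOK AE (cl p0) X Gp Gw Pp Pw := by
        intro S hS c hc p0 X h0 hEnv hX
        obtain ⟨U1, g1, g2, g3, g4, g5⟩ := Rd_X hn h0
        have hs := X_size hn h0
        obtain ⟨e1, e2⟩ := hS c hc
        refine r1_two hEnv g1 hm (by rw [pkc_u g5]; omega) ho (by rw [Rd_uX hn, g2]) (by rw [Rd_yX hn ha, g2]) hne
          (by rw [g2]; exact hrem) hzR e1 (hz.two hn h0) e2 hz.2 (fun c' hc' => hX c' ((cl_X hn h0).1 hc'))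
      have htwo : ∀ {w : OddHC.X k} {u : OddHC.X (n + 3 + a)}, Pile w u m → m = 2 → IsTwo (cyc w) := by
        rintro w u ⟨x, hx⟩ rfl
        refine ⟨_, u, x, 0, w, Nat.zero_le _, rfl, rfl, ?_⟩
        rw [hx]
        congr 2
        funext y
        rw [Nat.cast_zero, add_zero]
        split_ifs <;> rfl
      rcases Nat.lt_or_ge 1 m with h1 | h1
      · refine ⟨gO n a m, Or.inl ⟨h1, Or.inr (Or.inl rfl)⟩, key _ fun c hc => ?_⟩
        exact ⟨Rd_pile (gO_pile hn ha hc), htwo (gO_pile hn ha hc)⟩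
      · obtain rfl : m = 1 := by omega
        rcases Nat.lt_or_ge 2 a with h2 | h2
        · refine ⟨gO1 n a, Or.inr ⟨rfl, ha2, Or.inr (Or.inl ⟨h2, rfl⟩)⟩, key _ fun c hc => ?_⟩
          exact ⟨gO1_rd hn h2 hc, fun h => absurd h (by norm_num)⟩
        · obtain rfl : a = 2 := by omega
          refine ⟨gO2 n, Or.inr ⟨rfl, ha2, Or.inr (Or.inr ⟨rfl, rfl⟩)⟩, key _ fun c hc => ?_⟩
          exact ⟨gO2_rd hn hc, fun h => absurd h (by norm_num)⟩
  · -- families even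
    have hm2 : 2 ≤ m := by
      by_contra h
      obtain rfl : m = 1 := by omega
      exact ho (oddF_one' _)
    have key : ∀ S, (∀ c : OddHC.X k, c.1 = H1.ch 2 △ S → z ≠ cyc c ∧ Rd (cyc c) = ⟨n + 3 + a, cyc (uX n a)⟩ ∧
        RemOK ⟨n + 3 + a, cyc (uX n a)⟩ ({z} ∪ {cyc c})) → ∀ c : OddHC.X k, c.1 = H1.ch 2 △ S →
        ∀ (p0 : Cyc k) (X : Set (Cyc k)), contc p0 = cX n a m → ClsEnv AE Pp Pw (cl p0) →
          (∀ c', contc c' = cX n a m → (c' ∈ X ↔ c' = cyc c)) →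
          ∃ Gp Gw, ClsOK AE (cl p0) X Gp Gw Pp Pw := by
      intro S hS c hc p0 X h0 hEnv hX
      obtain ⟨U1, g1, g2, g3, g4, g5⟩ := Rd_X hn h0
      have hs := X_size hn h0
      obtain ⟨e1, e2, e3⟩ := hS c hc
      refine r1_set_even hEnv g1 hm (by rw [pkc_u g5]; omega) ho {cyc c} (cyc (uX n a)) (by rw [Rd_uX hn, g2])
        ?_ ?_ (uX_pile hn).two {z} ?_ (Or.inr ⟨z, rfl, hzR, hz.2⟩) e3
      · intro c' hc'
        rw [Set.mem_singleton_iff.1 hc']
        exact e2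
      · exact fun c' hc' => hX c' ((cl_X hn h0).1 hc')
      · intro c' hc' h
        rw [Set.mem_singleton_iff] at hc' h
        exact e1 (hc'.symm.trans h)
    rcases Nat.lt_or_ge 2 m with h1 | h1
    · obtain ⟨S, hS, h2⟩ := guest_even hn ha h1 hk ho hzR
      refine ⟨S, Or.inl ⟨hm2, Or.inr (Or.inr hS)⟩, key S fun c hc => ?_⟩
      obtain ⟨e1, e2⟩ := h2 c hc
      refine ⟨e1, ?_, e2⟩
      rcases hS with rfl | rfl | rfl
      · exact Rd_ins (lf_length _) (gP_pile hc)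
      · exact Rd_ins (lf_length _) (gM_near hn hc)
      · exact Rd_ins (lf_length _) (gY_near ha hc)
    · obtain rfl : m = 2 := by omega
      refine ⟨gM n a 2, Or.inl ⟨hm2, Or.inr (Or.inr (Or.inr (Or.inl rfl)))⟩, key _ fun c hc => ?_⟩
      have hN : Near c (uX n a) 2 := ⟨_, _, Or.inr rfl, gM_near hn hc⟩
      obtain ⟨⟨v, u, w, h1, h2, h3, rfl⟩, -⟩ := hz
      have hu := pile_same (rotU_v hn (c_vX hn)) h1 (uX_pile (a := a) hn) h2
      obtain ⟨e1, e2⟩ := rem_pn2 (by omega) hu rfl h3 hN ho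
      exact ⟨e1, Rd_near hN, e2⟩

end S5

end Pool.OddHC
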