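import Pool.Agent.Work.MP_8f87b2_h20.S5Rot

/-!
# Section 5: existence of the links
-/

set_option autoImplicit false

namespace Pool.OddHC

open Finset Equiv BinaryTree Multiset Ring1 Pool.Agent.Work.MP_8f87b2_co

variable {k j : ℕ}

/-- final type S5: LONG (left) and the link between the classes `(s, 2, 2, ..)` and `(s, 3, ..)` -/
def TyS5l (F : Set (Cyc k)) (g : DG k) : Prop :=
  ∃ s n : ℕ, 3 ≤ s ∧ 2 ≤ n ∧ (IsTri (lp (n + 2)) (H1.ch s) .nil F g ∨
    (3 ≤ n ∧ IsTri (lp 1) (app (H1.ch s) (lp n)) (H1.ch 2) F g))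

theorem TyS5l.toS5 {F : Set (Cyc k)} {g : DG k} (h : TyS5l F g) : TyS5 F g := by
  obtain ⟨s, n, h1, h2, h | ⟨_, h⟩⟩ := h
  · exact ⟨s, n, h1, h2, Or.inl h⟩
  · exact ⟨s, n, h1, h2, Or.inr (Or.inr h)⟩

namespace S5

theorem ht_ch (n : ℕ) : ht (H1.ch n) = n := H1.ch_ht n

/-- content link with `[3]`, left -/
theorem mk_cl3 (S : BinaryTree Unit) (hS : 3 ≤ ht S) (hk : S.numNodes + 3 = k) :
    ∃ (b c : X k) (g : DG k), b.1 = app S (.nil △ H1.ch 2) ∧ c.1 = H1.ch 2 △ S ∧
      TyCl {cyc b, cyc c} g ∧ contc (cyc b) = cont S + ({1} + {2}) ∧ contc (cyc c) = {3} + cont S := by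
  have e1 : cont (w1 S .nil (H1.ch 2)) = cont S + ({1} + {2}) := by
    rw [cont_w1, cont_nil, raise_zero, c_ch (by norm_num)]
  have e2 : cont (w1 .nil (H1.ch 2) S) = {3} + cont S := by
    rw [cont_w1, cont_nil, zero_add, c_ch (by norm_num)]
    congr 1
  obtain ⟨b, c, g, hb, hc, ht'⟩ := mk_tri (k := k) (H1.ch 2) S .nil (by
      rw [show (H1.ch 2).numNodes = 2 from rfl, show (BinaryTree.nil : BinaryTree Unit).numNodes = 0 from rfl]
      omega) (by
      rw [e1, e2]
      intro e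
      have := congrArg (Multiset.count 1) e
      rw [Multiset.count_add, Multiset.count_add, Multiset.count_add] at this
      simp at this) (by
      rw [ht_w1, ht_w1, ht_ch]
      change max (ht S) (max 1 2) = max 0 (max (2 + 1) (ht S))
      omega) (by
      rw [ht_w1, ht_w1, ht_ch]
      change max (ht S) (max 1 2) < max 2 (max (ht S + 1) 0)
      omega)
  refine ⟨b, c, g, hb, ?_, ⟨2, S, le_refl 2, hS, even_two, ht'⟩, ?_, ?_⟩
  · rw [hc]; rfl
  · rw [contc_cyc, hb, e1]
  · rw [contc_cyc, hc, e2]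

/-- link `2 -> 1 + 1`, left -/
theorem mk_km (S : BinaryTree Unit) (hS : 2 ≤ ht S) (hp : ∀ A, S ≠ A △ .nil) (hk : S.numNodes + 2 = k) :
    ∃ (b c : X k) (g : DG k), b.1 = app S (lp 2) ∧ c.1 = lp 1 △ S ∧
      TyKm {cyc b, cyc c} g ∧ contc (cyc b) = cont S + ({1} + {1}) ∧ contc (cyc c) = {2} + cont S := by
  have e0 : raise ({1} : Multiset ℕ) = {2} := by
    have := raise_top (s := 1) (M := 0) (by simp)
    rw [add_zero, add_zero] at this
    exact this
  have e1 : cont (w1 S .nil (lp 1)) = cont S + ({1} + {1}) := by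
    rw [cont_w1, cont_nil, raise_zero, c_lp]
    rfl
  have e2 : cont (w1 .nil (lp 1) S) = {2} + cont S := by
    rw [cont_w1, cont_nil, zero_add, c_lp]
    congr 1
  obtain ⟨b, c, g, hb, hc, ht'⟩ := mk_tri (k := k) (lp 1) S .nil (by
      rw [lp_num, show (BinaryTree.nil : BinaryTree Unit).numNodes = 0 from rfl]
      omega) (by
      rw [e1, e2]
      intro e
      have := congrArg (Multiset.count 1) e
      rw [Multiset.count_add, Multiset.count_add, Multiset.count_add] at this
      simp at this) (by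
      rw [ht_w1, ht_w1]
      change max (ht S) (max 1 1) = max 0 (max (1 + 1) (ht S))
      omega) (by
      rw [ht_w1, ht_w1]
      change max (ht S) (max 1 1) < max 1 (max (ht S + 1) 0)
      omega)
  refine ⟨b, c, g, hb, ?_, ⟨S, hS, hp, ht'⟩, ?_, ?_⟩
  · rw [hc]; rfl
  · rw [contc_cyc, hb, e1]
  · rw [contc_cyc, hc, e2]

theorem ht_lp (n : ℕ) : ht (lp (n + 1)) = 1 := by
  rw [ht_eq, c_lp]
  apply le_antisymm
  · rw [Multiset.sup_le]
    intro x hx
    exact (Multiset.eq_of_mem_replicate hx).le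
  · exact Multiset.le_sup (Multiset.mem_replicate.2 ⟨by omega, rfl⟩)

/-- LONG -/
theorem mk_long {s n : ℕ} (hs : 3 ≤ s) (hn : 2 ≤ n) (hk : s + (n + 3) = k) :
    ∃ (b c : X k) (g : DG k), b.1 = app (H1.ch s) (lp (n + 3)) ∧ c.1 = lp (n + 2) △ H1.ch s ∧
      TyS5l {cyc b, cyc c} g ∧ contc (cyc b) = {s} + replicate (n + 3) 1 ∧
      contc (cyc c) = {s} + replicate 1 2 + replicate (n + 1) 1 := by
  have e1 : cont (w1 (H1.ch s) .nil (lp (n + 2))) = {s} + replicate (n + 3) 1 := by
    rw [cont_w1, cont_nil, raise_zero, c_lp, c_ch (by omega)]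
    congr 1
  have e2 : cont (w1 .nil (lp (n + 2)) (H1.ch s)) = {s} + replicate 1 2 + replicate (n + 1) 1 := by
    rw [cont_w1, cont_nil, zero_add, c_lp, c_ch (by omega), raise_lp, Multiset.replicate_one]
    abel
  obtain ⟨b, c, g, hb, hc, ht'⟩ := mk_tri (k := k) (lp (n + 2)) (H1.ch s) .nil (by
      rw [lp_num, ch_num, show (BinaryTree.nil : BinaryTree Unit).numNodes = 0 from rfl]
      omega) (by
      rw [e1, e2]
      intro e
      have := congrArg (Multiset.count 2) e
      rw [Multiset.count_add, Multiset.count_add, Multiset.count_add, Multiset.count_replicate,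
        Multiset.count_replicate, Multiset.count_replicate, Multiset.count_singleton] at this
      split_ifs at this <;> omega) (by
      rw [ht_w1, ht_w1, ht_ch, ht_lp]
      change max s (max 1 1) = max 0 (max (1 + 1) s)
      omega) (by
      rw [ht_w1, ht_w1, ht_ch, ht_lp]
      change max s (max 1 1) < max 1 (max (s + 1) 0)
      omega)
  refine ⟨b, c, g, ?_, ?_, ⟨s, n, hs, hn, Or.inl ht'⟩, ?_, ?_⟩
  · rw [hb]; rfl
  · rw [hc]; rfl
  · rw [contc_cyc, hb, e1]
  · rw [contc_cyc, hc, e2]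

/-- the link `(s, 2, 2, 1^n) - (s, 3, 1^(n+1))` -/
theorem mk_k22 {s n : ℕ} (hs : 3 ≤ s) (hn : 3 ≤ n) (hk : s + n + 4 = k) :
    ∃ (b c : X k) (g : DG k), b.1 = app (app (H1.ch s) (lp n)) (H1.ch 2 △ lp 1) ∧
      c.1 = app (H1.ch 2) (lp 1 △ app (H1.ch s) (lp n)) ∧
      TyS5l {cyc b, cyc c} g ∧ contc (cyc b) = {s} + {3} + replicate (n + 1) 1 ∧
      contc (cyc c) = {s} + replicate 2 2 + replicate n 1 := by
  have e0 : raise ({1} : Multiset ℕ) = {2} := by
    have := raise_top (s := 1) (M := 0) (by simp)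
    rw [add_zero, add_zero] at this
    exact this
  have e3 : raise ({2} : Multiset ℕ) = {3} := by
    have := raise_top (s := 2) (M := 0) (by simp)
    rw [add_zero, add_zero] at this
    exact this
  have cl1 : cont (lp 1) = {1} := by rw [c_lp]; rfl
  have e1 : cont (w1 (app (H1.ch s) (lp n)) (H1.ch 2) (lp 1)) = {s} + {3} + replicate (n + 1) 1 := by
    rw [cont_w1, cont_app, c_ch (n := s) (by omega), c_ch (n := 2) (by norm_num), e3, cl1, c_lp, Multiset.replicate_succ,
      ← Multiset.singleton_add]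
    abel
  have e2 : cont (w1 (H1.ch 2) (lp 1) (app (H1.ch s) (lp n))) = {s} + replicate 2 2 + replicate n 1 := by
    rw [cont_w1, cont_app, c_ch (n := s) (by omega), c_ch (n := 2) (by norm_num), cl1, e0, c_lp]
    rw [show (replicate 2 2 : Multiset ℕ) = {2} + {2} from rfl]
    abel
  obtain ⟨n', rfl⟩ : ∃ n', n = n' + 1 := ⟨n - 1, by omega⟩
  have hht : ht (app (H1.ch s) (lp (n' + 1))) = s := by
    rw [ht_app, ht_ch, ht_lp]
    omega
  obtain ⟨b, c, g, hb, hc, ht'⟩ := mk_tri (k := k) (lp 1) (app (H1.ch s) (lp (n' + 1))) (H1.ch 2) (by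
      rw [lp_num, ← cont_sum (app _ _), cont_app, Multiset.sum_add, cont_sum, cont_sum, ch_num, lp_num,
        show (H1.ch 2).numNodes = 2 from rfl]
      omega) (by
      rw [e1, e2]
      intro e
      have := congrArg (Multiset.count 1) e
      rw [Multiset.count_add, Multiset.count_add, Multiset.count_add, Multiset.count_add,
        Multiset.count_replicate_self, Multiset.count_replicate_self, Multiset.count_replicate,
        Multiset.count_singleton, Multiset.count_singleton] at this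
      split_ifs at this <;> omega) (by
      rw [ht_w1, ht_w1, ht_ch, hht]
      change max s (max (2 + 1) 1) = max 2 (max (1 + 1) s)
      omega) (by
      rw [ht_w1, ht_w1, ht_ch, hht]
      change max s (max (2 + 1) 1) < max 1 (max (s + 1) 2)
      omega)
  refine ⟨b, c, g, ?_, ?_, ⟨s, n' + 1, hs, by omega, Or.inr ⟨hn, ht'⟩⟩, ?_, ?_⟩
  · rw [hb]; rfl
  · rw [hc]; rfl
  · rw [contc_cyc, hb, e1]
  · rw [contc_cyc, hc, e2]

end S5

end Pool.OddHC
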