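import Pool.Agent.Work.MP_8f87b2_fin.Classes

/-!
# One class from an involution of its families

`cls_mid`: `I` an involution of the families of the class `κ`; over a moved family either nothing is left out or one
T-cycle, and the two T-cycles over `d`, `I d` are a plain pair; over a fixed family `d` : windows `W d` and the set `X`.
-/

set_option autoImplicit false

namespace Pool.OddHC

open Finset Equiv Pool.Agent.Work.MP_8f87b2_co

variable {k : ℕ}

/-- the family `d` lies in the class `κ` -/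
def inCl (k : ℕ) (κ : RD × Multiset ℕ) (d : RD) : Prop := ∃ p : Cyc k, cl p = κ ∧ Rd p = d

theorem inCl_of {κ : RD × Multiset ℕ} {d : RD} (h : inCl k κ d) {p : Cyc k} (hp : Rd p = d) : cl p = κ := by
  obtain ⟨q, hq, hq2⟩ := h
  rw [← hq]
  exact cl_fam (hp.trans hq2.symm)

theorem cls_mid {τp τw : Type} {AE : Cyc k → Cyc k → Prop} {κ : RD × Multiset ℕ} {X : Set (Cyc k)}
    {Pp : τp → Set (Cyc k) → DG k → Prop} {Pw : τw → Set (Cyc k) → DG k → Prop}
    (I : RD → RD) (hI : ∀ d, I (I d) = d)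
    (hcl : ∀ d, inCl k κ d → inCl k κ (I d))
    (hmv : ∀ d : RD, inCl k κ d → I d ≠ d →
      (RemA (k := k) AE d ∅ ∧ RemA (k := k) AE (I d) ∅) ∨
      ∃ p q : Cyc k, Rd p = d ∧ Rd q = I d ∧ RemA AE d {p} ∧ RemA AE (I d) {q} ∧ ∃ t g, Pp t {p, q} g)
    (hX : ∀ p ∈ X, cl p = κ → I (Rd p) = Rd p)
    (W : RD → Set (Set (Cyc k)))
    (hW : ∀ d : RD, inCl k κ d → I d = d → (∀ F ∈ W d, F.Nonempty) ∧
      (∀ F ∈ W d, ∀ c ∈ F, Rd c = d ∧ c ∉ X) ∧ (∀ F ∈ W d, ∀ F' ∈ W d, ∀ c, c ∈ F → c ∈ F' → F = F') ∧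
      (∀ F ∈ W d, ∃ t g, Pw t F g) ∧ RemA AE d (inG (W d) ∪ X)) :
    ∃ Gp Gw : Set (Set (Cyc k)), ClsOK AE κ X Gp Gw Pp Pw := by
  classical
  obtain ⟨F, hF1, hF2⟩ := exists_sym (D := Option (Cyc k × Cyc k)) I hI
    (fun x d d' => (inCl k κ d ∨ inCl k κ d') → match x with
      | none => RemA (k := k) AE d ∅ ∧ RemA (k := k) AE d' ∅
      | some (p, q) => Rd p = d ∧ Rd q = d' ∧ RemA AE d {p} ∧ RemA AE d' {q} ∧
        ∃ t g, Pp t {p, q} g) (by
      intro d hd
      by_cases hc : inCl k κ d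
      · rcases hmv d hc hd with h | ⟨p, q, h1, h2, h3, h4, h5⟩
        · exact ⟨none, Or.inl fun _ => h⟩
        · exact ⟨some (p, q), Or.inl fun _ => ⟨h1, h2, h3, h4, h5⟩⟩
      · refine ⟨none, Or.inl ?_⟩
        rintro (h | h)
        · exact absurd h hc
        · have := hcl _ h
          rw [hI] at this
          exact absurd this hc)
  -- the leftover over `d`
  let L : RD → Option (Cyc k) := fun d => pickL (F d) d
  have hL : ∀ d, inCl k κ d → I d ≠ d → (L d = none ∧ L (I d) = none ∧ RemA (k := k) AE d ∅) ∨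
      ∃ p q, L d = some p ∧ L (I d) = some q ∧ Rd p = d ∧ Rd q = I d ∧ RemA AE d {p} ∧
        ∃ t g, Pp t {p, q} g := by
    intro d hc hd
    have hd' : ¬ d = I d := fun h => hd h.symm
    have e1 := hF1 d
    have e2 := hF2 d hd
    obtain ⟨x, hx⟩ : ∃ x, F d = x := ⟨_, rfl⟩
    rw [hx] at e1 e2
    have l1 : L d = pickL x d := by
      change pickL (F d) d = _
      rw [hx]
    have l2 : L (I d) = pickL x (I d) := by
      change pickL (F (I d)) (I d) = _
      rw [e1]
    rcases x with _ | ⟨p, q⟩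
    · left
      rcases e2 with e2 | e2
      · exact ⟨l1, l2, (e2 (Or.inl hc)).1⟩
      · exact ⟨l1, l2, (e2 (Or.inr hc)).2⟩
    · right
      rcases e2 with e2 | e2
      · obtain ⟨a1, a2, a3, a4, a5⟩ := e2 (Or.inl hc)
        refine ⟨p, q, ?_, ?_, a1, a2, a3, a5⟩
        · rw [l1, pickL_pos a1]
        · rw [l2, pickL_neg]
          rw [a1]; exact hd'
      · obtain ⟨a1, a2, a3, a4, a5⟩ := e2 (Or.inr hc)
        refine ⟨q, p, ?_, ?_, a2, a1, a4, ?_⟩
        · rw [l1, pickL_neg]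
          rw [a1]; exact hd
        · rw [l2, pickL_pos a1]
        · rw [Set.pair_comm]
          exact a5
  refine ⟨{G | ∃ d p q, inCl k κ d ∧ I d ≠ d ∧ L d = some p ∧ L (I d) = some q ∧ G = {p, q}},
    {G | ∃ d, inCl k κ d ∧ I d = d ∧ G ∈ W d}, ?_⟩
  have hLp : ∀ d p, inCl k κ d → I d ≠ d → L d = some p → Rd p = d := by
    intro d p hc hd hp
    rcases hL d hc hd with ⟨h1, _⟩ | ⟨p', q', h1, _, h3, _⟩
    · rw [h1] at hp
      exact absurd hp (by simp)
    · rw [h1] at hp
      obtain rfl := Option.some.inj hp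
      exact h3
  have hmem : ∀ d p q, inCl k κ d → I d ≠ d → L d = some p → L (I d) = some q → Rd q = I d := by
    intro d p q hc hd hp hq
    exact hLp (I d) q (hcl d hc) (by rw [hI]; exact fun h => hd h.symm) hq
  have hXn : ∀ d p, inCl k κ d → I d ≠ d → Rd p = d → p ∉ X := by
    intro d p hc hd hp hpX
    apply hd
    have := hX p hpX (inCl_of hc hp)
    rwa [hp] at this
  -- the groups and the leftovers
  have hG : ∀ d p q, inCl k κ d → I d ≠ d → L d = some p → L (I d) = some q →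
      ∀ c ∈ ({p, q} : Set (Cyc k)), inCl k κ (Rd c) ∧ I (Rd c) ≠ Rd c ∧ L (Rd c) = some c ∧
        ({p, q} : Set (Cyc k)) = {c' | L (Rd c) = some c' ∨ L (I (Rd c)) = some c'} := by
    intro d p q hc hd hp hq c hcc
    have h1 := hLp d p hc hd hp
    have h2 := hmem d p q hc hd hp hq
    have hd2 : I (I d) ≠ I d := by rw [hI]; exact fun h => hd h.symm
    rcases hcc with rfl | rfl
    · rw [h1]
      refine ⟨hc, hd, hp, ?_⟩
      ext c'
      simp only [Set.mem_insert_iff, Set.mem_singleton_iff, Set.mem_ofPred_eq, hp, hq, Option.some.injEq]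
      constructor
      · rintro (h | h)
        · exact Or.inl h.symm
        · exact Or.inr h.symm
      · rintro (h | h)
        · exact Or.inl h.symm
        · exact Or.inr h.symm
    · rw [h2]
      refine ⟨hcl d hc, hd2, hq, ?_⟩
      ext c'
      simp only [Set.mem_insert_iff, Set.mem_singleton_iff, Set.mem_ofPred_eq, hI, hp, hq, Option.some.injEq]
      constructor
      · rintro (h | h)
        · exact Or.inr h.symm
        · exact Or.inl h.symm
      · rintro (h | h)
        · exact Or.inr h.symm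
        · exact Or.inl h.symm
  constructor
  · rintro G (⟨d, p, q, hc, hd, hp, hq, rfl⟩ | ⟨d, hc, hd, hG⟩)
    · exact ⟨p, Or.inl rfl⟩
    · exact (hW d hc hd).1 G hG
  · rintro G (⟨d, p, q, hc, hd, hp, hq, rfl⟩ | ⟨d, hc, hd, hG⟩) c hcG
    · obtain ⟨g1, g2, g3, g4⟩ := hG d p q hc hd hp hq c hcG
      exact ⟨inCl_of g1 rfl, hXn _ c g1 g2 rfl⟩
    · obtain ⟨g1, g2⟩ := (hW d hc hd).2.1 G hG c hcG
      exact ⟨inCl_of hc g1, g2⟩
  · rintro G (⟨d, p, q, hc, hd, hp, hq, rfl⟩ | ⟨d, hc, hd, hGW⟩) G'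
      (⟨d', p', q', hc', hd', hp', hq', rfl⟩ | ⟨d', hc', hd', hGW'⟩) c h1 h2
    · rw [(hG d p q hc hd hp hq c h1).2.2.2, (hG d' p' q' hc' hd' hp' hq' c h2).2.2.2]
    · exfalso
      obtain ⟨g1, g2, g3, g4⟩ := hG d p q hc hd hp hq c h1
      have := ((hW d' hc' hd').2.1 G' hGW' c h2).1
      rw [this] at g2
      exact g2 hd'
    · exfalso
      obtain ⟨g1, g2, g3, g4⟩ := hG d' p' q' hc' hd' hp' hq' c h2
      have := ((hW d hc hd).2.1 G hGW c h1).1
      rw [this] at g2
      exact g2 hd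
    · have e1 := ((hW d hc hd).2.1 G hGW c h1).1
      have e2 := ((hW d' hc' hd').2.1 G' hGW' c h2).1
      obtain rfl : d = d' := e1.symm.trans e2
      exact (hW d hc hd).2.2.1 G hGW G' hGW' c h1 h2
  · rintro G ⟨d, p, q, hc, hd, hp, hq, rfl⟩ ⟨d', hc', hd', hGW'⟩
    obtain ⟨g1, g2, g3, g4⟩ := hG d p q hc hd hp hq p (Or.inl rfl)
    have := ((hW d' hc' hd').2.1 _ hGW' p (Or.inl rfl)).1
    rw [this] at g2
    exact g2 hd'
  · rintro G ⟨d, p, q, hc, hd, hp, hq, rfl⟩
    rcases hL d hc hd with ⟨h1, _⟩ | ⟨p', q', h1, h2, h3, h4, h5, h6⟩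
    · rw [h1] at hp
      exact absurd hp (by simp)
    · rw [h1] at hp
      rw [h2] at hq
      obtain rfl := Option.some.inj hp
      obtain rfl := Option.some.inj hq
      exact h6
  · rintro G ⟨d, hc, hd, hGW⟩
    exact (hW d hc hd).2.2.2.1 G hGW
  · intro x hx
    obtain ⟨d, rfl⟩ : ∃ d, Rd x = d := ⟨_, rfl⟩
    have hc : inCl k κ (Rd x) := ⟨x, hx, rfl⟩
    by_cases hd : I (Rd x) = Rd x
    · refine ((hW _ hc hd).2.2.2.2).congr fun p hp => ?_
      constructor
      · rintro (⟨G, hG1, hG2⟩ | h)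
        · exact Or.inl ⟨G, Or.inr ⟨_, hc, hd, hG1⟩, hG2⟩
        · exact Or.inr h
      · rintro (⟨G, hG1, hG2⟩ | h)
        · rcases hG1 with ⟨d', p', q', hc', hd', hp', hq', rfl⟩ | ⟨d', hc', hd', hGW'⟩
          · exfalso
            obtain ⟨g1, g2, g3, g4⟩ := hG d' p' q' hc' hd' hp' hq' p hG2
            rw [hp] at g2
            exact g2 hd
          · have e1 := ((hW d' hc' hd').2.1 G hGW' p hG2).1
            rw [hp] at e1
            rw [← e1] at hGW'
            exact Or.inl ⟨G, hGW', hG2⟩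
        · exact Or.inr h
    · have hmvd : ∀ p, Rd p = Rd x → (p ∈ inG ({G | ∃ d p q, inCl k κ d ∧ I d ≠ d ∧ L d = some p ∧
          L (I d) = some q ∧ G = {p, q}} ∪ {G | ∃ d, inCl k κ d ∧ I d = d ∧ G ∈ W d}) ∪ X ↔
          L (Rd x) = some p) := by
        intro p hp
        constructor
        · rintro (⟨G, hG1, hG2⟩ | h)
          · rcases hG1 with ⟨d', p', q', hc', hd', hp', hq', rfl⟩ | ⟨d', hc', hd', hGW'⟩
            · obtain ⟨g1, g2, g3, g4⟩ := hG d' p' q' hc' hd' hp' hq' p hG2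
              rw [hp] at g3
              exact g3
            · exfalso
              have e1 := ((hW d' hc' hd').2.1 G hGW' p hG2).1
              rw [hp] at e1
              rw [← e1] at hd'
              exact hd hd'
          · exact absurd h (hXn _ p hc hd hp)
        · intro h
          left
          rcases hL _ hc hd with ⟨h1, _⟩ | ⟨p', q', h1, h2, h3, h4, h5, h6⟩
          · rw [h1] at h
            exact absurd h (by simp)
          · rw [h1] at h
            obtain rfl := Option.some.inj h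
            exact ⟨{p', q'}, Or.inl ⟨Rd x, p', q', hc, hd, h1, h2, rfl⟩, Or.inl rfl⟩
      rcases hL _ hc hd with ⟨h1, h2, h3⟩ | ⟨p', q', h1, h2, h3, h4, h5, h6⟩
      · refine h3.congr fun p hp => ?_
        rw [hmvd p hp, h1]
        simp
      · refine h5.congr fun p hp => ?_
        rw [hmvd p hp, h1]
        constructor
        · rintro rfl
          rfl
        · intro h
          exact (Option.some.inj h).symm

end Pool.OddHC
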