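import Pool.Agent.Work.MP_8f87b2_h20.Cls
import Pool.Agent.Work.MP_8f87b2_end.PairL
import Pool.Agent.Work.MP_8f87b2_end.Fam2

/-!
# One class with L pairs

`cls_L`: a class with `m ≥ 1` parts `1`. `D2` : a removal set of the second level (the nodes). Over the other reduced
cycles: nothing (even families) or an L pair. Over the nodes: windows `W U` and `X`.
-/

set_option autoImplicit false

namespace Pool.OddHC

open Finset Equiv Pool.OddHop Pool.Agent.Work.MP_8f87b2_co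

variable {k : ℕ}

open Classical in
/-- an involution of `Cyc j` as a map of the families -/
noncomputable def liftI (j : ℕ) (i1 : Cyc j → Cyc j) (d : RD) : RD :=
  if h : d.1 = j then ⟨j, i1 (h ▸ d.2)⟩ else d

theorem liftI_self {j : ℕ} (i1 : Cyc j → Cyc j) (U : Cyc j) : liftI j i1 ⟨j, U⟩ = ⟨j, i1 U⟩ := by
  unfold liftI
  rw [dif_pos rfl]

theorem liftI_ne {j : ℕ} (i1 : Cyc j → Cyc j) {d : RD} (h : d.1 ≠ j) : liftI j i1 d = d := by
  unfold liftI
  rw [dif_neg h]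

theorem exI (j : ℕ) (i1 : Cyc j → Cyc j) (hi : ∀ U, i1 (i1 U) = U) :
    ∃ I : RD → RD, (∀ d, I (I d) = d) ∧ (∀ U : Cyc j, I ⟨j, U⟩ = ⟨j, i1 U⟩) ∧
      ∀ d : RD, d.1 ≠ j → I d = d := by
  refine ⟨liftI j i1, ?_, liftI_self i1, fun d => liftI_ne i1⟩
  rintro ⟨j', U⟩
  by_cases h : j' = j
  · subst h
    rw [liftI_self, liftI_self, hi]
  · rw [liftI_ne i1 (d := ⟨j', U⟩) h, liftI_ne i1 (d := ⟨j', U⟩) h]

/-- a T-cycle over a given reduced cycle -/
theorem ex_over {j m : ℕ} (U : Cyc j) (hk : j + pkc U + m = k) :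
    ∃ p : Cyc k, Rd p = ⟨j, U⟩ ∧ (contc p).count 1 = m := by
  obtain ⟨u, rfl⟩ := Quotient.exists_rep U
  have h1 : ∑ x : ZMod (2 * j + 1), (if x = 0 then m else 0) = m := (pileMs m 0).2
  have hk' : j + pkn u.1 + ∑ x : ZMod (2 * j + 1), (if x = 0 then m else 0) = k := by
    rw [h1, ← pkc_cyc]
    exact hk
  refine ⟨cyc (phi u (fun x => if x = 0 then m else 0) hk'), Rd_ins (lf_length _) rfl, ?_⟩
  rw [contc_cyc]
  change (cont (ins u.1 (lf fun x => if x = 0 then m else 0))).count 1 = m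
  rw [count_one_ins _ _ (by rw [lf_length, X_num]), lf_sum, h1]

/-- the size equation -/
theorem over_size (p : Cyc k) : (Rd p).1 + pkc (Rd p).2 + (contc p).count 1 = k := by
  obtain ⟨j, u, e, w, hw, he, hwe, hR, h1, h2, h3, _⟩ := exists_over p
  rw [hR]
  change j + pkc (cyc u) + _ = k
  rw [pkc_cyc]
  omega

theorem cls_L {τp τw : Type} {κ : RD × Multiset ℕ} {X : Set (Cyc k)}
    {Pp : τp → Set (Cyc k) → DG k → Prop} {Pw : τw → Set (Cyc k) → DG k → Prop}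
    (hE : ∀ F g, TyE F g → ∃ t, Pp t F g) (hL : ∀ F g, TyL F g → ∃ t, Pp t F g)
    {i j m : ℕ} (V : Cyc i) (hm : 1 ≤ m)
    (hκ : ∀ p : Cyc k, cl p = κ → (Rd p).1 = j ∧ Rd (Rd p).2 = ⟨i, V⟩ ∧ (contc p).count 1 = m)
    (D2 : Set (Cyc j)) (h2 : RemOK ⟨i, V⟩ D2)
    (hX : ∀ p ∈ X, cl p = κ → ∀ U : Cyc j, Rd p = ⟨j, U⟩ → U ∈ D2)
    (W : Cyc j → Set (Set (Cyc k)))
    (hW : ∀ U ∈ D2, inCl k κ ⟨j, U⟩ → (∀ F ∈ W U, F.Nonempty) ∧
      (∀ F ∈ W U, ∀ c ∈ F, Rd c = ⟨j, U⟩ ∧ c ∉ X) ∧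
      (∀ F ∈ W U, ∀ F' ∈ W U, ∀ c, c ∈ F → c ∈ F' → F = F') ∧
      (∀ F ∈ W U, ∃ t g, Pw t F g) ∧
      RemA (fun p q => p ≠ q ∧ ∃ t g, Pp t {p, q} g) ⟨j, U⟩ (inG (W U) ∪ X)) :
    ∃ Gp Gw : Set (Set (Cyc k)),
      ClsOK (fun p q => p ≠ q ∧ ∃ t g, Pp t {p, q} g) κ X Gp Gw Pp Pw := by
  classical
  obtain ⟨i1, e1, e2, e3, e4⟩ := exists_iD (k := j) (fun d => if d = ⟨i, V⟩ then D2 else Set.univ) (by
    intro d
    by_cases h : d = ⟨i, V⟩
    · subst h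
      simp only [if_true]
      exact h2
    · simp only [if_neg h]
      exact remOK_all d _ fun _ _ => Set.mem_univ _)
  obtain ⟨I, f1, f2, f3⟩ := exI j i1 e1
  have hcc : ∀ U : Cyc j, contc (i1 U) = contc U := fun U =>
    contc_of_Rd (by rw [e2]) (by rw [e2])
  -- the shape of a family of the class
  have shp : ∀ d : RD, inCl k κ d → ∃ U : Cyc j, d = ⟨j, U⟩ ∧ Rd U = ⟨i, V⟩ ∧ j + pkc U + m = k := by
    rintro d ⟨p, hp, rfl⟩
    obtain ⟨g1, g2, g3⟩ := hκ p hp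
    have g4 := over_size p
    obtain ⟨⟨j', U⟩, hd⟩ : ∃ d, d = Rd p := ⟨_, rfl⟩
    rw [← hd] at g1 g2 g4 ⊢
    change j' = j at g1
    subst g1
    exact ⟨U, rfl, g2, by rw [← g3]; exact g4⟩
  have hfix : ∀ U : Cyc j, Rd U = ⟨i, V⟩ → (i1 U = U ↔ U ∈ D2) := by
    intro U hU
    have := e4 U
    rw [hU, if_pos rfl] at this
    exact this
  have hIne : ∀ U : Cyc j, I ⟨j, U⟩ = ⟨j, U⟩ ↔ i1 U = U := by
    intro U
    rw [f2]
    constructor
    · intro h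
      exact eq_of_heq (Sigma.mk.inj_iff.1 h).2
    · intro h
      rw [h]
  have hAE : ∀ (d : RD) (D : Set (Cyc k)), RemOK d D →
      RemA (fun p q => p ≠ q ∧ ∃ t g, Pp t {p, q} g) d D := by
    intro d D h
    refine h.remA.mono fun p q _ _ hne hpq => ⟨hne, ?_⟩
    obtain ⟨g, hg⟩ := tyE_of_hop hne hpq
    obtain ⟨t, ht⟩ := hE _ _ hg
    exact ⟨t, g, ht⟩
  have hcount : ∀ (U : Cyc j), j + pkc U + m = k → ∀ p : Cyc k, Rd p = ⟨j, U⟩ →
      (contc p).count 1 = m := by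
    intro U hU p hp
    have := over_size p
    rw [hp] at this
    change j + pkc U + _ = k at this
    omega
  refine cls_mid (κ := κ) (X := X) I f1 ?_ ?_ ?_ (fun d => if h : d.1 = j then W (h ▸ d.2) else ∅) ?_
  · intro d hd
    obtain ⟨U, rfl, hU, hk⟩ := shp d hd
    rw [f2]
    obtain ⟨p, hp, -⟩ := ex_over (k := k) (m := m) (i1 U) (by
      unfold pkc
      rw [hcc]
      exact hk)
    refine ⟨p, ?_, hp⟩
    obtain ⟨q, hq, hq2⟩ := hd
    rw [← hq]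
    have h3 : contc p = contc q := contc_of_Rd (by rw [hp, hq2]) (by
      rw [hp, hq2]
      exact hcc U)
    unfold cl
    rw [h3, hp, hq2]
    congr 1
    exact e2 U
  · intro d hd hne
    obtain ⟨U, rfl, hU, hk⟩ := shp d hd
    have hU1 : i1 U ≠ U := fun h => hne ((hIne U).2 h)
    have hhop : HopC U (i1 U) := by
      rcases e3 U with h | h
      · exact absurd h hU1
      · exact h
    rw [f2]
    have hk' : j + pkc (i1 U) + m = k := by
      unfold pkc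
      rw [hcc]
      exact hk
    by_cases ho : oddF j m
    · right
      obtain ⟨p, q, g, g1, g2, g3, g4⟩ := tyL_of_hop (k := k) hU1.symm hhop hm hk
      obtain ⟨t, ht⟩ := hL _ _ g4
      refine ⟨p, q, g1, g2, ?_, ?_, t, g, ht⟩
      · refine hAE _ _ ((remOK_lo ⟨j, U⟩ p g1 fun h4 h5 => ?_).congr fun x _ => ?_)
        · rw [hcount U hk p g1] at h4
          subst h4
          exact (g3 rfl h5).1
        · rw [hcount U hk p g1]
          exact ⟨fun h => h.1, fun h => ⟨h, ho⟩⟩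
      · refine hAE _ _ ((remOK_lo ⟨j, i1 U⟩ q g2 fun h4 h5 => ?_).congr fun x _ => ?_)
        · rw [hcount _ hk' q g2] at h4
          subst h4
          exact (g3 rfl h5).2
        · rw [hcount _ hk' q g2]
          exact ⟨fun h => h.1, fun h => ⟨h, ho⟩⟩
    · left
      exact ⟨hAE _ _ (remOK_even ⟨j, U⟩ m (hcount U hk) ho),
        hAE _ _ (remOK_even ⟨j, i1 U⟩ m (hcount _ hk') ho)⟩
  · intro p hp hpκ
    obtain ⟨U, hd, hU, hk⟩ := shp (Rd p) ⟨p, hpκ, rfl⟩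
    rw [hd, hIne, hfix U hU]
    exact hX p hp hpκ U hd
  · intro d hd hI
    obtain ⟨U, rfl, hU, hk⟩ := shp d hd
    have hD : U ∈ D2 := (hfix U hU).1 ((hIne U).1 hI)
    simp only [dif_pos]
    exact hW U hD hd

end Pool.OddHC
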