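import Pool.Agent.Work.MP_8f87b2_h20.S5Peel
import Pool.Agent.Work.MP_8f87b2_h40.Excl2
import Pool.Agent.Work.MP_8f87b2_mid.FirstMax
import Pool.Agent.Work.MP_8f87b2_fin.WinG
import Pool.Agent.Work.MP_8f87b2_h60.InAq

/-!
# Section 5: the window of `X_1` is the pile `(()) [s] [3] ()^m`
-/

set_option autoImplicit false

namespace Pool.OddHC

open Finset Equiv BinaryTree Multiset Ring1 Pool.Agent.Work.MP_8f87b2_co Pool.OddHop

namespace S5

variable {k n m : ℕ}

/-- `i` brackets around `t` -/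
def NN : ℕ → BinaryTree Unit → BinaryTree Unit
  | 0, t => t
  | i + 1, t => NN i t △ .nil

theorem NN_one (i : ℕ) (t : BinaryTree Unit) : NN i (t △ .nil) = NN (i + 1) t := by
  induction i with
  | zero => rfl
  | succ i ih =>
    change NN i (t △ .nil) △ .nil = _
    rw [ih]
    rfl

theorem NN_ne {t : BinaryTree Unit} (h : t ≠ .nil) (i : ℕ) : NN i t ≠ .nil := by
  cases i with
  | zero => exact h
  | succ i => exact fun e => by cases e

theorem NN_ht {t : BinaryTree Unit} (i : ℕ) : Tsq.ht (NN i t) = Tsq.ht t + i := by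
  induction i with
  | zero => rfl
  | succ i ih =>
    change max (Tsq.ht (NN i t) + 1) 0 = _
    omega

theorem NN_num {t : BinaryTree Unit} (i : ℕ) : (NN i t).numNodes = t.numNodes + i := by
  induction i with
  | zero => rfl
  | succ i ih =>
    change (NN i t).numNodes + 0 + 1 = _
    omega

theorem sq_NN {t S : BinaryTree Unit} (h : t ≠ .nil) (hs : Tsq.sq t = (S, .nil)) (i : ℕ) :
    Tsq.sq (NN i t) = (NN i S, .nil) := by
  induction i with
  | zero => exact hs
  | succ i ih =>
    change Tsq.sq (NN i t △ .nil) = _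
    rw [Tsq.sq_wrap (NN_ne h i) (Nat.zero_le _), ih]
    rfl

/-- `()^m (())` -/
def HH (m : ℕ) : BinaryTree Unit := lv m (lv2 1 .nil)

theorem HH_eq (m : ℕ) (X : BinaryTree Unit) : app (HH m) X = app (lp m) ((.nil △ .nil) △ X) := by
  unfold HH
  induction m with
  | zero => rfl
  | succ m ih =>
    change .nil △ app (lv m (lv2 1 .nil)) X = .nil △ app (lp m) _
    rw [ih]

theorem lp_ht (m : ℕ) : Tsq.ht (lp m) ≤ 1 := by
  induction m with
  | zero => exact Nat.zero_le _
  | succ m ih =>
    change max (0 + 1) (Tsq.ht (lp m)) ≤ 1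
    omega

theorem HH_ht (m : ℕ) : Tsq.ht (HH m) = 2 := by
  have h := HH_eq m .nil
  rw [H1.app_nil] at h
  rw [h, Tsq.ht_app]
  have := lp_ht m
  change max (Tsq.ht (lp m)) 2 = 2
  omega

/-- `H [b]` -/
def HB (m b : ℕ) : BinaryTree Unit := app (HH m) (H1.ch b)

theorem HB_ne (m b : ℕ) : HB m b ≠ .nil := by
  unfold HB
  rw [HH_eq]
  exact app_ne' (by simp)

theorem sq_HB {b : ℕ} (hb : 2 ≤ b) : Tsq.sq (HB m (b + 1)) = (NN 1 (HB m b), .nil) := by
  unfold HB
  rw [Tsq.sq_pre (HH m) (H1.ch (b + 1)) (by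
    rw [HH_ht, H1.ht_eq, H1.ch_ht]
    omega), Hole2.sq_ch]
  rfl

theorem HB_ht {b : ℕ} (hb : 2 ≤ b) : Tsq.ht (HB m b) = b := by
  unfold HB
  rw [Tsq.ht_app, HH_ht, H1.ht_eq, H1.ch_ht]
  omega

/-- `[3] ((H [b]))` inside `i` brackets -/
def EE (m i b : ℕ) : BinaryTree Unit := NN i (app (H1.ch 3) (NN 2 (HB m b)))

theorem sq_EE {i b : ℕ} (hb : 2 ≤ b) : Tsq.sq (EE m i (b + 1)) = (EE m (i + 1) b, .nil) := by
  have h1 : Tsq.sq (NN 2 (HB m (b + 1))) = (NN 2 (NN 1 (HB m b)), .nil) :=
    sq_NN (HB_ne _ _) (sq_HB hb) 2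
  have h2 : Tsq.sq (app (H1.ch 3) (NN 2 (HB m (b + 1)))) = (NN 1 (app (H1.ch 3) (NN 2 (HB m b))), .nil) := by
    rw [Tsq.sq_pre _ _ (by rw [H1.ht_eq, H1.ch_ht, NN_ht, HB_ht (by omega)]; omega), h1]
    rfl
  unfold EE
  rw [sq_NN (app_ne' (NN_ne (HB_ne _ _) 2)) h2 i]
  change (NN i (app (H1.ch 3) (NN 2 (HB m b)) △ .nil), _) = _
  rw [NN_one]

/-- the window word -/
def zW (n m : ℕ) : BinaryTree Unit := HB m (n + 1) △ H1.ch 3

theorem sq_zW (hn : 2 ≤ n) : Tsq.sq (zW n m) = (NN 2 (HB m n), H1.ch 3) := by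
  unfold zW
  rw [Tsq.sq_wrap (HB_ne _ _) (by rw [HB_ht (by omega), H1.ht_eq, H1.ch_ht]; omega), sq_HB hn]
  rfl

theorem cyc_sq {x : OddHC.X k} (hx : x.1 ≠ .nil) {y : BinaryTree Unit} (h : app (Tsq.sq x.1).2 (Tsq.sq x.1).1 = y) :
    ∃ x' : OddHC.X k, x'.1 = y ∧ cyc x' = cyc x := by
  refine ⟨TT (TT x), ?_, ?_⟩
  · rw [Tsq.TT_sq x hx, h]
  · exact cyc_pow' x 2

theorem zW_EE (hn : 2 ≤ n) {x : OddHC.X k} (hx : x.1 = zW n m) (i b : ℕ) (hb : 2 ≤ b) (h : i + b = n) :
    ∃ x' : OddHC.X k, x'.1 = EE m i b ∧ cyc x' = cyc x := by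
  induction i generalizing b with
  | zero =>
    obtain rfl : b = n := by omega
    refine cyc_sq (by rw [hx]; exact fun e => by cases e) ?_
    rw [hx, sq_zW hn]
    rfl
  | succ i ih =>
    obtain ⟨x', h1, h2⟩ := ih (b + 1) (by omega) (by omega)
    obtain ⟨x2, h3, h4⟩ := cyc_sq (x := x') (by rw [h1]; exact NN_ne (app_ne' (NN_ne (HB_ne _ _) 2)) i) (y := EE m (i + 1) b) (by
      rw [h1, sq_EE hb]
      rfl)
    exact ⟨x2, h3, h4.trans h2⟩

theorem FM_NN {t : BinaryTree Unit} {a b : List Bool} (h : H1.FM t a b) (i : ℕ) :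
    H1.FM (NN i t) (List.replicate i true ++ a) (b ++ List.replicate i false) := by
  induction i with
  | zero =>
    change H1.FM t ([] ++ a) (b ++ [])
    rw [List.nil_append, List.append_nil]
    exact h
  | succ i ih =>
    have h1 := ih.node (Z := .nil) (Nat.zero_le _)
    change H1.FM (NN i t △ .nil) _ _
    have e1 : List.replicate (i + 1) true ++ a = true :: (List.replicate i true ++ a) := by
      rw [List.replicate_succ, List.cons_append]
    have e2 : b ++ List.replicate (i + 1) false = (b ++ List.replicate i false) ++ false :: wd (.nil : BinaryTree Unit) := by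
      rw [List.replicate_succ', List.append_assoc]
      rfl
    rw [e1, e2]
    exact h1

theorem wd_ch (b : ℕ) : wd (H1.ch b) = List.replicate b true ++ List.replicate b false := by
  induction b with
  | zero => rfl
  | succ b ih =>
    change wd (H1.ch b △ .nil) = _
    rw [wd_node, ih, List.replicate_succ, List.replicate_succ']
    simp [wd]

theorem wd_lp_not (m : ℕ) : (wd (lp m)).map not ++ [false] = false :: wd (lp m) := by
  induction m with
  | zero => rfl
  | succ m ih =>
    have e : wd (lp (m + 1)) = true :: false :: wd (lp m) := by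
      change wd (.nil △ lp m) = _
      rw [wd_node]
      rfl
    rw [e]
    simp only [List.map_cons, List.cons_append, ih]
    rfl

theorem FM_EE (i : ℕ) : H1.FM (EE m i 2)
    (List.replicate i true ++ (wd (H1.ch 3) ++ true :: true :: (wd (lp m) ++ [true])))
    (([false] ++ false :: wd (H1.ch 2)) ++ false :: wd (.nil : BinaryTree Unit) ++ false :: wd (.nil : BinaryTree Unit) ++
      List.replicate i false) := by
  have h0 : H1.FM (.nil △ .nil) [] [false] := ⟨rfl, fun m => by simp; decide, by decide⟩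
  have h1 := h0.node (Z := H1.ch 2) (by rw [H1.ht_eq, H1.ch_ht]; change 2 ≤ 1 + 1; omega)
  have h2 := h1.app_left (P := lp m) (by
    have := lp_ht m
    change _ < 2
    omega)
  rw [← HH_eq] at h2
  have h3 := (h2.node (Z := .nil) (Nat.zero_le _)).node (Z := .nil) (Nat.zero_le _)
  have h4 := h3.app_left (P := H1.ch 3) (by
    have := HB_ht (m := m) (b := 2) le_rfl
    rw [H1.ht_eq, H1.ch_ht]
    change 3 < Tsq.ht (NN 2 (HB m 2))
    rw [NN_ht, this]
    omega)
  exact FM_NN h4 i

/-- **the pile word of the window** -/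
theorem zW_cyc (hn : 2 ≤ n) {x : OddHC.X k} (hx : x.1 = zW n m) :
    ∃ x' : OddHC.X k, x'.1 = app (H1.ch 2) (app (H1.ch (n + 2)) (app (H1.ch 3) (lp m))) ∧ cyc x' = cyc x := by
  obtain ⟨i, rfl⟩ : ∃ i, n = i + 2 := ⟨n - 2, by omega⟩
  obtain ⟨y, h1, h2⟩ := zW_EE hn hx i 2 le_rfl rfl
  refine ⟨TT y, ?_, (cyc_pow' y 1).trans h2⟩
  apply sl_inj
  unfold sl
  congr 1
  have h3 := (show H1.FM y.1 _ _ from h1 ▸ FM_EE (m := m) i).wdT
  rw [h3, wd_app, wd_app, wd_app, wd_ch, wd_ch, wd_ch]
  have e := wd_lp_not m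
  have e0 : wd (.nil : BinaryTree Unit) = [] := rfl
  have e1 : ∀ j : ℕ, List.replicate (j + 2 + 2) true = List.replicate j true ++ [true, true, true, true] := by
    intro j
    rw [List.replicate_succ', List.replicate_succ', List.replicate_succ', List.replicate_succ']
    simp
  have e2 : ∀ j : ℕ, List.replicate (j + 2 + 2) false = false :: (List.replicate j false ++ [false, false, false]) := by
    intro j
    rw [List.replicate_succ, List.replicate_succ', List.replicate_succ', List.replicate_succ']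
    simp
  have e3 : ∀ (j : ℕ) (l : List Bool), true :: (List.replicate j true ++ l) = List.replicate j true ++ true :: l := by
    intro j l
    induction j with
    | zero => rfl
    | succ j ih =>
      rw [List.replicate_succ, List.cons_append, List.cons_append, ih]
  simp only [List.map_append, List.map_cons, List.map_replicate, List.append_assoc, List.cons_append, List.map_nil,
    List.nil_append, e0, e, e1, e2, e3, Bool.not_true, Bool.not_false, List.replicate_succ, List.replicate_zero]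

end S5

end Pool.OddHC
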