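import Pool.Agent.Work.MP_8f87b2_h3.Ends2
import Pool.Agent.Work.MP_8f87b2_fin.RemTwo
import Pool.Agent.Work.MP_8f87b2_h20.S5X3

/-!
# Even families: an arbitrary member and the pile or the LEFT near pile
-/

set_option autoImplicit false

namespace Pool.OddHop

open Finset Equiv

variable {g n m : ℕ}

/-- two options instead of three -/
theorem near_t2 [NeZero n] (hn : Odd n) (hn3 : 3 ≤ n) (hg : g ∣ n) (hm : 3 ≤ m) (x0 : ZMod n)
    (t : Quotient (msSetoid m hg)) (htp : t ≠ Quotient.mk (msSetoid m hg) (pileMs m x0))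
    (hev : Even (Nat.card (Quotient (msSetoid m hg)))) :
    ∃ z : Quotient (msSetoid m hg), (z = Quotient.mk (msSetoid m hg) (pileMs m x0) ∨
        z = Quotient.mk (msSetoid m hg) (nearMs (by omega) x0 (x0 - 1))) ∧ z ≠ t ∧
      ∃ ι : Quotient (msSetoid m hg) → Quotient (msSetoid m hg), (∀ q, ι (ι q) = q) ∧
        (∀ q, ι q = q ∨ HopQ hg q (ι q)) ∧ ∀ q, ι q = q ↔ q = t ∨ q = z := by
  have hfin : Finite (Quotient (msSetoid m hg)) := Quotient.finite _
  obtain ⟨f, hf, hone⟩ := hasCycle (m := m) hn hg (by omega) (by omega)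
  classical
  have := Fintype.ofFinite (Quotient (msSetoid m hg))
  have hc : f.IsCycleOn ((Finset.univ : Finset (Quotient (msSetoid m hg))) : Set _) := by
    refine ⟨?_, fun x _ y _ => hone x y⟩
    rw [Finset.coe_univ]
    exact Set.bijOn_univ.2 f.bijective
  obtain ⟨d, hd0, hd1, hd2⟩ : ∃ d, 0 < d ∧ d < Nat.card (Quotient (msSetoid m hg)) ∧
      (f ^ d) t = Quotient.mk (msSetoid m hg) (pileMs m x0) := by
    obtain ⟨j, hj, he⟩ := hc.exists_pow_eq (Finset.mem_univ t)
      (Finset.mem_univ (Quotient.mk (msSetoid m hg) (pileMs m x0)))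
    refine ⟨j, ?_, by rwa [Nat.card_eq_fintype_card, ← Finset.card_univ], he⟩
    by_contra h0
    have h1 : j = 0 := by omega
    subst h1
    exact htp he
  -- members at different distances are different
  have hdiff : ∀ a b, a < Nat.card (Quotient (msSetoid m hg)) → b < Nat.card (Quotient (msSetoid m hg)) →
      (f ^ a) t = (f ^ b) t → a = b := by
    intro a b ha hb h6
    have h7 := (hc.pow_apply_eq_pow_apply (Finset.mem_univ t)).1 h6
    rw [Nat.card_eq_fintype_card, ← Finset.card_univ] at ha hb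
    exact Nat.ModEq.eq_of_lt_of_lt h7 ha hb
  rcases Nat.even_or_odd d with hp | hp
  · have h2 : d % 2 = 0 := Nat.even_iff.1 hp
    have hN : Nat.card (Quotient (msSetoid m hg)) % 2 = 0 := Nat.even_iff.1 hev
    have h3 : f ((f ^ (d - 1)) t) = Quotient.mk (msSetoid m hg) (pileMs m x0) := by
      rw [← hd2, ← Perm.mul_apply, ← pow_succ']
      congr 2
      omega
    have h3' : (f ^ (d + 1)) t = f (Quotient.mk (msSetoid m hg) (pileMs m x0)) := by
      rw [← hd2, ← Perm.mul_apply, ← pow_succ']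
    have h4 := hf ((f ^ (d - 1)) t)
    rw [h3] at h4
    have h4' := hf (Quotient.mk (msSetoid m hg) (pileMs m x0))
    rw [← h3'] at h4'
    have ha := hop_pile hg (by omega) (by omega) x0 h4.symm3
    have hb := hop_pile hg (by omega) (by omega) x0 h4'
    have key : ∀ e, e < Nat.card (Quotient (msSetoid m hg)) → e % 2 = 1 →
        (f ^ e) t = Quotient.mk (msSetoid m hg) (nearMs (by omega) x0 (x0 - 1)) →
        ∃ z : Quotient (msSetoid m hg), (z = Quotient.mk (msSetoid m hg) (pileMs m x0) ∨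
          z = Quotient.mk (msSetoid m hg) (nearMs (by omega) x0 (x0 - 1))) ∧ z ≠ t ∧
        ∃ ι : Quotient (msSetoid m hg) → Quotient (msSetoid m hg), (∀ q, ι (ι q) = q) ∧
          (∀ q, ι q = q ∨ HopQ hg q (ι q)) ∧ ∀ q, ι q = q ↔ q = t ∨ q = z := by
      intro e he he2 hz
      obtain ⟨ι, k1, k2, k3⟩ := two_matching f hone t hev e he he2
      refine ⟨(f ^ e) t, Or.inr hz, ?_, ι, k1, fun q => hop_of_adj hf (k2 q), k3⟩
      intro h
      have h6 : (f ^ e) t = (f ^ 0) t := by rw [h]; rfl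
      have := hdiff e 0 he (by omega) h6
      omega
    rcases ha with ha | ha
    · rcases hb with hb | hb
      · exfalso
        have := hdiff (d - 1) (d + 1) (by omega) (by omega) (ha.trans hb.symm)
        omega
      · exact key (d + 1) (by omega) (by omega) hb
    · exact key (d - 1) (by omega) (by omega) ha
  · have h2 : d % 2 = 1 := Nat.odd_iff.1 hp
    obtain ⟨ι, k1, k2, k3⟩ := two_matching f hone t hev d hd1 h2
    refine ⟨(f ^ d) t, Or.inl hd2, by rw [hd2]; exact htp.symm, ι, k1,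
      fun q => hop_of_adj hf (k2 q), k3⟩

end Pool.OddHop

namespace Pool.OddHC

open Finset Equiv BinaryTree Multiset Ring1 Pool.Agent.Work.MP_8f87b2_co Pool.OddHop

variable {j k m : ℕ}

/-- **even family, `m ≥ 3`**: any member `t` and one of pile, left near pile -/
theorem remOK_t2 (hj : 1 ≤ j) {u : OddHC.X j} (hm : 3 ≤ m) {x : ZMod (2 * j + 1)} {p q' : OddHC.X k}
    (hp : p.1 = ins u.1 (lf fun z => if z = x then m else 0))
    (hq' : q'.1 = ins u.1 (lf fun z => (if z = x then m - 1 else 0) + if z = x - 1 then 1 else 0))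
    (hev : ¬ oddF j m) {t : Cyc k} (ht : Rd t = ⟨j, cyc u⟩) :
    ∃ z : Cyc k, (z = cyc p ∨ z = cyc q') ∧ z ≠ t ∧ RemOK ⟨j, cyc u⟩ {t, z} := by
  by_cases htp : t = cyc p
  · refine ⟨cyc q', Or.inr rfl, ?_, ?_⟩
    · rw [htp]
      refine (S5.pile_ne_near (by omega) ?_ hp hq').symm
      have : Fact (1 < 2 * j + 1) := ⟨by omega⟩
      intro h
      exact one_ne_zero (show (1 : ZMod (2 * j + 1)) = 0 by linear_combination -h)
    · rw [htp]
      exact remOK_py hj hm (Or.inr rfl) hp hq' hev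
  have hk : j + pkn u.1 + m = k := by
    have h0 := word_phi hp
    have h1 : ∑ z : ZMod (2 * j + 1), (if z = x then m else 0) = m := (pileMs m x).2
    rwa [h1] at h0
  obtain ⟨g, hg, F, hinj, hF, hR, hs, hH, hA⟩ := family_rem hj u m hk
  obtain ⟨t', ht'⟩ := hs t ht
  have e1 : F (Quotient.mk _ (pileMs m x)) = cyc p := hF _ _ hp
  have e3 : F (Quotient.mk _ (nearMs (by omega) x (x - 1))) = cyc q' := hF _ _ hq'
  obtain ⟨z, hz, hzt, ι, h1, h2, h3⟩ := near_t2 (n := 2 * j + 1) (m := m) ⟨j, rfl⟩ (by omega) hg hm x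
    t' (by rintro rfl; exact htp (ht'.symm.trans e1)) (by
      rw [← Nat.not_odd_iff_even, quot_odd]
      exact hev)
  refine ⟨F z, ?_, ?_, ?_⟩
  · rcases hz with rfl | rfl
    · exact Or.inl e1
    · exact Or.inr e3
  · rw [← ht']
    exact fun h => hzt (hinj h)
  · refine RemOK.congr (hA HopC ι h1 fun q => (h2 q).imp id (hH q (ι q))) fun r _ => ?_
    constructor
    · rintro ⟨q, rfl, hq⟩
      rcases (h3 q).1 hq with rfl | rfl
      · exact Or.inl ht'
      · exact Or.inr rfl
    · rintro (rfl | rfl)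
      · exact ⟨t', ht', (h3 t').2 (Or.inl rfl)⟩
      · exact ⟨z, rfl, (h3 z).2 (Or.inr rfl)⟩

end Pool.OddHC
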