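import Pool.Agent.Work.MP_8f87b2_h20.S5C1
import Pool.Agent.Work.MP_8f87b2_h20.S5Rot

/-!
# Section 5: the class `(s, 3, 1^m)`
-/

set_option autoImplicit false

namespace Pool.OddHC

open Finset Equiv BinaryTree Multiset Ring1 Pool.Agent.Work.MP_8f87b2_co

namespace S5

variable {k j : ℕ} {τp τw : Type} {AE : Cyc k → Cyc k → Prop}
  {Pp : τp → Set (Cyc k) → DG k → Prop} {Pw : τw → Set (Cyc k) → DG k → Prop}

theorem Uq_11 (j : ℕ) : Uq j ({1} + {1}) := by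
  have key : ∀ p : Cyc j, contc p = {1} + {1} → ∀ w : OddHC.X j, cyc w = p → w.1 = lv j .nil := by
    rintro p hp w rfl
    rw [contc_cyc] at hp
    have h1 : ht w.1 ≤ 1 := by
      rw [ht_eq, hp]
      decide
    rw [lp_of_ht w.1 h1, X_num]
  intro p q hp hq
  obtain ⟨v, rfl⟩ := Quotient.exists_rep p
  obtain ⟨w, rfl⟩ := Quotient.exists_rep q
  have : v = w := Subtype.ext ((key _ hp v rfl).trans (key _ hq w rfl).symm)
  rw [this]

/-- one T-cycle of content `(n, 1)`, `1 ≤ n` -/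
theorem Uq_n1 (j n : ℕ) (hn : 1 ≤ n) : Uq j ({n} + {1}) := by
  obtain ⟨n, rfl⟩ : ∃ n', n = n' + 1 := ⟨n - 1, by omega⟩
  rcases Nat.eq_zero_or_pos n with rfl | h
  · exact Uq_11 j
  · exact Uq_one n h

theorem Uq_n2 (j n : ℕ) (hn : 1 ≤ n) : Uq j ({n + 1} + {2}) := by
  have h := Uq_inf (k := j) (M := {n} + {1}) (by simp; omega) (by simp) (Uq_n1 _ n hn)
  rw [Multiset.map_add, Multiset.map_singleton, Multiset.map_singleton] at h
  exact h

theorem Rd_B {n m : ℕ} {p : Cyc k} (hn : 1 ≤ n) (h : contc p = {n + 2} + {3} + replicate m 1)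
    {u : OddHC.X (n + 3)} (hu : cont u.1 = {n + 1} + {2}) :
    Rd p = ⟨n + 3, cyc u⟩ ∧ (contc p).count 1 = m := by
  have e : contc p = ({n + 1} + {2} : Multiset ℕ).map (· + 1) + replicate m 1 := by
    rw [h, Multiset.map_add, Multiset.map_singleton, Multiset.map_singleton]
  obtain ⟨g1, g2, g3⟩ := Rd_cont (by simp) e
  obtain ⟨⟨i, U⟩, eU⟩ : ∃ d, d = Rd p := ⟨_, rfl⟩
  rw [← eU] at g1 g2 ⊢
  change contc U = _ at g1
  change i = _ at g2
  have g2' : i = n + 3 := g2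
  subst g2'
  rw [Uq_n2 _ n hn U (cyc u) g1 (by rw [contc_cyc, hu])]
  exact ⟨rfl, g3⟩

theorem uq_B {n m : ℕ} {p : Cyc k} (hn : 1 ≤ n) (h : contc p = {n + 2} + {3} + replicate m 1) :
    Uq (Rd p).1 (contc (Rd p).2) ∧ (Rd p).1 = n + 3 ∧ (contc p).count 1 = m := by
  have e : contc p = ({n + 1} + {2} : Multiset ℕ).map (· + 1) + replicate m 1 := by
    rw [h, Multiset.map_add, Multiset.map_singleton, Multiset.map_singleton]
  obtain ⟨g1, g2, g3⟩ := Rd_cont (by simp) e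
  refine ⟨?_, g2, g3⟩
  rw [g1]
  exact Uq_n2 _ n hn

theorem rotU_B {n : ℕ} (hn : 1 ≤ n) {u : OddHC.X (n + 3)} (hu : cont u.1 = {n + 1} + {2}) : RotU u := by
  obtain ⟨n, rfl⟩ : ∃ n', n = n' + 1 := ⟨n - 1, by omega⟩
  exact rotU_two (n := n) u hu

variable {p0 : Cyc k} {n m : ℕ} (hn : 1 ≤ n)
  (h0 : contc p0 = {n + 2} + {3} + replicate m 1)
  (hEnv : ClsEnv AE Pp Pw (cl p0)) (X : Set (Cyc k))

include hn h0 hEnv

theorem B_even (hev : ¬ oddF (n + 3) m)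
    (hX : ∀ p, contc p = {n + 2} + {3} + replicate m 1 → p ∉ X) :
    ∃ Gp Gw, ClsOK AE (cl p0) X Gp Gw Pp Pw := by
  obtain ⟨g1, g2, g3⟩ := uq_B hn h0
  refine fam_even hEnv X g1 (by rw [g2, g3]; exact hev) fun p hp => hX p ?_
  rw [← h0]
  exact contc_of_Rd (by rw [hp]) (by rw [hp])

theorem B_one (hod : oddF (n + 3) m) {q : Cyc k} (hq : contc q = {n + 2} + {3} + replicate m 1)
    (h2 : m = 2 → IsTwo q)
    (hX : ∀ p, contc p = {n + 2} + {3} + replicate m 1 → (p ∈ X ↔ p = q)) :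
    ∃ Gp Gw, ClsOK AE (cl p0) X Gp Gw Pp Pw := by
  obtain ⟨g1, g2, g3⟩ := uq_B hn h0
  have hR : Rd q = Rd p0 := by
    have e : ({n + 2} + {3} : Multiset ℕ) = ({n + 1} + {2} : Multiset ℕ).map (· + 1) := by
      rw [Multiset.map_add, Multiset.map_singleton, Multiset.map_singleton]
    exact Rd_of_Uq (by simp) (Uq_n2 _ n hn) (by rw [hq, e]) (by rw [h0, e])
  refine fam_one hEnv X g1 (by rw [g2, g3]; exact hod) hR (by rw [g3]; exact h2) fun p hp => hX p ?_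
  rw [← h0]
  exact contc_of_Rd (by rw [hp]) (by rw [hp])

theorem B_two (hm : 3 ≤ m) (hev : ¬ oddF (n + 3) m) {u u' : OddHC.X (n + 3)} {p y : OddHC.X k}
    (hu : cont u.1 = {n + 1} + {2}) (hu' : cont u'.1 = {n + 1} + {2}) (hp : Pile p u' m) (hy : Near y u m)
    (hX : ∀ c, contc c = {n + 2} + {3} + replicate m 1 → (c ∈ X ↔ c = cyc p ∨ c = cyc y)) :
    (∃ Gp Gw, ClsOK AE (cl p0) X Gp Gw Pp Pw) ∧ cyc p ≠ cyc y := by
  obtain ⟨g1, g2, g3⟩ := uq_B hn h0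
  have hR := Rd_B hn h0 hu
  have hcu : cyc u' = cyc u := Uq_n2 _ n hn _ _ (by rw [contc_cyc, hu']) (by rw [contc_cyc, hu])
  have hU : RotU u := rotU_B hn hu
  refine ⟨?_, pn_ne (by omega) hU hcu (by omega) hp hy⟩
  refine fam_env hEnv X g1 (D := {cyc p, cyc y}) ?_ fun c hc => ?_
  · rw [hR.1]
    exact rem_pn (by omega) hU hcu hm hp hy hev
  · rw [hX c (by rw [← h0]; exact contc_of_Rd (by rw [hc]) (by rw [hc]))]
    exact Iff.rfl

omit hn h0 hEnv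

/-! ### the words of `B` -/

/-- `[3] ([s-1] ()^m)` is a pile -/
theorem pile_B {n m : ℕ} (hn : 1 ≤ n) {w : OddHC.X k}
    (hw : w.1 = app (H1.ch 3) (app (H1.ch (n + 1)) (lp m) △ .nil)) :
    ∃ u : OddHC.X (n + 3), cont u.1 = {n + 1} + {2} ∧ Pile w u m := by
  obtain ⟨n', rfl⟩ : ∃ n', n = n' + 1 := ⟨n - 1, by omega⟩
  have e1 : cont (app (pw 2) (pw (n' + 1) △ .nil)) = {n' + 1 + 1} + {2} := by
    rw [cont_app]
    change cont (pw 2) + cont (pw (n' + 2)) = _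
    rw [← ch_eq, ← ch_eq, c_ch (by omega), c_ch (by omega), add_comm]
  have hs : (app (pw 2) (pw (n' + 1) △ .nil)).numNodes = n' + 1 + 3 := by
    rw [← cont_sum, e1]
    rfl
  refine ⟨⟨app (pw 2) (pw (n' + 1) △ .nil), mem_treesOfNumNodesEq.2 hs⟩, e1, ?_⟩
  refine pile_pos (a := 2 * 2 + 2 * (n' + 1) + 1) (b := 1) (by omega) ?_
  rw [hw]
  have h1 := ins_end2 (pw 2) (pw (n' + 1)) m 0
  rw [pw_num, pw_num] at h1
  have e4 : List.replicate (2 * 2 + 2 * (n' + 1) + 1) 0 ++ m :: List.replicate 1 0 =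
      List.replicate (2 * 2 + 2 * (n' + 1) + 1) 0 ++ [m, 0] := rfl
  rw [e4]
  change _ = ins (app (pw 2) (pw (n' + 1) △ .nil)) _
  rw [h1, inf1_eq (by exact fun h => by cases h), inf_pw, inf_pw]
  rfl

/-- `[s] ([2] ()) ()^(m-1)` is a near pile -/
theorem near_B {n m : ℕ} (hn : 1 ≤ n) {w : OddHC.X k}
    (hw : w.1 = app (H1.ch (n + 2)) (app (H1.ch 2) (lp 1) △ lp (m - 1))) :
    ∃ u : OddHC.X (n + 3), cont u.1 = {n + 1} + {2} ∧ Near w u m := by
  have e1 : cont (app (pw (n + 1)) (pw 1 △ .nil)) = {n + 1} + {2} := by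
    rw [cont_app]
    change cont (pw (n + 1)) + cont (pw 2) = _
    rw [← ch_eq, ← ch_eq, c_ch (by omega), c_ch (by omega)]
  have hs : (app (pw (n + 1)) (pw 1 △ .nil)).numNodes = n + 3 := by
    rw [← cont_sum, e1]
    rfl
  refine ⟨⟨app (pw (n + 1)) (pw 1 △ .nil), mem_treesOfNumNodesEq.2 hs⟩, e1, ?_⟩
  obtain ⟨x, hx⟩ := near_neg (u := ⟨app (pw (n + 1)) (pw 1 △ .nil), mem_treesOfNumNodesEq.2 hs⟩) (w := w) (m := m)
    (a := 2 * (n + 1) + 2 * 1 + 1) (b := 0) (by omega) (by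
      rw [hw]
      have h1 := ins_end2 (pw (n + 1)) (pw 1) 1 (m - 1)
      rw [pw_num, pw_num] at h1
      have e4 : List.replicate (2 * (n + 1) + 2 * 1 + 1) 0 ++ 1 :: (m - 1) :: List.replicate 0 0 =
          List.replicate (2 * (n + 1) + 2 * 1 + 1) 0 ++ [1, m - 1] := by
        simp
      rw [e4]
      change _ = ins (app (pw (n + 1)) (pw 1 △ .nil)) _
      rw [h1, inf1_eq (by exact fun h => by cases h), inf_pw, inf_pw])
  exact ⟨x, x - 1, Or.inr rfl, hx⟩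

end S5

end Pool.OddHC
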