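import Pool.Agent.Work.MP_8f87b2_h20.S5Fam

/-!
# Section 5: the classes `(s, 2, 1^m)` and `(s, 3, 1^m)`
-/

set_option autoImplicit false

namespace Pool.OddHC

open Finset Equiv BinaryTree Multiset Ring1 Pool.Agent.Work.MP_8f87b2_co

namespace S5

variable {k j : ℕ} {τp τw : Type} {AE : Cyc k → Cyc k → Prop}
  {Pp : τp → Set (Cyc k) → DG k → Prop} {Pw : τw → Set (Cyc k) → DG k → Prop}

/-! ### positions -/

/-- `n` beads at the gap `a`, `n'` beads at the gap `a + 1` -/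
theorem near_of_list {u : OddHC.X j} {w : OddHC.X k} {a b n n' : ℕ} (h : a + b + 2 = 2 * j + 1)
    (hw : w.1 = ins u.1 (List.replicate a 0 ++ n :: n' :: List.replicate b 0)) :
    w.1 = ins u.1 (lf fun z : ZMod (2 * j + 1) => (if z = ((a : ℕ) : ZMod (2 * j + 1)) then n else 0) +
      if z = ((a + 1 : ℕ) : ZMod (2 * j + 1)) then n' else 0) := by
  rw [hw, lf2 h]

/-- near pile `(m - 1, 1)` -/
theorem near_pos {u : OddHC.X j} {w : OddHC.X k} {a b m : ℕ} (h : a + b + 2 = 2 * j + 1)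
    (hw : w.1 = ins u.1 (List.replicate a 0 ++ (m - 1) :: 1 :: List.replicate b 0)) :
    ∃ x : ZMod (2 * j + 1), w.1 = ins u.1 (lf fun z : ZMod (2 * j + 1) => (if z = x then m - 1 else 0) +
      if z = x + 1 then 1 else 0) := by
  refine ⟨((a : ℕ) : ZMod (2 * j + 1)), ?_⟩
  rw [near_of_list h hw]
  push_cast
  rfl

/-- near pile `(1, m - 1)` -/
theorem near_neg {u : OddHC.X j} {w : OddHC.X k} {a b m : ℕ} (h : a + b + 2 = 2 * j + 1)
    (hw : w.1 = ins u.1 (List.replicate a 0 ++ 1 :: (m - 1) :: List.replicate b 0)) :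
    ∃ x : ZMod (2 * j + 1), w.1 = ins u.1 (lf fun z : ZMod (2 * j + 1) => (if z = x then m - 1 else 0) +
      if z = x - 1 then 1 else 0) := by
  refine ⟨((a + 1 : ℕ) : ZMod (2 * j + 1)), ?_⟩
  rw [near_of_list h hw]
  congr 2
  funext z
  have e : ((a + 1 : ℕ) : ZMod (2 * j + 1)) - 1 = ((a : ℕ) : ZMod (2 * j + 1)) := by push_cast; ring
  rw [e]
  exact add_comm _ _

/-- a pile at the gap `a` -/
theorem pile_pos {u : OddHC.X j} {w : OddHC.X k} {a b m : ℕ} (h : a + 1 + b = 2 * j + 1)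
    (hw : w.1 = ins u.1 (List.replicate a 0 ++ m :: List.replicate b 0)) :
    ∃ x : ZMod (2 * j + 1), w.1 = ins u.1 (lf fun z : ZMod (2 * j + 1) => if z = x then m else 0) :=
  ⟨((a : ℕ) : ZMod (2 * j + 1)), by rw [hw, pile_lf h]⟩

/-- a near pile -/
def Near (w : OddHC.X k) (u : OddHC.X j) (m : ℕ) : Prop :=
  ∃ x y : ZMod (2 * j + 1), (y = x + 1 ∨ y = x - 1) ∧
    w.1 = ins u.1 (lf fun z : ZMod (2 * j + 1) => (if z = x then m - 1 else 0) + if z = y then 1 else 0)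

def Pile (w : OddHC.X k) (u : OddHC.X j) (m : ℕ) : Prop :=
  ∃ x : ZMod (2 * j + 1), w.1 = ins u.1 (lf fun z : ZMod (2 * j + 1) => if z = x then m else 0)

theorem rem_pn (hj : 1 ≤ j) {u u' : OddHC.X j} (hU : RotU u) (hu : cyc u' = cyc u) {m : ℕ} (hm : 3 ≤ m)
    {p q : OddHC.X k} (hp : Pile p u' m) (hq : Near q u m) (hev : ¬ oddF j m) :
    RemOK ⟨j, cyc u⟩ {cyc p, cyc q} := by
  obtain ⟨x', hp⟩ := hp
  obtain ⟨x, y, hy, hq⟩ := hq
  exact rem_py hj hU hu hm hy hp hq hev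

theorem pn_ne (hj : 1 ≤ j) {u u' : OddHC.X j} (hU : RotU u) (hu : cyc u' = cyc u) {m : ℕ} (hm : 2 ≤ m)
    {p q : OddHC.X k} (hp : Pile p u' m) (hq : Near q u m) : cyc p ≠ cyc q := by
  obtain ⟨x', hp⟩ := hp
  obtain ⟨x, y, hy, hq⟩ := hq
  obtain ⟨p', h1, h2⟩ := pile_at hU hu hp x
  rw [← h2]
  refine pile_ne_near hm ?_ h1 hq
  have : Fact (1 < 2 * j + 1) := ⟨by omega⟩
  rcases hy with rfl | rfl
  · intro h
    exact one_ne_zero (show (1 : ZMod (2 * j + 1)) = 0 by linear_combination h)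
  · intro h
    exact one_ne_zero (show (1 : ZMod (2 * j + 1)) = 0 by linear_combination -h)

/-! ### the class `(s, 2, 1^m)` -/

theorem Uq_a1 (n : ℕ) (hn : 1 ≤ n) : Uq (n + 2) ({n + 1} + {1}) := Uq_one n hn

theorem Rd_a1 {n : ℕ} (hn : 1 ≤ n) {U : Cyc j} (h : contc U = {n + 1} + {1}) : Rd U = ⟨n, cyc (pwX n)⟩ := by
  have e : contc U = ({n} : Multiset ℕ).map (· + 1) + replicate 1 1 := by
    rw [h, Multiset.map_singleton, Multiset.replicate_one]
  obtain ⟨g1, g2, g3⟩ := Rd_cont (by simp; omega) e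
  obtain ⟨⟨i, V⟩, eV⟩ : ∃ d, d = Rd U := ⟨_, rfl⟩
  rw [← eV] at g1 g2 ⊢
  change contc V = _ at g1
  change i = _ at g2
  rw [Multiset.sum_singleton] at g2
  subst g2
  rw [Uq_ch i hn V _ g1 (cont_pwX hn)]

theorem Rd_C1 {n m : ℕ} {p : Cyc k} (hn : 1 ≤ n) (h : contc p = {n + 2} + replicate 1 2 + replicate m 1)
    {u : OddHC.X (n + 2)} (hu : cont u.1 = {n + 1} + {1}) :
    Rd p = ⟨n + 2, cyc u⟩ ∧ (contc p).count 1 = m := by
  obtain ⟨g1, g2, g3, g4, g5⟩ := Rd_Ca hn h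
  obtain ⟨⟨i, U⟩, eU⟩ : ∃ d, d = Rd p := ⟨_, rfl⟩
  rw [← eU] at g1 g2 ⊢
  change i = _ at g1
  subst g1
  change contc U = _ at g2
  have := Uq_a1 n hn U (cyc u) (by rw [g2, Multiset.replicate_one]) (by rw [contc_cyc, hu])
  rw [this]
  exact ⟨rfl, g3⟩

theorem uq_C1 {n m : ℕ} {p : Cyc k} (hn : 1 ≤ n) (h : contc p = {n + 2} + replicate 1 2 + replicate m 1) :
    Uq (Rd p).1 (contc (Rd p).2) ∧ (Rd p).1 = n + 2 ∧ (contc p).count 1 = m := by
  obtain ⟨g1, g2, g3, g4, g5⟩ := Rd_Ca hn h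
  refine ⟨?_, g1, g3⟩
  rw [g2, g1, Multiset.replicate_one]
  exact Uq_a1 n hn

variable {p0 : Cyc k} {n m : ℕ} (hn : 1 ≤ n) (hm : 3 ≤ m)
  (h0 : contc p0 = {n + 2} + replicate 1 2 + replicate m 1)
  (hEnv : ClsEnv AE Pp Pw (cl p0)) (X : Set (Cyc k))

include hn h0 hEnv

theorem C1_even (hev : ¬ oddF (n + 2) m)
    (hX : ∀ p, contc p = {n + 2} + replicate 1 2 + replicate m 1 → p ∉ X) :
    ∃ Gp Gw, ClsOK AE (cl p0) X Gp Gw Pp Pw := by
  obtain ⟨g1, g2, g3⟩ := uq_C1 hn h0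
  refine fam_even hEnv X g1 (by rw [g2, g3]; exact hev) fun p hp => hX p ?_
  rw [← h0]
  exact contc_of_Rd (by rw [hp]) (by rw [hp])

include hm

theorem C1_one (hod : oddF (n + 2) m) {q : Cyc k} (hq : contc q = {n + 2} + replicate 1 2 + replicate m 1)
    (hX : ∀ p, contc p = {n + 2} + replicate 1 2 + replicate m 1 → (p ∈ X ↔ p = q)) :
    ∃ Gp Gw, ClsOK AE (cl p0) X Gp Gw Pp Pw := by
  obtain ⟨g1, g2, g3⟩ := uq_C1 hn h0
  have hR : Rd q = Rd p0 := by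
    have hU : Uq ({n + 1} + {1} : Multiset ℕ).sum ({n + 1} + {1}) := by
      rw [Multiset.sum_add, Multiset.sum_singleton, Multiset.sum_singleton]
      exact Uq_a1 n hn
    have e : ({n + 2} + replicate 1 2 : Multiset ℕ) = ({n + 1} + {1} : Multiset ℕ).map (· + 1) := by
      rw [Multiset.map_add, Multiset.map_singleton, Multiset.map_singleton, Multiset.replicate_one]
    exact Rd_of_Uq (by simp) hU (by rw [hq, e]) (by rw [h0, e])
  refine fam_one hEnv X g1 (by rw [g2, g3]; exact hod) hR (by rw [g3]; omega) fun p hp => hX p ?_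
  rw [← h0]
  exact contc_of_Rd (by rw [hp]) (by rw [hp])

theorem C1_two (hev : ¬ oddF (n + 2) m) {u u' : OddHC.X (n + 2)} {p y : OddHC.X k}
    (hu : cont u.1 = {n + 1} + {1}) (hu' : cont u'.1 = {n + 1} + {1}) (hp : Pile p u' m) (hy : Near y u m)
    (hX : ∀ c, contc c = {n + 2} + replicate 1 2 + replicate m 1 → (c ∈ X ↔ c = cyc p ∨ c = cyc y)) :
    (∃ Gp Gw, ClsOK AE (cl p0) X Gp Gw Pp Pw) ∧ cyc p ≠ cyc y := by
  obtain ⟨g1, g2, g3⟩ := uq_C1 hn h0
  have hR := Rd_C1 hn h0 hu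
  have hcu : cyc u' = cyc u := Uq_a1 n hn _ _ (by rw [contc_cyc, hu']) (by rw [contc_cyc, hu])
  have hU : RotU u := rotU_one hn (Rd_a1 hn (by rw [contc_cyc, hu]))
  refine ⟨?_, pn_ne (by omega) hU hcu (by omega) hp hy⟩
  refine fam_env hEnv X g1 (D := {cyc p, cyc y}) ?_ fun c hc => ?_
  · rw [hR.1]
    exact rem_pn (by omega) hU hcu hm hp hy hev
  · rw [hX c (by rw [← h0]; exact contc_of_Rd (by rw [hc]) (by rw [hc]))]
    exact Iff.rfl

omit hn h0 hEnv hm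

/-! ### the words of `C_1` -/

/-- `(()^(m+1)) [s]` is a pile -/
theorem pile_C1 {n m : ℕ} (hn : 1 ≤ n) {w : OddHC.X k} (hw : w.1 = lp (m + 1) △ H1.ch (n + 2)) :
    ∃ u : OddHC.X (n + 2), cont u.1 = {n + 1} + {1} ∧ Pile w u m := by
  have e1 : cont (app (lp 1) (pw (n + 1))) = {n + 1} + {1} := by
    rw [cont_app, c_lp, ← ch_eq, c_ch (by omega), Multiset.replicate_one, add_comm]
  have hs : (app (lp 1) (pw (n + 1))).numNodes = n + 2 := by
    rw [← cont_sum, e1]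
    rfl
  refine ⟨⟨app (lp 1) (pw (n + 1)), mem_treesOfNumNodesEq.2 hs⟩, e1, ?_⟩
  refine pile_pos (a := 1) (b := 2 * n + 3) (by omega) ?_
  rw [hw]
  have e2 : List.replicate 1 0 ++ m :: List.replicate (2 * n + 3) 0 = 0 :: m :: List.replicate (2 * n + 3) 0 := rfl
  rw [e2]
  change _ = ins (.nil △ pw (n + 1)) _
  rw [ins, List.headD_cons, List.tail_cons]
  have e3 : (BinaryTree.nil : BinaryTree Unit).numNodes = 0 := rfl
  rw [e3]
  change _ = lv 0 (ins .nil (bump .nil [m]) △ ins (pw (n + 1)) (List.replicate (2 * n + 3) 0))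
  have e4 : ins (pw (n + 1)) (List.replicate (2 * n + 3) 0) = H1.ch (n + 2) := by
    rw [← inf_pw]
    unfold inf
    rw [pw_num]
    congr 2
  rw [e4]
  rfl

/-- `([s-1] ()^(m-1)) () [2]` is a near pile -/
theorem near_C1a {n m : ℕ} (hn : 1 ≤ n) {w : OddHC.X k}
    (hw : w.1 = app (app (H1.ch (n + 1)) (lp (m - 1)) △ .nil) (.nil △ H1.ch 2)) :
    ∃ u : OddHC.X (n + 2), cont u.1 = {n + 1} + {1} ∧ Near w u m := by
  have e1 : cont (app (pw (n + 1)) (lp 1)) = {n + 1} + {1} := by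
    rw [cont_app, c_lp, ← ch_eq, c_ch (by omega), Multiset.replicate_one]
  have hs : (app (pw (n + 1)) (lp 1)).numNodes = n + 2 := by
    rw [← cont_sum, e1]
    rfl
  refine ⟨⟨app (pw (n + 1)) (lp 1), mem_treesOfNumNodesEq.2 hs⟩, e1, ?_⟩
  obtain ⟨x, hx⟩ := near_pos (u := ⟨app (pw (n + 1)) (lp 1), mem_treesOfNumNodesEq.2 hs⟩) (w := w) (m := m)
    (a := 2 * n + 1) (b := 2) (by omega) (by
      rw [hw]
      obtain ⟨n', rfl⟩ : ∃ n', n = n' + 1 := ⟨n - 1, by omega⟩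
      have h1 := ins_end2 .nil (pw (n' + 1)) (m - 1) 1
      have e2 : (pw (n' + 1)).numNodes = n' + 1 := pw_num _
      have e3 : (BinaryTree.nil : BinaryTree Unit).numNodes = 0 := rfl
      rw [e2, e3] at h1
      have h2 := ins_app (lp 1) [0, 0] (pw (n' + 1 + 1))
        (List.replicate (2 * 0 + 2 * (n' + 1) + 1) 0 ++ [m - 1, 1]) (by
          rw [List.length_append, List.length_replicate, pw_num]
          change _ + 2 = _
          omega)
      change _ = ins (app (pw (n' + 1 + 1)) (lp 1)) _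
      have e4 : List.replicate (2 * (n' + 1) + 1) 0 ++ (m - 1) :: 1 :: List.replicate 2 0 =
          (List.replicate (2 * 0 + 2 * (n' + 1) + 1) 0 ++ [m - 1, 1]) ++ [0, 0] := by
        simp [List.replicate]
      rw [e4, h2]
      change _ = app (ins (app .nil (pw (n' + 1) △ .nil)) _) _
      rw [h1, inf_nil, inf1_eq (by exact fun h => by cases h), inf_pw]
      rfl)
  exact ⟨x, x + 1, Or.inl rfl, hx⟩

/-- `([s-1] (()) ()) ()^(m-1)` is a near pile -/
theorem near_C1b {n m : ℕ} (hn : 1 ≤ n) {w : OddHC.X k}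
    (hw : w.1 = app (H1.ch (n + 1)) (app (H1.ch 2) (lp 1)) △ lp (m - 1)) :
    ∃ u : OddHC.X (n + 2), cont u.1 = {n + 1} + {1} ∧ Near w u m := by
  obtain ⟨n', rfl⟩ : ∃ n', n = n' + 1 := ⟨n - 1, by omega⟩
  have e0 : cont (app (pw (n' + 1)) (lp 1)) = {n' + 1} + {1} := by
    rw [cont_app, c_lp, ← ch_eq, c_ch (by omega), Multiset.replicate_one]
  have e1 : cont (app (pw (n' + 1)) (lp 1) △ .nil) = {n' + 1 + 1} + {1} := by
    rw [cont_node, e0, cont_nil, add_zero]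
    exact raise_top (by simp)
  have hs0 : (app (pw (n' + 1)) (lp 1)).numNodes = n' + 2 := by
    rw [← cont_sum, e0]
    rfl
  have hs : (app (pw (n' + 1)) (lp 1) △ .nil).numNodes = n' + 1 + 2 := by
    rw [← cont_sum, e1]
    rfl
  refine ⟨⟨app (pw (n' + 1)) (lp 1) △ .nil, mem_treesOfNumNodesEq.2 hs⟩, e1, ?_⟩
  obtain ⟨x, hx⟩ := near_neg (u := ⟨app (pw (n' + 1)) (lp 1) △ .nil, mem_treesOfNumNodesEq.2 hs⟩) (w := w) (m := m)
    (a := 2 * (n' + 2) + 1) (b := 0) (by omega) (by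
      rw [hw]
      have h1 := ins_end2 .nil (app (pw (n' + 1)) (lp 1)) 1 (m - 1)
      have e3 : (BinaryTree.nil : BinaryTree Unit).numNodes = 0 := rfl
      rw [hs0, e3] at h1
      have e4 : List.replicate (2 * (n' + 2) + 1) 0 ++ 1 :: (m - 1) :: List.replicate 0 0 =
          List.replicate (2 * 0 + 2 * (n' + 2) + 1) 0 ++ [1, m - 1] := by
        simp
      rw [e4]
      change _ = ins (app .nil (app (pw (n' + 1)) (lp 1) △ .nil)) _
      rw [h1, inf_nil, inf1_eq (by exact fun h => by cases h), inf_app, inf_pw]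
      change _ = (app (app (H1.ch (n' + 2)) (H1.ch 2)) (lp 1)) △ lp (m - 1)
      rw [app_assoc'])
  exact ⟨x, x - 1, Or.inr rfl, hx⟩

end S5

end Pool.OddHC
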