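import Pool.Agent.Work.MP_8f87b2_h20.NearT2
import Pool.Agent.Work.MP_8f87b2_h20.S5Reg
import Pool.Agent.Work.MP_8f87b2_h42.TopJ
import Pool.Agent.Work.MP_8f87b2_fin.Jvk

/-!
# Section 5: class statements, the classes `X_a` with `m = 0`
-/

set_option autoImplicit false

namespace Pool.OddHC

open Finset Equiv BinaryTree Multiset Ring1 Pool.Agent.Work.MP_8f87b2_co Pool.OddHop

variable {i j j2 k : ℕ} {τ : Type} {P : τ → Set (Cyc k) → DG k → Prop}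

/-- the class of content `μ` with exactly the T-cycles of `D` used by links -/
def CD (P : τ → Set (Cyc k) → DG k → Prop) (μ : Multiset ℕ) (D : Set (Cyc k)) : Prop :=
  ∀ (p0 : Cyc k) (X : Set (Cyc k)), contc p0 = μ → (∀ c, contc c = μ → (c ∈ X ↔ c ∈ D)) →
    ∃ Gp Gw, ClsOK (AEP P) (cl p0) X Gp Gw P P

theorem CD.congr {μ : Multiset ℕ} {D D' : Set (Cyc k)} (h : CD P μ D) (hD : ∀ c, contc c = μ → (c ∈ D ↔ c ∈ D')) :
    CD P μ D' := fun p0 X h0 hX => h p0 X h0 fun c hc => (hX c hc).trans (hD c hc).symm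

/-- a set of links -/
theorem reg_gen {K : Set (RD × Multiset ℕ)} {Xs : Set (Set (Cyc k))}
    (h1 : ∀ F ∈ Xs, F.Nonempty ∧ Typd P P F ∧ ∀ c ∈ F, cl c ∈ K)
    (h2 : ∀ F ∈ Xs, ∀ F' ∈ Xs, ∀ c, c ∈ F → c ∈ F' → F = F')
    (h3 : ∀ p0 : Cyc k, cl p0 ∈ K → CD P (contc p0) (inG Xs)) : ClsReg P K :=
  ⟨Xs, h1, h2, fun p0 hp0 => h3 p0 hp0 p0 (inG Xs) rfl fun _ _ => Iff.rfl⟩

theorem reg0 {K : Set (RD × Multiset ℕ)} (h : ∀ p0 : Cyc k, cl p0 ∈ K → CD P (contc p0) ∅) : ClsReg P K :=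
  reg_none fun p0 hp0 => h p0 hp0 p0 ∅ rfl fun _ _ => Iff.rfl

theorem reg1 {K : Set (RD × Multiset ℕ)} {F : Set (Cyc k)} (hne : F.Nonempty) (hty : Typd P P F)
    (hcl : ∀ c ∈ F, cl c ∈ K) (h : ∀ p0 : Cyc k, cl p0 ∈ K → CD P (contc p0) F) : ClsReg P K :=
  reg_one hne hty hcl fun p0 hp0 => h p0 hp0 p0 F rfl fun _ _ => Iff.rfl

theorem reg2 {K : Set (RD × Multiset ℕ)} {F F' : Set (Cyc k)} (hne : F.Nonempty) (hty : Typd P P F)
    (hcl : ∀ c ∈ F, cl c ∈ K) (hne' : F'.Nonempty) (hty' : Typd P P F')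
    (hcl' : ∀ c ∈ F', cl c ∈ K) (hd : ∀ c ∈ F, c ∉ F')
    (h : ∀ p0 : Cyc k, cl p0 ∈ K → CD P (contc p0) (F ∪ F')) : ClsReg P K :=
  reg_two hne hty hcl hne' hty' hcl' hd fun p0 hp0 => h p0 hp0 p0 _ rfl fun _ _ => Iff.rfl

/-! ### `m = 0`, two members left out -/

/-- **the class `(V; a, 0)` with the members over `Ua`, `Ub` left out** -/
theorem jv_two {V : Cyc j2} {a : ℕ} (hk : j2 + 2 * pkc V + 2 * a = k) {Ua Ub : Cyc j} (hj : j = j2 + pkc V + a)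
    (hUa : Rd Ua = ⟨j2, V⟩) (hrem : RemOK ⟨j2, V⟩ {Ua, Ub})
    (jv : ∀ (j : ℕ) (U U' : Cyc j), Rd U = ⟨j2, V⟩ → Rd U' = ⟨j2, V⟩ → j = j2 + pkc V + a → U ≠ U' →
      HopC U U' → ∃ p q : Cyc k, Rd p = ⟨j, U⟩ ∧ Rd q = ⟨j, U'⟩ ∧ Typd P P {p, q}) {Y : Set (Cyc k)}
    (hY : ∀ c, cl c ∈ vcl k V a → (c ∈ Y ↔ Rd c = ⟨j, Ua⟩ ∨ Rd c = ⟨j, Ub⟩)) : JVC P V a Y := by
  intro p0 Xs hp0 hX
  obtain ⟨U1, a1, a2, a3, a4, a5⟩ := vcl_data (j := j) (m := 0) (by omega) hp0 hj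
  obtain ⟨I, hI⟩ := hrem
  rw [← a2] at hI
  have hc0 : ∀ (p : Cyc k) (U : Cyc j), Rd p = ⟨j, U⟩ → Rd U = Rd U1 → (contc p).count 1 = 0 := by
    intro p U hp hU
    exact count_class (m := 0) a1 (by omega) hp hU
  have hXs : ∀ c (U : Cyc j), Rd c = ⟨j, U⟩ → Rd U = Rd U1 → (c ∈ Xs ↔ U = Ua ∨ U = Ub) := by
    intro c U hc hU
    have h1 : cl c = cl p0 := cl_same a1 hc hU
    rw [hX c h1, hY c (by rw [h1]; exact hp0), hc]
    constructor
    · rintro (h | h)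
      · exact Or.inl (eq_of_heq (Sigma.mk.inj_iff.1 h).2)
      · exact Or.inr (eq_of_heq (Sigma.mk.inj_iff.1 h).2)
    · rintro (rfl | rfl)
      · exact Or.inl rfl
      · exact Or.inr rfl
  have hmv : ∀ U, Rd U = Rd U1 → I U ≠ U → ¬ (U = Ua ∨ U = Ub) := fun U hU hne h => hne ((hI U hU).2.2.2.2 h)
  refine cls_of_inv' a1 Xs I (fun U hU => ⟨(hI U hU).1, (hI U hU).2.1⟩) ?_ ?_
  · intro U hU hne
    obtain ⟨e1, e2, e3, e4⟩ := hI U hU
    have hne' : I (I U) ≠ I U := by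
      rw [e2]
      exact fun h => hne h.symm
    have hhop : HopC U (I U) := by
      rcases e3 with e3 | e3
      · exact absurd e3 hne
      · exact e3
    obtain ⟨p, q, hp, hq, hty⟩ := jv j U (I U) (hU.trans a2) (e1.trans a2) hj (fun h => hne h.symm) hhop
    refine Or.inr ⟨p, q, hp, hq, fun h => hmv U hU hne ((hXs p U hp hU).1 h),
      fun h => hmv (I U) e1 hne' ((hXs q _ hq e1).1 h), hty, ?_, ?_⟩
    · apply remA_all
      intro c hc
      exact Or.inl (fam_zero (hc.trans hp.symm) (hc0 c U hc hU))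
    · apply remA_all
      intro c hc
      exact Or.inl (fam_zero (hc.trans hq.symm) (hc0 c _ hc e1))
  · intro U hU hf
    have h3 : U = Ua ∨ U = Ub := (hI U hU).2.2.2.1 hf
    refine ⟨∅, fun F h => absurd h (Set.notMem_empty _), fun F h => absurd h (Set.notMem_empty _), ?_⟩
    rw [inG_empty', Set.empty_union]
    apply remA_all
    intro c hc
    exact (hXs c U hc hU).2 h3

namespace S5

variable {n a m : ℕ} {p : Cyc k}

theorem pkc_V (hn : 1 ≤ n) : pkc (cyc (vX n)) = 2 := by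
  unfold pkc
  rw [contc_cyc, c_vX hn, Multiset.card_add, Multiset.card_singleton, Multiset.card_singleton]

theorem vclX (hn : 1 ≤ n) (hk : n + 5 + 2 * a + m = k) : cl p ∈ vcl k (cyc (vX n)) a ↔ contc p = cX n a m := by
  have h2 := pkc_V hn
  constructor
  · intro h
    obtain ⟨U, g1, g2, g3, g4, g5⟩ := vcl_data (j := n + 3 + a) (m := m) (by omega) h (by omega)
    have e1 := contc_eq U
    have e2 := contc_eq p
    rw [g2] at e1
    rw [g1] at e2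
    change contc U = (contc (cyc (vX n))).map (· + 1) + _ at e1
    change contc p = (contc U).map (· + 1) + _ at e2
    have hc : (contc p).count 1 = m := by
      have h1 := Rd_size p
      rw [g1] at h1
      change n + 3 + a + pkc U + _ = k at h1
      omega
    rw [contc_cyc, c_vX hn, g3] at e1
    rw [e1, hc] at e2
    rw [e2]
    unfold cX
    rw [Multiset.map_add, Multiset.map_add, Multiset.map_add, Multiset.map_singleton, Multiset.map_singleton,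
      Multiset.map_singleton, Multiset.map_singleton, Multiset.map_replicate]
  · intro h
    obtain ⟨U, g1, g2, -⟩ := Rd_X hn h
    exact (vcl_iff g1 g2).2 (by omega)

theorem CD_of_JVC (hn : 1 ≤ n) (hk : n + 5 + 2 * a = k) {Y : Set (Cyc k)} (h : JVC P (cyc (vX n)) a Y) :
    CD P (cX n a 0) Y := by
  intro p0 X h0 hX
  refine h p0 X ((vclX hn (m := 0) (by omega)).2 h0) fun c hc => hX c ?_
  rw [← h0]
  exact congrArg Prod.snd hc

/-- the hops of `F(V', a)` have a type, `m = 0` -/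
def JVH (P : τ → Set (Cyc k) → DG k → Prop) (n a : ℕ) : Prop :=
  ∀ (j : ℕ) (U U' : Cyc j), Rd U = ⟨n + 1, cyc (vX n)⟩ → Rd U' = ⟨n + 1, cyc (vX n)⟩ →
    j = n + 1 + pkc (cyc (vX n)) + a → U ≠ U' →
      HopC U U' → ∃ p q : Cyc k, Rd p = ⟨j, U⟩ ∧ Rd q = ⟨j, U'⟩ ∧ Typd P P {p, q}

theorem X0_plain (hn : 1 ≤ n) (ha : 1 ≤ a) (hk : n + 5 + 2 * a = k) (jv : JVH P n a) (hev : ¬ oddF (n + 1) a) :
    CD P (cX n a 0) ∅ :=
  CD_of_JVC hn hk (jv0_of_hops a ha (by rw [pkc_V hn]; omega) jv hev)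

/-- one guest over the pile -/
theorem X0_one (hn : 1 ≤ n) (ha : 1 ≤ a) (hk : n + 5 + 2 * a = k) (jv : JVH P n a) (hod : oddF (n + 1) a)
    {z : Cyc k} (hz : Rd z = ⟨n + 3 + a, cyc (uX n a)⟩) : CD P (cX n a 0) {z} := by
  obtain ⟨x, hx⟩ := uX_pile (n := n) (a := a) hn
  exact CD_of_JVC hn hk (jvk_of_hops a ha (by rw [pkc_V hn]; omega) jv (n + 3 + a) (vX n) x (uX n a) z rfl hx hz hod)

/-- two guests -/
theorem X0_two (hn : 1 ≤ n) (hk : n + 5 + 2 * a = k) (jv : JVH P n a) {Ua Ub : Cyc (n + 3 + a)}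
    (hUa : Rd Ua = ⟨n + 1, cyc (vX n)⟩) (hUb : Rd Ub = ⟨n + 1, cyc (vX n)⟩)
    (hrem : RemOK ⟨n + 1, cyc (vX n)⟩ {Ua, Ub}) {z g : Cyc k}
    (hz : Rd z = ⟨n + 3 + a, Ua⟩) (hg : Rd g = ⟨n + 3 + a, Ub⟩) : CD P (cX n a 0) {z, g} := by
  have h2 := pkc_V hn
  have hc0 : ∀ c : Cyc k, cl c ∈ vcl k (cyc (vX n)) a → (contc c).count 1 = 0 := by
    intro c hc
    rw [(vclX hn (m := 0) (by omega)).1 hc]
    unfold cX
    rw [Multiset.count_add, Multiset.count_add, Multiset.count_add, Multiset.count_singleton, Multiset.count_singleton,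
      Multiset.count_replicate, Multiset.count_replicate]
    simp
  have hcl : ∀ {c : Cyc k} {U : Cyc (n + 3 + a)}, Rd c = ⟨n + 3 + a, U⟩ → Rd U = ⟨n + 1, cyc (vX n)⟩ →
      cl c ∈ vcl k (cyc (vX n)) a := fun h h' => (vcl_iff h h').2 (by omega)
  refine CD_of_JVC hn hk (jv_two (j := n + 3 + a) (by omega) (by omega) hUa hrem jv
    fun c hc => ?_)
  constructor
  · rintro (rfl | rfl)
    · exact Or.inl hz
    · exact Or.inr hg
  · rintro (h | h)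
    · exact Or.inl (fam_zero (h.trans hz.symm) (hc0 c hc))
    · exact Or.inr (fam_zero (h.trans hg.symm) (hc0 c hc))

end S5

end Pool.OddHC
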