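import Pool.Agent.Work.MP_8f87b2_h20.S5Cls

/-!
# Section 5: the classes `(s, 2^a, 1^m)`, `m ≥ 2` (L pairs)
-/

set_option autoImplicit false

namespace Pool.OddHC

open Finset Equiv BinaryTree Multiset Ring1 Pool.Agent.Work.MP_8f87b2_co

namespace S5

variable {k j : ℕ} {τp τw : Type} {Pp : τp → Set (Cyc k) → DG k → Prop} {Pw : τw → Set (Cyc k) → DG k → Prop}

theorem cont_pwX {n : ℕ} (hn : 1 ≤ n) : contc (cyc (pwX n)) = {n} := by
  rw [contc_cyc]
  change cont (pw n) = {n}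
  rw [← ch_eq]
  exact c_ch hn

/-- the reduced T-cycles of a T-cycle of the content `(n + 2, 2^a, 1^m)` -/
theorem Rd_Ca {n a m : ℕ} (hn : 1 ≤ n) {p : Cyc k} (h : contc p = {n + 2} + replicate a 2 + replicate m 1) :
    (Rd p).1 = n + 1 + a ∧ contc (Rd p).2 = {n + 1} + replicate a 1 ∧ (contc p).count 1 = m ∧
      Rd (Rd p).2 = ⟨n, cyc (pwX n)⟩ ∧ (contc (Rd p).2).count 1 = a := by
  have e : ({n + 2} : Multiset ℕ) + replicate a 2 = ({n + 1} + replicate a 1 : Multiset ℕ).map (· + 1) := by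
    rw [Multiset.map_add, Multiset.map_singleton, Multiset.map_replicate]
  have h0 : (0 : ℕ) ∉ ({n + 1} : Multiset ℕ) + replicate a 1 := by
    intro hx
    rcases Multiset.mem_add.1 hx with hx | hx
    · have := Multiset.mem_singleton.1 hx
      omega
    · have := Multiset.eq_of_mem_replicate hx
      omega
  rw [e] at h
  obtain ⟨h1, h2, h3⟩ := Rd_cont h0 h
  have h4 : (Rd p).1 = n + 1 + a := by
    rw [h2, Multiset.sum_add, Multiset.sum_singleton, Multiset.sum_replicate]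
    simp
  obtain ⟨⟨i, U⟩, eU⟩ : ∃ d, d = Rd p := ⟨_, rfl⟩
  rw [← eU] at h1 h4 ⊢
  change contc U = _ at h1
  change i = _ at h4
  refine ⟨h4, h1, h3, ?_, ?_⟩
  · change Rd U = _
    have hU : contc U = ({n} : Multiset ℕ).map (· + 1) + replicate a 1 := by
      rw [h1, Multiset.map_singleton]
    obtain ⟨g1, g2, g3⟩ := Rd_cont (by simp; omega) hU
    obtain ⟨⟨i', V⟩, eV⟩ : ∃ d, d = Rd U := ⟨_, rfl⟩
    rw [← eV] at g1 g2 ⊢
    change contc V = _ at g1
    change i' = _ at g2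
    rw [Multiset.sum_singleton] at g2
    subst g2
    rw [Uq_ch i' hn V _ g1 (cont_pwX hn)]
  · change (contc U).count 1 = a
    rw [h1, Multiset.count_add, Multiset.count_replicate_self, Multiset.count_singleton, if_neg (by omega)]
    omega

theorem cl_Ca {n a m : ℕ} (hn : 1 ≤ n) {p q : Cyc k} (h : contc p = {n + 2} + replicate a 2 + replicate m 1)
    (h' : contc q = {n + 2} + replicate a 2 + replicate m 1) : cl p = cl q := by
  unfold cl
  rw [(Rd_Ca hn h).2.2.2.1, (Rd_Ca hn h').2.2.2.1, h, h']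

theorem cls_Ca (hE : ∀ F g, TyE F g → ∃ t, Pp t F g) (hL : ∀ F g, TyL F g → ∃ t, Pp t F g)
    {n a m : ℕ} (hn : 1 ≤ n) (hm : 1 ≤ m) {p0 : Cyc k}
    (h0 : contc p0 = {n + 2} + replicate a 2 + replicate m 1) (X : Set (Cyc k))
    (D2 : Set (Cyc (n + 1 + a))) (h2 : RemOK ⟨n, cyc (pwX n)⟩ D2)
    (hX : ∀ p ∈ X, contc p = {n + 2} + replicate a 2 + replicate m 1 →
      ∀ U : Cyc (n + 1 + a), Rd p = ⟨_, U⟩ → U ∈ D2)
    (hW : ∀ U ∈ D2, Rd U = ⟨n, cyc (pwX n)⟩ → RemA (AEp Pp) ⟨_, U⟩ X) :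
    ∃ Gp Gw, ClsOK (AEp Pp) (cl p0) X Gp Gw Pp Pw := by
  have hcc : ∀ p : Cyc k, cl p = cl p0 → contc p = {n + 2} + replicate a 2 + replicate m 1 := by
    intro p hp
    have h3 : contc p = contc p0 := congrArg Prod.snd hp
    rw [h3, h0]
  refine cls_L hE hL (j := n + 1 + a) (m := m) (cyc (pwX n)) hm ?_ D2 h2
    (fun p hp hc => hX p hp (hcc p hc)) (fun _ => ∅) ?_
  · intro p hp
    obtain ⟨h1, -, h3, h4, -⟩ := Rd_Ca hn (hcc p hp)
    exact ⟨h1, h4, h3⟩
  · intro U hU hin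
    obtain ⟨p, hp, hpU⟩ := hin
    obtain ⟨h1, -, h3, h4, -⟩ := Rd_Ca hn (hcc p hp)
    have hRU : Rd U = ⟨n, cyc (pwX n)⟩ := by rw [hpU] at h4; exact h4
    refine ⟨fun F hF => absurd hF (Set.notMem_empty F), fun F hF => absurd hF (Set.notMem_empty F),
      fun F hF => absurd hF (Set.notMem_empty F), fun F hF => absurd hF (Set.notMem_empty F), ?_⟩
    refine RemA.congr' (hW U hU hRU) fun p _ => ?_
    constructor
    · exact fun h => Or.inr h
    · rintro (⟨F, hF, -⟩ | h)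
      · exact absurd hF (Set.notMem_empty F)
      · exact h

/-- the number of beads over a reduced T-cycle of the class -/
theorem cnt_Ca {n a m : ℕ} (hk : n + 2 + 2 * a + m = k) {U : Cyc (n + 1 + a)} (hU : Rd U = ⟨n, cyc (pwX n)⟩)
    (hn : 1 ≤ n) {p : Cyc k} (hp : Rd p = ⟨_, U⟩) : (contc p).count 1 = m := by
  have h1 := Rd_size p
  rw [hp] at h1
  change n + 1 + a + pkc U + _ = k at h1
  have h2 : pkc U = 1 + a := by
    have h3 := Rd_size U
    rw [hU] at h3
    change n + pkc (cyc (pwX n)) + _ = n + 1 + a at h3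
    have h4 := congrArg Multiset.card (contc_eq U)
    rw [Multiset.card_add, Multiset.card_map, Multiset.card_replicate, hU] at h4
    change pkc U = Multiset.card (contc (cyc (pwX n))) + _ at h4
    unfold pkc at h3
    rw [cont_pwX hn] at h3 h4
    rw [Multiset.card_singleton] at h3 h4
    omega
  omega

theorem sz_Ca {n a m : ℕ} {p : Cyc k} (h : contc p = {n + 2} + replicate a 2 + replicate m 1) :
    n + 2 + 2 * a + m = k := by
  have h1 := contc_sum p
  rw [h, Multiset.sum_add, Multiset.sum_add, Multiset.sum_singleton, Multiset.sum_replicate,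
    Multiset.sum_replicate] at h1
  simp at h1
  omega

/-- even families, nothing is removed -/
theorem Ca_even1 (hE : ∀ F g, TyE F g → ∃ t, Pp t F g) (hL : ∀ F g, TyL F g → ∃ t, Pp t F g)
    {n a m : ℕ} (hn : 1 ≤ n) (hm : 1 ≤ m) {p0 : Cyc k}
    (h0 : contc p0 = {n + 2} + replicate a 2 + replicate m 1) (X : Set (Cyc k))
    (hev : ¬ oddF (n + 1 + a) m) (hX : ∀ p, contc p = {n + 2} + replicate a 2 + replicate m 1 → p ∉ X) :
    ∃ Gp Gw, ClsOK (AEp Pp) (cl p0) X Gp Gw Pp Pw := by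
  refine cls_Ca hE hL hn hm h0 X Set.univ (remOK_all _ _ fun _ _ => Set.mem_univ _)
    (fun p _ _ U _ => Set.mem_univ U) ?_
  intro U _ hU
  refine RemA.congr' (remA_of hE (remOK_even ⟨_, U⟩ m (fun p hp => cnt_Ca (sz_Ca h0) hU hn hp) hev)) ?_
  intro p hp
  constructor
  · exact fun h => absurd h (Set.notMem_empty p)
  · intro h
    refine absurd h (hX p ?_)
    have h1 := contc_eq p
    rw [hp, cnt_Ca (sz_Ca h0) hU hn hp] at h1
    have h2 := contc_eq U
    rw [hU, cont_pwX hn] at h2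
    obtain ⟨g1, g2, g3, g4, g5⟩ := Rd_Ca hn h0
    rw [h1]
    change (contc U).map (· + 1) + _ = _
    have h3 : (contc U).count 1 = a := by
      have h4 := Rd_size U
      rw [hU] at h4
      change n + pkc (cyc (pwX n)) + _ = n + 1 + a at h4
      unfold pkc at h4
      rw [cont_pwX hn, Multiset.card_singleton] at h4
      omega
    rw [h2, h3]
    simp

/-- even second level, nothing is removed -/
theorem Ca_even2 (hE : ∀ F g, TyE F g → ∃ t, Pp t F g) (hL : ∀ F g, TyL F g → ∃ t, Pp t F g)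
    {n a m : ℕ} (hn : 1 ≤ n) (hm : 1 ≤ m) {p0 : Cyc k}
    (h0 : contc p0 = {n + 2} + replicate a 2 + replicate m 1) (X : Set (Cyc k))
    (hev : ¬ oddF n a) (hX : ∀ p, contc p = {n + 2} + replicate a 2 + replicate m 1 → p ∉ X) :
    ∃ Gp Gw, ClsOK (AEp Pp) (cl p0) X Gp Gw Pp Pw := by
  refine cls_Ca hE hL hn hm h0 X ∅ ?_ (fun p hp hc => absurd hp (hX p hc)) (fun U hU => absurd hU (Set.notMem_empty U))
  refine remOK_even ⟨n, cyc (pwX n)⟩ a (fun U hU => ?_) hev
  have h4 := Rd_size U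
  rw [hU] at h4
  change n + pkc (cyc (pwX n)) + _ = n + 1 + a at h4
  unfold pkc at h4
  rw [cont_pwX hn, Multiset.card_singleton] at h4
  omega

/-- one T-cycle is removed, both levels odd -/
theorem Ca_one (hE : ∀ F g, TyE F g → ∃ t, Pp t F g) (hL : ∀ F g, TyL F g → ∃ t, Pp t F g)
    {n a m : ℕ} (hn : 1 ≤ n) (hm : 1 ≤ m) {p0 : Cyc k}
    (h0 : contc p0 = {n + 2} + replicate a 2 + replicate m 1) (X : Set (Cyc k))
    (ho1 : oddF (n + 1 + a) m) (ho2 : oddF n a) {q : Cyc k}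
    (hq : contc q = {n + 2} + replicate a 2 + replicate m 1) (hm2 : m = 2 → IsTwo q)
    (ha2 : a = 2 → IsTwo (Rd q).2)
    (hX : ∀ p, contc p = {n + 2} + replicate a 2 + replicate m 1 → (p ∈ X ↔ p = q)) :
    ∃ Gp Gw, ClsOK (AEp Pp) (cl p0) X Gp Gw Pp Pw := by
  obtain ⟨g1, g2, g3, g4, g5⟩ := Rd_Ca hn hq
  obtain ⟨⟨i, U0⟩, eU⟩ : ∃ d, d = Rd q := ⟨_, rfl⟩
  rw [← eU] at g1 g2 g4 g5 ha2
  change i = _ at g1
  subst g1
  change contc U0 = _ at g2
  change Rd U0 = _ at g4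
  change (contc U0).count 1 = a at g5
  change a = 2 → IsTwo U0 at ha2
  refine cls_Ca hE hL hn hm h0 X {U0} ?_ ?_ ?_
  · refine (remOK_lo ⟨n, cyc (pwX n)⟩ U0 g4 fun h _ => ha2 (by rw [← g5]; exact h)).congr fun U _ => ?_
    constructor
    · exact fun h => h.1
    · exact fun h => ⟨h, by rw [g5]; exact ho2⟩
  · intro p hp hc U hU
    rw [(hX p hc).1 hp, ← eU] at hU
    exact (eq_of_heq (Sigma.mk.inj_iff.1 hU).2).symm
  · rintro U rfl hU
    refine RemA.congr' (remA_of hE (remOK_lo ⟨_, U⟩ q eU.symm fun h _ => hm2 (by rw [← g3]; exact h))) ?_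
    intro p hp
    have hc : contc p = {n + 2} + replicate a 2 + replicate m 1 := by
      rw [← hq]
      exact contc_of_Rd (by rw [hp, ← eU]) (by rw [hp, ← eU])
    rw [hX p hc]
    constructor
    · exact fun h => h.1
    · exact fun h => ⟨h, by rw [g3]; exact ho1⟩

end S5

end Pool.OddHC
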