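import Pool.Agent.Work.MP_8f87b2_h20.S5Uq

/-!
# Section 5: classes with one family, classes over one soliton
-/

set_option autoImplicit false

namespace Pool.OddHC

open Finset Equiv BinaryTree Multiset Ring1 Pool.Agent.Work.MP_8f87b2_co

namespace S5

variable {k j : ℕ} {τp τw : Type}

/-- the pairs inside the families -/
def AEp (Pp : τp → Set (Cyc k) → DG k → Prop) : Cyc k → Cyc k → Prop :=
  fun p q => p ≠ q ∧ ∃ t g, Pp t {p, q} g

variable {Pp : τp → Set (Cyc k) → DG k → Prop} {Pw : τw → Set (Cyc k) → DG k → Prop}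

theorem remA_of (hE : ∀ F g, TyE F g → ∃ t, Pp t F g) {d : RD} {D : Set (Cyc k)} (h : RemOK d D) :
    RemA (AEp Pp) d D := by
  refine h.remA.mono fun p q _ _ hne hpq => ⟨hne, ?_⟩
  obtain ⟨g, hg⟩ := tyE_of_hop hne hpq
  obtain ⟨t, ht⟩ := hE _ _ hg
  exact ⟨t, g, ht⟩

theorem RemA.congr' {A : Cyc k → Cyc k → Prop} {d : RD} {D D' : Set (Cyc k)} (h : RemA A d D)
    (hD : ∀ p, Rd p = d → (p ∈ D ↔ p ∈ D')) : RemA A d D' := by
  obtain ⟨ι, hι⟩ := h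
  refine ⟨ι, fun p hp => ?_⟩
  obtain ⟨h1, h2, h3, h4⟩ := hι p hp
  exact ⟨h1, h2, h3, by rw [h4, hD p hp]⟩

/-- a class with one family -/
theorem cls_fam (p0 : Cyc k) (X : Set (Cyc k)) (hq : Uq (Rd p0).1 (contc (Rd p0).2))
    (G : Set (Set (Cyc k))) (hG : ∀ F ∈ G, F.Nonempty ∧ Typd Pp Pw F ∧ ∀ c ∈ F, Rd c = Rd p0 ∧ c ∉ X)
    (hd : ∀ F ∈ G, ∀ F' ∈ G, ∀ c, c ∈ F → c ∈ F' → F = F')
    (hrem : RemA (AEp Pp) (Rd p0) (inG G ∪ X)) :
    ∃ Gp Gw, ClsOK (AEp Pp) (cl p0) X Gp Gw Pp Pw := by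
  refine cls_of_inv p0 X id (fun U hU => ⟨hU, rfl⟩) (fun U _ h => absurd rfl h) ?_
  intro U hU _
  have h1 : U = (Rd p0).2 := hq _ _ (contc_of_Rd (by rw [hU]) (by rw [hU])) rfl
  subst h1
  exact ⟨G, hG, hd, hrem⟩

theorem cls_fam0 (hE : ∀ F g, TyE F g → ∃ t, Pp t F g) (p0 : Cyc k) (X : Set (Cyc k))
    (hq : Uq (Rd p0).1 (contc (Rd p0).2)) {D : Set (Cyc k)} (hD : RemOK (Rd p0) D)
    (hX : ∀ p, Rd p = Rd p0 → (p ∈ X ↔ p ∈ D)) :
    ∃ Gp Gw, ClsOK (AEp Pp) (cl p0) X Gp Gw Pp Pw := by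
  refine cls_fam p0 X hq ∅ (fun F hF => absurd hF (Set.notMem_empty F)) (fun F hF => absurd hF (Set.notMem_empty F)) ?_
  refine RemA.congr' (remA_of hE hD) fun p hp => ?_
  rw [← hX p hp]
  constructor
  · exact fun h => Or.inr h
  · rintro (⟨F, hF, -⟩ | h)
    · exact absurd hF (Set.notMem_empty F)
    · exact h

/-- nothing is removed, even family -/
theorem cls_fam_even (hE : ∀ F g, TyE F g → ∃ t, Pp t F g) (p0 : Cyc k) (X : Set (Cyc k))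
    (hq : Uq (Rd p0).1 (contc (Rd p0).2)) (hev : ¬ oddF (Rd p0).1 ((contc p0).count 1))
    (hX : ∀ p, Rd p = Rd p0 → p ∉ X) :
    ∃ Gp Gw, ClsOK (AEp Pp) (cl p0) X Gp Gw Pp Pw := by
  refine cls_fam0 hE p0 X hq (D := ∅) (remOK_even (Rd p0) ((contc p0).count 1) (fun p hp => ?_) hev)
    fun p hp => ⟨fun h => absurd h (hX p hp), fun h => absurd h (Set.notMem_empty p)⟩
  rw [contc_of_Rd (p := p) (q := p0) (by rw [hp]) (by rw [hp])]

/-- one T-cycle is removed, odd family -/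
theorem cls_fam_one (hE : ∀ F g, TyE F g → ∃ t, Pp t F g) (p0 : Cyc k) (X : Set (Cyc k))
    (hq : Uq (Rd p0).1 (contc (Rd p0).2)) (hod : oddF (Rd p0).1 ((contc p0).count 1))
    {q : Cyc k} (hqR : Rd q = Rd p0) (h2 : (contc p0).count 1 = 2 → IsTwo q)
    (hX : ∀ p, Rd p = Rd p0 → (p ∈ X ↔ p = q)) :
    ∃ Gp Gw, ClsOK (AEp Pp) (cl p0) X Gp Gw Pp Pw := by
  have hcc : contc q = contc p0 := contc_of_Rd (by rw [hqR]) (by rw [hqR])
  refine cls_fam0 hE p0 X hq (D := {q}) ((remOK_lo (Rd p0) q hqR fun h _ => h2 (by rw [← hcc]; exact h)).congr ?_) hX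
  intro p _
  constructor
  · exact fun h => h.1
  · exact fun h => ⟨h, by rw [hcc]; exact hod⟩

end S5

end Pool.OddHC
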