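import Pool.Agent.Work.MP_8f87b2_h20.S5Link
import Pool.Agent.Work.MP_8f87b2_fin.R1b
import Pool.Agent.Work.MP_8f87b2_fin.Frame

/-!
# Section 5: the classes with one family, in the frame; the hooks `(s, 1^t)`
-/

set_option autoImplicit false

namespace Pool.OddHC

open Finset Equiv BinaryTree Multiset Ring1 Pool.Agent.Work.MP_8f87b2_co

namespace S5

variable {k j : ℕ} {τp τw : Type} {AE : Cyc k → Cyc k → Prop}
  {Pp : τp → Set (Cyc k) → DG k → Prop} {Pw : τw → Set (Cyc k) → DG k → Prop}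

/-- a class with one family -/
theorem fam_gen (p0 : Cyc k) (X : Set (Cyc k)) (hq : Uq (Rd p0).1 (contc (Rd p0).2))
    (G : Set (Set (Cyc k))) (hG : ∀ F ∈ G, F.Nonempty ∧ Typd Pp Pw F ∧ ∀ c ∈ F, Rd c = Rd p0 ∧ c ∉ X)
    (hd : ∀ F ∈ G, ∀ F' ∈ G, ∀ c, c ∈ F → c ∈ F' → F = F')
    (hrem : RemA AE (Rd p0) (inG G ∪ X)) :
    ∃ Gp Gw, ClsOK AE (cl p0) X Gp Gw Pp Pw := by
  refine cls_of_inv p0 X id (fun U hU => ⟨hU, rfl⟩) (fun U _ h => absurd rfl h) ?_
  intro U hU _
  have h1 : U = (Rd p0).2 := hq _ _ (contc_of_Rd (by rw [hU]) (by rw [hU])) rfl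
  subst h1
  exact ⟨G, hG, hd, hrem⟩

theorem env_rem {p0 : Cyc k} (hEnv : ClsEnv AE Pp Pw (cl p0)) {D : Set (Cyc k)} (hD : RemOK (Rd p0) D) :
    RemA AE (Rd p0) D := hEnv.rem (p0 := p0) (U1 := (Rd p0).2) rfl rfl hD

/-- the removal set `D` lies in `X` -/
theorem fam_env {p0 : Cyc k} (hEnv : ClsEnv AE Pp Pw (cl p0)) (X : Set (Cyc k))
    (hq : Uq (Rd p0).1 (contc (Rd p0).2)) {D : Set (Cyc k)} (hD : RemOK (Rd p0) D)
    (hX : ∀ p, Rd p = Rd p0 → (p ∈ X ↔ p ∈ D)) :
    ∃ Gp Gw, ClsOK AE (cl p0) X Gp Gw Pp Pw := by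
  refine fam_gen p0 X hq ∅ (fun F hF => absurd hF (Set.notMem_empty F)) (fun F hF => absurd hF (Set.notMem_empty F)) ?_
  refine (env_rem hEnv hD).congr fun p hp => ?_
  rw [← hX p hp]
  constructor
  · exact fun h => Or.inr h
  · rintro (⟨F, hF, -⟩ | h)
    · exact absurd hF (Set.notMem_empty F)
    · exact h

/-- nothing is removed, even family -/
theorem fam_even {p0 : Cyc k} (hEnv : ClsEnv AE Pp Pw (cl p0)) (X : Set (Cyc k))
    (hq : Uq (Rd p0).1 (contc (Rd p0).2)) (hev : ¬ oddF (Rd p0).1 ((contc p0).count 1))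
    (hX : ∀ p, Rd p = Rd p0 → p ∉ X) :
    ∃ Gp Gw, ClsOK AE (cl p0) X Gp Gw Pp Pw := by
  refine fam_env hEnv X hq (D := ∅) (remOK_even (Rd p0) ((contc p0).count 1) (fun p hp => ?_) hev)
    fun p hp => ⟨fun h => absurd h (hX p hp), fun h => absurd h (Set.notMem_empty p)⟩
  rw [contc_of_Rd (p := p) (q := p0) (by rw [hp]) (by rw [hp])]

/-- one T-cycle is removed, odd family -/
theorem fam_one {p0 : Cyc k} (hEnv : ClsEnv AE Pp Pw (cl p0)) (X : Set (Cyc k))
    (hq : Uq (Rd p0).1 (contc (Rd p0).2)) (hod : oddF (Rd p0).1 ((contc p0).count 1))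
    {q : Cyc k} (hqR : Rd q = Rd p0) (h2 : (contc p0).count 1 = 2 → IsTwo q)
    (hX : ∀ p, Rd p = Rd p0 → (p ∈ X ↔ p = q)) :
    ∃ Gp Gw, ClsOK AE (cl p0) X Gp Gw Pp Pw := by
  have hcc : contc q = contc p0 := contc_of_Rd (by rw [hqR]) (by rw [hqR])
  refine fam_env hEnv X hq (D := {q}) ((remOK_lo (Rd p0) q hqR fun h _ => h2 (by rw [← hcc]; exact h)).congr ?_) hX
  intro p _
  constructor
  · exact fun h => h.1
  · exact fun h => ⟨h, by rw [hcc]; exact hod⟩

/-! ### a pile is not a near pile -/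

theorem pile_ne_near {u : X j} {m : ℕ} (hm : 2 ≤ m) {x x' y : ZMod (2 * j + 1)} (hxy : y ≠ x) {p q : X k}
    (hp : p.1 = ins u.1 (lf fun z => if z = x' then m else 0))
    (hq : q.1 = ins u.1 (lf fun z => (if z = x then m - 1 else 0) + if z = y then 1 else 0)) :
    cyc p ≠ cyc q := by
  intro e
  obtain ⟨i, hi⟩ := same_nat (cyc_eq.1 e)
  have hk := word_phi hp
  have hp' : p = phi u (fun z => if z = x' then m else 0) hk := Subtype.ext hp
  have h1 : (TT ^ i) p = phi ((TT ^ i) u) (fun z => if z + sp u i = x' then m else 0) (by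
      rw [pkn_pow]
      have := sum_shift (fun z => if z = x' then m else 0) (sp u i)
      rw [this]
      exact hk) := by
    rw [hp', pow_phi]
  rw [h1] at hi
  have h2 := congrArg Subtype.val hi
  rw [hq] at h2
  change ins ((TT ^ i) u).1 (lf _) = ins u.1 (lf _) at h2
  obtain ⟨g1, g2⟩ := ins_inj (by rw [lf_length, X_num]) (by rw [lf_length, X_num]) h2
  have g3 := lf_inj g2
  have g4 := congrFun g3 y
  have g5 := congrFun g3 x
  simp only [if_true, if_neg hxy, if_neg (Ne.symm hxy)] at g4 g5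
  split_ifs at g4 g5 <;> omega

/-! ### hooks -/

theorem Rd_hook {n t : ℕ} (hn : 1 ≤ n) {p : Cyc k} (h : contc p = {n + 2} + replicate t 1) :
    Rd p = ⟨n + 1, cyc (pwX (n + 1))⟩ ∧ (contc p).count 1 = t := by
  have e : contc p = ({n + 1} : Multiset ℕ).map (· + 1) + replicate t 1 := by
    rw [h, Multiset.map_singleton]
  obtain ⟨g1, g2, g3⟩ := Rd_cont (by simp) e
  obtain ⟨⟨i, U⟩, eU⟩ : ∃ d, d = Rd p := ⟨_, rfl⟩
  rw [← eU] at g1 g2 ⊢
  change contc U = _ at g1
  change i = _ at g2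
  rw [Multiset.sum_singleton] at g2
  subst g2
  rw [Uq_ch (n + 1) (by omega) U _ g1 (cont_pwX (by omega))]
  exact ⟨rfl, g3⟩

theorem cont_of_Rd_hook {n t : ℕ} (hn : 1 ≤ n) {p : Cyc k} (h : Rd p = ⟨n + 1, cyc (pwX (n + 1))⟩)
    (hk : n + 2 + t = k) : contc p = {n + 2} + replicate t 1 := by
  have h1 := Rd_size p
  rw [h] at h1
  change n + 1 + pkc (cyc (pwX (n + 1))) + _ = k at h1
  unfold pkc at h1
  rw [cont_pwX (by omega), Multiset.card_singleton] at h1
  have h2 := contc_eq p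
  rw [h] at h2
  change contc p = (contc (cyc (pwX (n + 1)))).map (· + 1) + _ at h2
  rw [cont_pwX (by omega), Multiset.map_singleton] at h2
  rw [h2]
  congr 2
  omega

/-- **THE HOOKS** `(s, 1^t)`, odd: the pile (or any other T-cycle) is in a link -/
theorem hook_odd {n t : ℕ} (hn : 1 ≤ n) (ht : 3 ≤ t) {p0 : Cyc k} (h0 : contc p0 = {n + 2} + replicate t 1)
    (hEnv : ClsEnv AE Pp Pw (cl p0)) (X : Set (Cyc k)) (hod : oddF (n + 1) t) {q : Cyc k}
    (hq : contc q = {n + 2} + replicate t 1)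
    (hX : ∀ p, contc p = {n + 2} + replicate t 1 → (p ∈ X ↔ p = q)) :
    ∃ Gp Gw, ClsOK AE (cl p0) X Gp Gw Pp Pw := by
  obtain ⟨g1, g2⟩ := Rd_hook hn h0
  obtain ⟨f1, f2⟩ := Rd_hook hn hq
  have hU : Uq (Rd p0).1 (contc (Rd p0).2) := by
    rw [g1]
    change Uq (n + 1) (contc (cyc (pwX (n + 1))))
    rw [cont_pwX (by omega)]
    exact Uq_ch (n + 1) (by omega)
  refine fam_one hEnv X hU (by rw [g1, g2]; exact hod) (q := q) (by rw [f1, g1]) (by rw [g2]; omega) ?_
  intro p hp
  exact hX p (by rw [← h0]; exact contc_of_Rd (by rw [hp]) (by rw [hp]))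

/-- TYPE Ek: an E-triple `(X); X(), ()X` with `X` not of the form `()^a [b]`, `a ≥ 1` -/
def _root_.Pool.OddHC.TyEk (F : Set (Cyc k)) (g : DG k) : Prop :=
  ∃ (j : ℕ) (r : OddHC.X j) (f : ZMod (2 * j + 1) → ℕ), 1 ≤ j ∧ Low r.1 ∧
    (∀ a b, 1 ≤ a → ins r.1 (lf f) ≠ app (lp a) (H1.ch b)) ∧ IsTri .nil (ins r.1 (lf f)) .nil F g

theorem _root_.Pool.OddHC.TyEk.toE {F : Set (Cyc k)} {g : DG k} (h : TyEk F g) : TyE F g := by
  obtain ⟨j, r, f, h1, h2, _, h3⟩ := h
  exact ⟨j, r, f, h1, h2, h3⟩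

theorem mono_off {A A' : Cyc k → Cyc k → Prop} {d : RD} {D : Set (Cyc k)} (h : RemA A d D)
    (hA : ∀ p q, Rd p = d → Rd q = d → p ∉ D → q ∉ D → p ≠ q → A p q → A' p q) : RemA A' d D := by
  obtain ⟨ι, hι⟩ := h
  refine ⟨ι, fun p hp => ?_⟩
  obtain ⟨h1, h2, h3, h4⟩ := hι p hp
  refine ⟨h1, h2, ?_, h4⟩
  rcases h3 with h3 | h3
  · exact Or.inl h3
  · by_cases hpD : p ∈ D
    · exact Or.inl (h4.2 hpD)
    · have h5 : ι p ∉ D := by
        intro h6
        obtain ⟨g1, g2, g3, g4⟩ := hι (ι p) h1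
        have := g4.2 h6
        rw [h2] at this
        exact hpD (h4.1 this.symm)
      exact Or.inr (hA p (ι p) hp h1 hpD h5 (fun e => hpD (h4.1 e.symm)) h3)

theorem rotU_pw {q : ℕ} (hq : 1 ≤ q) : RotU (pwX q) := fun _ b h c => rot1 hq b h c

theorem front_word {u : OddHC.X j} (t : ℕ) : ins u.1 (lf fun z : ZMod (2 * j + 1) => if z = 0 then t else 0) =
    app (lp t) (inf u.1) := by
  induction t with
  | zero =>
    change _ = inf u.1
    unfold inf
    rw [X_num]
    congr 1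
    apply List.ext_getElem
    · rw [lf_length, List.length_replicate]
    · intro i h1 h2
      rw [lf_getElem, List.getElem_replicate]
      split_ifs <;> rfl
  | succ t ih =>
    have h1 := ins_front u (fun z : ZMod (2 * j + 1) => if z = 0 then t else 0)
    rw [ih] at h1
    change _ = .nil △ app (lp t) (inf u.1)
    rw [← h1]
    congr 2
    funext z
    split_ifs <;> rfl

theorem back_word {u : OddHC.X j} (t : ℕ) : ins u.1 (lf fun z : ZMod (2 * j + 1) => if z = -1 then t else 0) =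
    app (inf u.1) (lp t) := by
  induction t with
  | zero =>
    change _ = app (inf u.1) .nil
    rw [app_nil']
    unfold inf
    rw [X_num]
    congr 1
    apply List.ext_getElem
    · rw [lf_length, List.length_replicate]
    · intro i h1 h2
      rw [lf_getElem, List.getElem_replicate]
      split_ifs <;> rfl
  | succ t ih =>
    have h1 := ins_back u (fun z : ZMod (2 * j + 1) => if z = -1 then t else 0)
    rw [ih] at h1
    have e : app (inf u.1) (lp (t + 1)) = app (app (inf u.1) (lp t)) (.nil △ .nil) := by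
      rw [app_assoc']
      congr 1
      clear h1 ih
      induction t with
      | zero => rfl
      | succ t ih =>
        change .nil △ lp (t + 1) = .nil △ app (lp t) _
        rw [ih]
    rw [e, ← h1]
    congr 2
    funext z
    split_ifs <;> rfl

theorem inf_pw {n : ℕ} : inf (pw (n + 1)) = H1.ch (n + 2) := by
  rw [← ch_eq]
  induction n with
  | zero => rfl
  | succ n ih =>
    change inf (H1.ch (n + 1) △ .nil) = H1.ch (n + 2) △ .nil
    rw [inf_node, inf1_eq (by exact fun h => by cases h), ih]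
    rfl

/-- the two forms of the pile of the hooks -/
theorem hook_pile {n t : ℕ} (hn : 1 ≤ n) {w z : OddHC.X k} (hw : w.1 = app (H1.ch (n + 2)) (lp t))
    (hz : z.1 = app (lp t) (H1.ch (n + 2))) : cyc z = cyc w := by
  have e1 : z.1 = ins (pwX (n + 1)).1 (lf fun z : ZMod (2 * (n + 1) + 1) => if z = 0 then t else 0) := by
    rw [front_word, hz]
    change _ = app (lp t) (inf (pw (n + 1)))
    rw [inf_pw]
  have e2 : w.1 = ins (pwX (n + 1)).1 (lf fun z : ZMod (2 * (n + 1) + 1) => if z = -1 then t else 0) := by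
    rw [back_word, hw]
    change _ = app (inf (pw (n + 1))) (lp t)
    rw [inf_pw]
  obtain ⟨w', h1, h2⟩ := pile_at (rotU_pw (by omega : 1 ≤ n + 1)) rfl e1 (-1)
  rw [← h2]
  congr 1
  apply Subtype.ext
  rw [h1, e2]

theorem hook_cont {n t a c : ℕ} (ht : 2 ≤ t) (h : cont (app (lp a) (H1.ch c)) = {n + 2} + replicate t 1)
    (hn : 1 ≤ n) : a = t ∧ c = n + 2 := by
  rw [cont_app, c_lp] at h
  rcases Nat.eq_zero_or_pos c with rfl | hc
  · exfalso
    have h1 := congrArg (Multiset.count (n + 2)) h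
    change (replicate a 1 + cont .nil).count (n + 2) = _ at h1
    rw [cont_nil, add_zero, Multiset.count_add, Multiset.count_replicate, Multiset.count_singleton_self,
      if_neg (by omega)] at h1
    omega
  · rw [c_ch hc] at h
    have h1 := congrArg (Multiset.count (n + 2)) h
    have h2 := congrArg Multiset.card h
    rw [Multiset.count_add, Multiset.count_add, Multiset.count_replicate, Multiset.count_replicate,
      Multiset.count_singleton_self, Multiset.count_singleton, if_neg (by omega)] at h1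
    simp only [Multiset.card_add, Multiset.card_replicate, Multiset.card_singleton] at h2
    split_ifs at h1 <;> omega

/-- E pairs of the hooks away from the pile are of type Ek -/
theorem hook_ek {n t : ℕ} (hn : 1 ≤ n) (ht : 2 ≤ t) {p q : Cyc k} {w : OddHC.X k}
    (hw : w.1 = app (H1.ch (n + 2)) (lp t))
    (hp : contc p = {n + 2} + replicate t 1) (hq : contc q = {n + 2} + replicate t 1)
    (hpp : p ≠ cyc w) (hqp : q ≠ cyc w) (hne : p ≠ q) (hop : HopC p q) : ∃ g, TyEk {p, q} g := by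
  obtain ⟨g, i, r, f, h1, h2, h3⟩ := tyE_of_hop hne hop
  refine ⟨g, i, r, f, h1, h2, ?_, h3⟩
  intro a c ha e
  have h4 := h3
  rw [e] at h4
  obtain ⟨x, y, z, hx, hy, hz, -, -, -, hF, -⟩ := h4
  have hz' : z.1 = app (lp (a + 1)) (H1.ch c) := hz
  have hmem : cyc z = p ∨ cyc z = q := by
    have h5 : cyc z ∈ ({p, q} : Set (Cyc k)) := by
      rw [hF]
      exact Or.inr rfl
    exact h5
  have hc : contc (cyc z) = {n + 2} + replicate t 1 := by
    rcases hmem with h6 | h6
    · rw [h6]; exact hp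
    · rw [h6]; exact hq
  rw [contc_cyc, hz'] at hc
  obtain ⟨e1, e2⟩ := hook_cont ht hc hn
  rw [e1, e2] at hz'
  have h7 := hook_pile hn hw hz'
  rcases hmem with h6 | h6
  · exact hpp (h6.symm.trans h7)
  · exact hqp (h6.symm.trans h7)

/-- **THE HOOKS, ODD**, with the E pairs of type Ek; `w` = the pile `[s]()^t` -/
theorem hook_odd' {τ : Type} {P : τ → Set (Cyc k) → DG k → Prop} (hK : ∀ F g, TyEk F g → ∃ t, P t F g)
    {n t : ℕ} (hn : 1 ≤ n) (ht : 3 ≤ t) {p0 : Cyc k} (h0 : contc p0 = {n + 2} + replicate t 1)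
    (X : Set (Cyc k)) (hod : oddF (n + 1) t) {w : OddHC.X k} (hw : w.1 = app (H1.ch (n + 2)) (lp t))
    (hX : ∀ p, contc p = {n + 2} + replicate t 1 → (p ∈ X ↔ p = cyc w)) :
    ∃ Gp Gw, ClsOK (AEP P) (cl p0) X Gp Gw P P := by
  obtain ⟨g1, g2⟩ := Rd_hook hn h0
  have hwc : contc (cyc w) = {n + 2} + replicate t 1 := by
    rw [contc_cyc, hw, cont_app, c_lp, c_ch (by omega)]
  obtain ⟨f1, f2⟩ := Rd_hook hn hwc
  have hU : Uq (Rd p0).1 (contc (Rd p0).2) := by
    rw [g1]
    change Uq (n + 1) (contc (cyc (pwX (n + 1))))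
    rw [cont_pwX (by omega)]
    exact Uq_ch (n + 1) (by omega)
  have hcl : ∀ p : Cyc k, Rd p = Rd p0 → contc p = {n + 2} + replicate t 1 := by
    intro p hp
    rw [← h0]
    exact contc_of_Rd (by rw [hp]) (by rw [hp])
  refine fam_gen p0 X hU ∅ (fun F hF => absurd hF (Set.notMem_empty F)) (fun F hF => absurd hF (Set.notMem_empty F)) ?_
  have hrem : RemOK (Rd p0) {cyc w} := by
    rw [g1]
    refine (remOK_lo ⟨n + 1, cyc (pwX (n + 1))⟩ (cyc w) f1 fun h _ => by omega).congr fun p _ => ?_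
    constructor
    · exact fun h => h.1
    · exact fun h => ⟨h, by rw [f2]; exact hod⟩
  have hA : RemA (AEP P) (Rd p0) {cyc w} := by
    refine mono_off hrem.remA ?_
    intro p q hp hq hpD hqD hne hop
    obtain ⟨g, hg⟩ := hook_ek hn (by omega) hw (hcl p hp) (hcl q hq) hpD hqD hne hop
    obtain ⟨t, ht⟩ := hK _ _ hg
    exact ⟨hne, t, g, ht⟩
  refine hA.congr ?_
  intro p hp
  rw [inG_empty', Set.empty_union, hX p (hcl p hp)]
  exact Iff.rfl

theorem hop_py {u : OddHC.X j} (hj : 1 ≤ j) {m : ℕ} (hm : 1 ≤ m) {x : ZMod (2 * j + 1)} {p q : OddHC.X k}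
    (hp : p.1 = ins u.1 (lf fun z => if z = x then m else 0))
    (hq : q.1 = ins u.1 (lf fun z => (if z = x then m - 1 else 0) + if z = x + 1 then 1 else 0)) :
    HopC (cyc p) (cyc q) := by
  refine ⟨j, hj, u, _, _, word_phi hp, word_phi hq, ?_, ?_, ?_⟩
  · refine ⟨x, x + 1, Or.inl rfl, fun z => ?_⟩
    have e1 : (x = z) ↔ z = x := eq_comm
    have e2 : (x + 1 = z) ↔ z = x + 1 := eq_comm
    simp only [e1, e2]
    split_ifs <;> omega
  · congr 1
    exact Subtype.ext hp.symm
  · congr 1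
    exact Subtype.ext hq.symm

/-- **THE HOOKS, EVEN**: the pile is paired with `y+` -/
theorem hook_even' {τ : Type} {P : τ → Set (Cyc k) → DG k → Prop} (hK : ∀ F g, TyEk F g → ∃ t, P t F g)
    {n t : ℕ} (hn : 1 ≤ n) (ht : 3 ≤ t) {p0 : Cyc k} (h0 : contc p0 = {n + 2} + replicate t 1)
    (X : Set (Cyc k)) (hev : ¬ oddF (n + 1) t)
    (hX : ∀ p, contc p = {n + 2} + replicate t 1 → p ∉ X) :
    ∃ Gp Gw, ClsOK (AEP P) (cl p0) X Gp Gw P P := by
  obtain ⟨g1, g2⟩ := Rd_hook hn h0
  have hk : n + 2 + t = k := by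
    have h1 := contc_sum p0
    rw [h0, Multiset.sum_add, Multiset.sum_singleton, Multiset.sum_replicate] at h1
    simpa using h1
  have hU : Uq (Rd p0).1 (contc (Rd p0).2) := by
    rw [g1]
    change Uq (n + 1) (contc (cyc (pwX (n + 1))))
    rw [cont_pwX (by omega)]
    exact Uq_ch (n + 1) (by omega)
  have hcl : ∀ p : Cyc k, Rd p = Rd p0 → contc p = {n + 2} + replicate t 1 := by
    intro p hp
    rw [← h0]
    exact contc_of_Rd (by rw [hp]) (by rw [hp])
  -- the words
  have hpk : pkn (pwX (n + 1)).1 = 1 := pkn_pw n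
  have hpw : (app (H1.ch (n + 2)) (lp t)).numNodes = k := by
    rw [← cont_sum, cont_app, Multiset.sum_add, cont_sum, cont_sum, ch_num, lp_num]
    exact hk
  obtain ⟨w, hw⟩ : ∃ w : OddHC.X k, w.1 = app (H1.ch (n + 2)) (lp t) :=
    ⟨⟨_, mem_treesOfNumNodesEq.2 hpw⟩, rfl⟩
  have hw2 : w.1 = ins (pwX (n + 1)).1 (lf fun z : ZMod (2 * (n + 1) + 1) => if z = -1 then t else 0) := by
    rw [back_word, hw]
    change _ = app (inf (pw (n + 1))) (lp t)
    rw [inf_pw]
  have hyn : (.nil △ app (H1.ch (n + 2)) (lp (t - 1)) : BinaryTree Unit).numNodes = k := by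
    rw [← cont_sum, cont_node, cont_app, Multiset.sum_add, Multiset.sum_add, cont_nil, raise_zero, cont_sum, cont_sum,
      ch_num, lp_num, Multiset.sum_singleton]
    omega
  obtain ⟨y, hy⟩ : ∃ y : OddHC.X k, y.1 = .nil △ app (H1.ch (n + 2)) (lp (t - 1)) :=
    ⟨⟨_, mem_treesOfNumNodesEq.2 hyn⟩, rfl⟩
  have hy2 : y.1 = ins (pwX (n + 1)).1 (lf fun z : ZMod (2 * (n + 1) + 1) =>
      (if z = -1 then t - 1 else 0) + if z = -1 + 1 then 1 else 0) := by
    have h1 := ins_front (pwX (n + 1)) (fun z : ZMod (2 * (n + 1) + 1) => if z = -1 then t - 1 else 0)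
    rw [back_word] at h1
    rw [hy, neg_add_cancel, h1]
    change _ = .nil △ app (inf (pw (n + 1))) (lp (t - 1))
    rw [inf_pw]
  have hne : cyc w ≠ cyc y := by
    refine pile_ne_near (m := t) (by omega) (x := -1) (y := -1 + 1) ?_ hw2 hy2
    intro h
    have h1 : (1 : ZMod (2 * (n + 1) + 1)) = 0 := by linear_combination h
    have : Fact (1 < 2 * (n + 1) + 1) := ⟨by omega⟩
    exact one_ne_zero h1
  have hrem : RemOK (Rd p0) {cyc w, cyc y} := by
    rw [g1]
    exact remOK_py (by omega) ht (Or.inl rfl) hw2 hy2 hev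
  have hwc : contc (cyc w) = {n + 2} + replicate t 1 := by
    rw [contc_cyc, hw, cont_app, c_lp, c_ch (by omega)]
  have hyc : contc (cyc y) = {n + 2} + replicate t 1 := by
    rw [contc_cyc, hy, cont_node, cont_app, cont_nil, raise_zero, c_lp, c_ch (by omega)]
    obtain ⟨t', rfl⟩ : ∃ t', t = t' + 1 := ⟨t - 1, by omega⟩
    rw [Multiset.replicate_succ, ← Multiset.singleton_add]
    change {1} + ({n + 2} + replicate t' 1) = _
    abel
  -- the pair
  obtain ⟨g, hg⟩ : ∃ g, TyEk {cyc w, cyc y} g := by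
    obtain ⟨t', rfl⟩ : ∃ t', t = t' + 1 := ⟨t - 1, by omega⟩
    have hX1 : ins (pwX (n + 1)).1 (lf fun z : ZMod (2 * (n + 1) + 1) => if z = -1 then t' else 0) =
        app (H1.ch (n + 2)) (lp t') := by
      rw [back_word]
      change app (inf (pw (n + 1))) (lp t') = _
      rw [inf_pw]
    have hlp : app (lp t') (.nil △ .nil) = lp (t' + 1) := by
      clear * -
      induction t' with
      | zero => rfl
      | succ t ih =>
        change .nil △ app (lp t) _ = .nil △ lp (t + 1)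
        rw [ih]
    have hh : htc (cyc w) = htc (cyc y) := by
      rw [htc_cyc, htc_cyc, ht_eq, ht_eq]
      rw [contc_cyc] at hwc hyc
      rw [hwc, hyc]
    obtain ⟨a, ha⟩ : ∃ a : OddHC.X k, a.1 = app (H1.ch (n + 2)) (lp t') △ .nil := by
      refine ⟨⟨_, mem_treesOfNumNodesEq.2 ?_⟩, rfl⟩
      change (app (H1.ch (n + 2)) (lp t')).numNodes + 0 + 1 = k
      rw [← cont_sum, cont_app, Multiset.sum_add, cont_sum, cont_sum, ch_num, lp_num]
      omega
    refine ⟨pDG {a, w, y} (cyc w) (cyc y) ∅, n + 1, pwX (n + 1), fun z => if z = -1 then t' else 0, by omega,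
      ?_, ?_, ?_⟩
    · have hc : cont (pwX (n + 1)).1 = {n + 1} := by
        have h5 := cont_pwX (n := n + 1) (by omega)
        rw [contc_cyc] at h5
        exact h5
      constructor
      · intro h
        rw [hc, Multiset.count_singleton] at h
        split_ifs at h <;> omega
      · intro _ h
        rw [hc, Multiset.count_singleton] at h
        split_ifs at h with h5
        · have h6 : n = 1 := by omega
          subst h6
          exact ⟨.nil, rfl⟩
        · omega
    · intro a' b' ha' e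
      rw [hX1] at e
      obtain ⟨a'', rfl⟩ : ∃ a'', a' = a'' + 1 := ⟨a' - 1, by omega⟩
      have e2 : H1.ch (n + 1) △ lp t' = .nil △ app (lp a'') (H1.ch b') := e
      have e3 : H1.ch (n + 1) = .nil := by
        injection e2
      have e4 := congrArg OddHC.ht e3
      rw [ht_ch] at e4
      exact absurd e4 (by change n + 1 ≠ 0; omega)
    · rw [hX1]
      refine ⟨a, w, y, ha, ?_, hy, hne, hh, ?_, rfl, rfl⟩
      · rw [hw]
        change _ = app (app (H1.ch (n + 2)) (lp t')) (.nil △ .nil)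
        rw [app_assoc', hlp]
      · rw [htc_cyc, htc_cyc, ha]
        rw [contc_cyc] at hwc
        rw [ht_eq w.1, hwc, ht_node, ht_app, ht_ch]
        have : ({n + 2} + replicate (t' + 1) 1 : Multiset ℕ).sup = n + 2 := by
          apply le_antisymm
          · rw [Multiset.sup_le]
            intro x hx
            rcases Multiset.mem_add.1 hx with hx | hx
            · exact (Multiset.mem_singleton.1 hx).le
            · rw [Multiset.eq_of_mem_replicate hx]; omega
          · exact Multiset.le_sup (Multiset.mem_add.2 (Or.inl (Multiset.mem_singleton_self _)))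
        rw [this]
        omega
  obtain ⟨τ0, hτ⟩ := hK _ _ hg
  refine fam_gen p0 X hU {({cyc w, cyc y} : Set (Cyc k))} ?_ ?_ ?_
  · rintro F rfl
    refine ⟨⟨cyc w, Or.inl rfl⟩, Or.inl ⟨τ0, g, hτ⟩, ?_⟩
    rintro c (rfl | rfl)
    · exact ⟨((Rd_hook hn hwc).1.trans g1.symm), hX _ hwc⟩
    · exact ⟨((Rd_hook hn hyc).1.trans g1.symm), hX _ hyc⟩
  · rintro F rfl F' rfl c _ _
    rfl
  · have hA : RemA (AEP P) (Rd p0) {cyc w, cyc y} := by
      refine mono_off hrem.remA ?_
      intro p q hp hq hpD hqD hne hop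
      obtain ⟨g, hg⟩ := hook_ek hn (by omega) hw (hcl p hp) (hcl q hq) (fun e => hpD (Or.inl e))
        (fun e => hqD (Or.inl e)) hne hop
      obtain ⟨t, ht⟩ := hK _ _ hg
      exact ⟨hne, t, g, ht⟩
    · refine hA.congr ?_
      intro p hp
      rw [inG_single]
      constructor
      · exact fun h => Or.inl h
      · rintro (h | h)
        · exact h
        · exact absurd h (hX p (hcl p hp))

end S5

end Pool.OddHC
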