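import Pool.Agent.Work.MP_8f87b2_h20.S5Mid3

/-!
# ONE SOLITON: the region
-/

set_option autoImplicit false

namespace Pool.OddHC

open Finset Equiv BinaryTree Multiset Ring1 Pool.Agent.Work.MP_8f87b2_co Pool.OddHop

variable {k : ℕ} {τ : Type} {P : τ → Set (Cyc k) → DG k → Prop}

namespace S5

variable {n m a : ℕ} {p : Cyc k} {KS : BinaryTree Unit → Prop}

/-! ### contents -/

theorem over_V (hn : 1 ≤ n) (h : Rd (Rd p).2 = ⟨n, cyc (pwX n)⟩) :
    ∃ a m, n + 2 + 2 * a + m = k ∧ contc p = cC n a m := by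
  have e1 := contc_eq (Rd p).2
  have e2 := contc_eq p
  rw [h] at e1
  change contc (Rd p).2 = (contc (cyc (pwX n))).map (· + 1) + _ at e1
  change contc p = (contc (Rd p).2).map (· + 1) + _ at e2
  rw [cont_pwX hn] at e1
  obtain ⟨a, ha⟩ : ∃ a, a = (contc (Rd p).2).count 1 := ⟨_, rfl⟩
  obtain ⟨m, hm⟩ : ∃ m, m = (contc p).count 1 := ⟨_, rfl⟩
  rw [← ha] at e1
  rw [← hm, e1] at e2
  have e3 : contc p = cC n a m := by
    rw [e2]
    unfold cC
    rw [Multiset.map_add, Multiset.map_singleton, Multiset.map_singleton, Multiset.map_replicate]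
  refine ⟨a, m, ?_, e3⟩
  have h1 := contc_sum p
  rw [e3] at h1
  unfold cC at h1
  rw [Multiset.sum_add, Multiset.sum_add, Multiset.sum_singleton, Multiset.sum_replicate, Multiset.sum_replicate] at h1
  simp only [smul_eq_mul] at h1
  omega

theorem over_X (hn : 1 ≤ n) (h : Rd (Rd p).2 = ⟨n + 1, cyc (vX n)⟩) :
    ∃ a m, n + 5 + 2 * a + m = k ∧ contc p = cX n a m := by
  have e1 := contc_eq (Rd p).2
  have e2 := contc_eq p
  rw [h] at e1
  change contc (Rd p).2 = (contc (cyc (vX n))).map (· + 1) + _ at e1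
  change contc p = (contc (Rd p).2).map (· + 1) + _ at e2
  rw [contc_cyc, c_vX hn] at e1
  obtain ⟨a, ha⟩ : ∃ a, a = (contc (Rd p).2).count 1 := ⟨_, rfl⟩
  obtain ⟨m, hm⟩ : ∃ m, m = (contc p).count 1 := ⟨_, rfl⟩
  rw [← ha] at e1
  rw [← hm, e1] at e2
  have e3 : contc p = cX n a m := by
    rw [e2]
    unfold cX
    rw [Multiset.map_add, Multiset.map_add, Multiset.map_add, Multiset.map_singleton, Multiset.map_singleton,
      Multiset.map_singleton, Multiset.map_singleton, Multiset.map_replicate]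
  exact ⟨a, m, X_size hn e3, e3⟩

theorem cC_n {n' a' m' : ℕ} (hn : 1 ≤ n) (h : cC n a m = cC n' a' m') : n = n' := by
  have h1 := congrArg (Multiset.count (n + 2)) h
  unfold cC at h1
  rw [Multiset.count_add, Multiset.count_add, Multiset.count_add, Multiset.count_add, Multiset.count_singleton,
    Multiset.count_singleton, Multiset.count_replicate, Multiset.count_replicate, Multiset.count_replicate,
    Multiset.count_replicate] at h1
  split_ifs at h1 <;> omega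

theorem kC_inj {a' m' : ℕ} (hn : 1 ≤ n) (h : kC n a m = kC n a' m') : a = a' ∧ m = m' := by
  have h1 := congrArg Prod.snd h
  change cC n a m = cC n a' m' at h1
  have h2 := congrArg (Multiset.count 1) h1
  rw [n1_cC, n1_cC] at h2
  have h3 := congrArg (Multiset.count 2) h1
  rw [n2_cC hn, n2_cC hn] at h3
  exact ⟨h3, h2⟩

theorem kX_inj {a' m' : ℕ} (hn : 1 ≤ n) (h : kX n a m = kX n a' m') : a = a' := by
  have h1 := congrArg Prod.snd h
  change cX n a m = cX n a' m' at h1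
  have h3 := congrArg (Multiset.count 2) h1
  rw [n2_cX hn, n2_cX hn] at h3
  exact h3

theorem kC_kX {a' m' : ℕ} : kC n a m ≠ kX n a' m' := fun h => cC_ne_cX _ _ _ _ _ (congrArg Prod.snd h)

/-! ### the components -/

/-- the components -/
noncomputable def Cp (k n m : ℕ) : ℕ → Set (RD × Multiset ℕ)
  | 0 => K5 n m
  | 1 => {κ | ∃ A, 3 ≤ A ∧ n + 2 + 2 * A = k ∧ κ = kC n A 0}
  | a + 2 => {κ | ∃ M, n + 5 + 2 * (a + 2) + M = k ∧ (κ = kC n (a + 3) (M + 1) ∨ κ = kX n (a + 2) M)}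

def iC (A M : ℕ) : ℕ := if A ≤ 2 then 0 else if M = 0 then 1 else A - 1

def iX (a : ℕ) : ℕ := if a ≤ 1 then 0 else a

theorem Cp_idx (i : ℕ) {d : RD × Multiset ℕ} (h : d ∈ Cp k n m i) :
    (∃ A M, d = kC n A M ∧ iC A M = i) ∨ ∃ a M, d = kX n a M ∧ iX a = i := by
  match i, h with
  | 0, h =>
    rcases h with h | h | h | h | h
    · exact Or.inl ⟨0, _, h, rfl⟩
    · exact Or.inl ⟨1, _, h, rfl⟩
    · exact Or.inr ⟨0, _, h, rfl⟩
    · exact Or.inl ⟨2, _, h, rfl⟩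
    · exact Or.inr ⟨1, _, Set.mem_singleton_iff.1 h, rfl⟩
  | 1, h =>
    obtain ⟨A, h1, h2, h3⟩ := h
    refine Or.inl ⟨A, 0, h3, ?_⟩
    unfold iC
    rw [if_neg (by omega), if_pos rfl]
  | a + 2, h =>
    obtain ⟨M, h1, h2 | h2⟩ := h
    · refine Or.inl ⟨_, _, h2, ?_⟩
      unfold iC
      rw [if_neg (by omega), if_neg (by omega)]
      omega
    · refine Or.inr ⟨_, _, h2, ?_⟩
      unfold iX
      rw [if_neg (by omega)]

theorem Cp_dis (hn : 1 ≤ n) (i i' : ℕ) (d : RD × Multiset ℕ) (h : d ∈ Cp k n m i) (h' : d ∈ Cp k n m i') :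
    i = i' := by
  rcases Cp_idx i h with ⟨A, M, e1, e2⟩ | ⟨a, M, e1, e2⟩ <;> rcases Cp_idx i' h' with ⟨A', M', e3, e4⟩ | ⟨a', M', e3, e4⟩
  · obtain ⟨rfl, rfl⟩ := kC_inj hn (e1.symm.trans e3)
    rw [← e2, ← e4]
  · exact absurd (e1.symm.trans e3) kC_kX
  · exact absurd (e3.symm.trans e1) kC_kX
  · obtain rfl := kX_inj hn (e1.symm.trans e3)
    rw [← e2, ← e4]

theorem Cp_reg (hn : 1 ≤ n) (hk13 : 13 ≤ k) (hE : Hole2.CEnv n (AEP P) P P) (E : VEnv P (cyc (vX n)) KS)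
    (hCl : ∀ a M S F g, 1 ≤ a → Hole2.ShC n a M S → IsTri (H1.ch 2) S .nil F g → Typd P P F)
    (hmid : RegX P (K5 n m) (Hole2.TYH k)) (i : ℕ) : RegX P (Cp k n m i) (Hole2.TYH k) := by
  match i with
  | 0 => exact hmid
  | 1 =>
    by_cases h : ∃ A, 3 ≤ A ∧ n + 2 + 2 * A = k
    · obtain ⟨A, h1, h2⟩ := h
      refine (single_regX hn (by omega) hk13 hE (a := A)).congrK fun p => ?_
      constructor
      · intro h3
        exact ⟨A, h1, h2, Set.mem_singleton_iff.1 h3⟩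
      · rintro ⟨A', h3, h4, h5⟩
        obtain rfl : A = A' := by omega
        exact h5
    · refine (RegX.nil (Hole2.TYH k)).congrK fun p => ?_
      constructor
      · intro h3
        exact absurd h3 (Set.notMem_empty _)
      · rintro ⟨A', h3, h4, h5⟩
        exact absurd ⟨A', h3, h4⟩ h
  | a + 2 =>
    by_cases h : ∃ M, n + 5 + 2 * (a + 2) + M = k
    · obtain ⟨M, h1⟩ := h
      refine (pair_regX (a := a + 2) (m := M) hn (by omega) hk13 h1 hE E (fun S F g => hCl (a + 2) M S F g (by omega))).congrK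
        fun p => ?_
      constructor
      · intro h3
        exact ⟨M, h1, h3⟩
      · rintro ⟨M', h3, h4⟩
        obtain rfl : M = M' := by omega
        exact h4
    · refine (RegX.nil (Hole2.TYH k)).congrK fun p => ?_
      constructor
      · intro h3
        exact absurd h3 (Set.notMem_empty _)
      · rintro ⟨M', h3, h4⟩
        exact absurd ⟨M', h3⟩ h

/-- every class is in a component -/
theorem Cp_cov (hn : 1 ≤ n) (hk : n + 7 + m = k) (p : Cyc k) :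
    cl p ∈ {d | ∃ i, d ∈ Cp k n m i} ↔
      cl p ∈ {κ : RD × Multiset ℕ | κ.1 ∈ ({⟨n, cyc (pwX n)⟩, ⟨n + 1, cyc (vX n)⟩} : Set RD)} := by
  constructor
  · rintro ⟨i, h⟩
    rcases Cp_idx i h with ⟨A, M, e1, -⟩ | ⟨a, M, e1, -⟩
    · rw [e1]
      exact Or.inl rfl
    · rw [e1]
      exact Or.inr rfl
  · rintro (h | h)
    · change Rd (Rd p).2 = _ at h
      obtain ⟨a, M, e1, e2⟩ := over_V hn h
      rw [← cl_kC hn] at e2
      rw [e2]
      rcases Nat.lt_or_ge 2 a with ha | ha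
      · rcases Nat.eq_zero_or_pos M with rfl | hM
        · exact ⟨1, a, ha, e1, rfl⟩
        · obtain ⟨M, rfl⟩ : ∃ M', M = M' + 1 := ⟨M - 1, by omega⟩
          obtain ⟨a, rfl⟩ : ∃ a', a = a' + 3 := ⟨a - 3, by omega⟩
          exact ⟨a + 2, M, by omega, Or.inl rfl⟩
      · refine ⟨0, ?_⟩
        obtain rfl | rfl | rfl : a = 0 ∨ a = 1 ∨ a = 2 := by omega
        · obtain rfl : M = m + 5 := by omega
          exact Or.inl rfl
        · obtain rfl : M = m + 3 := by omega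
          exact Or.inr (Or.inl rfl)
        · obtain rfl : M = m + 1 := by omega
          exact Or.inr (Or.inr (Or.inr (Or.inl rfl)))
    · rw [Set.mem_singleton_iff] at h
      change Rd (Rd p).2 = _ at h
      obtain ⟨a, M, e1, e2⟩ := over_X hn h
      rw [← cl_kX hn] at e2
      rw [e2]
      rcases Nat.lt_or_ge 1 a with ha | ha
      · obtain ⟨a, rfl⟩ : ∃ a', a = a' + 2 := ⟨a - 2, by omega⟩
        exact ⟨a + 2, M, by omega, Or.inr rfl⟩
      · refine ⟨0, ?_⟩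
        obtain rfl | rfl : a = 0 ∨ a = 1 := by omega
        · obtain rfl : M = m + 2 := by omega
          exact Or.inr (Or.inr (Or.inl rfl))
        · obtain rfl : M = m := by omega
          exact Or.inr (Or.inr (Or.inr (Or.inr rfl)))

/-- **ONE SOLITON**, from the middle -/
theorem reg_of_mid (hn : 1 ≤ n) (hk13 : 13 ≤ k) (hk : n + 7 + m = k) (hE : Hole2.CEnv n (AEP P) P P)
    (E : VEnv P (cyc (vX n)) KS)
    (hCl : ∀ a M S F g, 1 ≤ a → Hole2.ShC n a M S → IsTri (H1.ch 2) S .nil F g → Typd P P F)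
    (hH : ∀ F g, Hole2.TyH F g → Typd P P F)
    (hmid : RegX P (K5 n m) (Hole2.TYH k)) :
    RegOK P ({⟨n, cyc (pwX n)⟩, ⟨n + 1, cyc (vX n)⟩} : Set RD) := by
  have h1 := (RegX.iUnion (Cp_dis (m := m) hn) (Cp_reg hn hk13 hE E hCl hmid)).congrK (Cp_cov hn hk)
  have key : ∀ (F : Set (Cyc k)) (g : DG k), Hole2.TyH F g → ∀ c ∈ F,
      (Rd (Rd c).2 = ⟨n, cyc (pwX n)⟩ ∨ Rd (Rd c).2 = ⟨n + 1, cyc (vX n)⟩) → ∀ c' ∈ F,
      Rd (Rd c').2 = ⟨n, cyc (pwX n)⟩ := by
    intro F g hF c hc h c' hc'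
    obtain ⟨n', a', f1, f2, f3, f4⟩ := hF.cls
    have hcont : ∀ x ∈ F, ∃ a m, contc x = cC n' a m := by
      intro x hx
      rcases f4 x hx with h5 | ⟨f, h5, h6, -⟩
      · refine ⟨a', 0, ?_⟩
        rw [h5]
        unfold cC
        rw [Multiset.replicate_zero, add_zero]
      · have e : ∑ x, f x = a' - 1 := by omega
        have e2 : n' + 4 + 2 * ∑ x, f x = k := by omega
        refine ⟨a' - 1, 2, ?_⟩
        rcases h6 with rfl | rfl
        · rw [Hole2.contc_Yc f1 e2, e]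
          rfl
        · rw [Hole2.contc_Zc f1 e2, e]
          rfl
    have hnn : n = n' := by
      obtain ⟨a2, m2, h5⟩ := hcont c hc
      rcases h with h | h
      · obtain ⟨a1, m1, -, h6⟩ := over_V hn h
        exact cC_n hn (h6.symm.trans h5)
      · obtain ⟨a1, m1, -, h6⟩ := over_X hn h
        exact absurd ⟨F, g, hF, hc⟩ (TYH_X hn h6)
    subst hnn
    obtain ⟨a2, m2, h5⟩ := hcont c' hc'
    exact (Rd_Ca hn h5).2.2.2.1
  refine RegX.reg h1 {F | (∃ g, Hole2.TyH F g) ∧ ∃ c ∈ F, Rd (Rd c).2 = ⟨n, cyc (pwX n)⟩} ?_ ?_ ?_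
  · rintro F ⟨⟨g, hF⟩, c, hc, h⟩
    refine ⟨hF.ne, hH F g hF, fun c' hc' => ⟨Or.inl ?_, F, g, hF, hc'⟩⟩
    exact key F g hF c hc (Or.inl h) c' hc'
  · rintro F ⟨⟨g, hF⟩, -⟩ F' ⟨⟨g', hF'⟩, -⟩ c hc hc'
    exact (hF.one hF' hc hc').1
  · rintro c hc ⟨F, g, hF, hcF⟩
    have h2 : Rd (Rd c).2 = ⟨n, cyc (pwX n)⟩ ∨ Rd (Rd c).2 = ⟨n + 1, cyc (vX n)⟩ := hc
    exact ⟨F, ⟨⟨g, hF⟩, c, hcF, key F g hF c hcF h2 c hcF⟩, hcF⟩

/-- **ONE SOLITON**, `t = m + 5 ≥ 6` -/
theorem reg_one6 (hn : 2 ≤ n) (hk13 : 13 ≤ k) (hm : 1 ≤ m) (hk : n + 7 + m = k) (hE : Hole2.CEnv n (AEP P) P P)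
    (E : VEnv P (cyc (vX n)) KS) (hT : MTy P n m)
    (hCl : ∀ a M S F g, 1 ≤ a → Hole2.ShC n a M S → IsTri (H1.ch 2) S .nil F g → Typd P P F)
    (hH : ∀ F g, Hole2.TyH F g → Typd P P F) :
    RegOK P ({⟨n, cyc (pwX n)⟩, ⟨n + 1, cyc (vX n)⟩} : Set RD) :=
  reg_of_mid (by omega) hk13 hk hE E hCl hH (mid hn hk13 hm hk hE E hT)

end S5

end Pool.OddHC
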