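import Pool.Agent.Work.MP_8f87b2_h20.FlowZ

/-!
# Section 5: the words of the middle, parities
-/

set_option autoImplicit false

namespace Pool.OddHC

open Finset Equiv BinaryTree Multiset Ring1 Pool.Agent.Work.MP_8f87b2_co Pool.OddHop

namespace S5

variable {k n m j : ℕ} {τ : Type} {P : τ → Set (Cyc k) → DG k → Prop} {KS : BinaryTree Unit → Prop}

/-! ### parities -/

theorem oddF_ch (j m : ℕ) : oddF j m ↔ Odd ((j + m / 2).choose (m / 2)) := by
  have h1 : Nat.card (Ms (2 * j + 1) m) = (2 * j + m).choose m := by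
    have e1 : Nat.card (Ms (2 * j + 1) m) = Nat.card (Sym (ZMod (2 * j + 1)) m) :=
      (Nat.card_congr (Sym.equivNatSumOfFintype (ZMod (2 * j + 1)) m)).symm
    rw [e1, Nat.card_eq_fintype_card, Sym.card_sym_eq_choose, ZMod.card]
    congr 1
    omega
  unfold oddF
  rw [h1]
  have : Fact (Nat.Prime 2) := ⟨Nat.prime_two⟩
  have h2 := Choose.choose_modEq_choose_mod_mul_choose_div_nat (n := 2 * j + m) (k := m) (p := 2)
  have h3 : (2 * j + m) % 2 = m % 2 := by omega
  have h4 : (2 * j + m) / 2 = j + m / 2 := by omega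
  rw [h3, h4, Nat.choose_self, one_mul] at h2
  rw [Nat.odd_iff, Nat.odd_iff]
  constructor
  · intro h
    rw [← h]
    exact h2.symm
  · intro h
    rw [← h]
    exact h2

theorem ch2_mod (N : ℕ) : N.choose 2 % 2 = N / 2 % 2 := by
  induction N with
  | zero => rfl
  | succ N ih =>
    rw [Nat.choose_succ_succ' N 1, Nat.choose_one_right]
    have e : N.choose (1 + 1) = N.choose 2 := rfl
    rw [e]
    obtain ⟨c, hc⟩ : ∃ c, c = N.choose 2 := ⟨_, rfl⟩
    rw [← hc] at ih ⊢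
    clear e hc
    obtain ⟨q, hq⟩ : ∃ q, q = N / 2 := ⟨_, rfl⟩
    rw [← hq] at ih
    rcases Nat.even_or_odd' N with ⟨r, rfl | rfl⟩
    · have h1 : q = r := by omega
      have h2 : (2 * r + 1) / 2 = r := by omega
      rw [h2]
      omega
    · have h1 : q = r := by omega
      have h2 : (2 * r + 1 + 1) / 2 = r + 1 := by omega
      rw [h2]
      omega

theorem ch3_mod (N : ℕ) : N.choose 3 % 2 = if N % 4 = 3 then 1 else 0 := by
  induction N with
  | zero => rfl
  | succ N ih =>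
    have h2 := ch2_mod N
    rw [Nat.choose_succ_succ' N 2]
    have e : N.choose (2 + 1) = N.choose 3 := rfl
    rw [e]
    split_ifs at ih ⊢ <;> omega

theorem odd3 (j : ℕ) : oddF j 3 ↔ j % 2 = 0 := by
  rw [oddF_ch, show 3 / 2 = 1 from rfl, Nat.choose_one_right, Nat.odd_iff]
  omega

theorem odd4 (j : ℕ) : oddF j 4 ↔ (j + 2) / 2 % 2 = 1 := by
  rw [oddF_ch, show 4 / 2 = 2 from rfl, Nat.odd_iff, ch2_mod]

theorem odd5 (j : ℕ) : oddF j 5 ↔ (j + 2) / 2 % 2 = 1 := by
  rw [oddF_ch, show 5 / 2 = 2 from rfl, Nat.odd_iff, ch2_mod]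

theorem odd7 (j : ℕ) : oddF j 7 ↔ (j + 3) % 4 = 3 := by
  rw [oddF_ch, show 7 / 2 = 3 from rfl, Nat.odd_iff, ch3_mod]
  split_ifs with h
  · exact ⟨fun _ => h, fun _ => rfl⟩
  · constructor
    · intro h'
      exact absurd h' (by norm_num)
    · intro h'
      exact absurd h' h

/-- `C_2` odd : `m ≥ 3` -/
theorem c2_m (hm : 1 ≤ m) (h : oddF n 2 ∧ oddF (n + 1 + 2) (m + 1)) : 3 ≤ m := by
  have h1 : n % 2 = 0 := oddF_two_iff.1 h.1
  by_contra h3
  obtain rfl | rfl : m = 1 ∨ m = 2 := by omega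
  · have := oddF_two_iff.1 h.2
    omega
  · have := (odd3 _).1 h.2
    omega

/-- the flow: `m ≠ 2` -/
theorem flow_m (hf : ¬ (oddF (n + 1) (m + 5) ↔ oddF (n + 2) (m + 3))) (hb : ¬ oddF (n + 3) (m + 2)) : m ≠ 2 := by
  rintro rfl
  rw [odd4] at hb
  rw [odd5, odd7] at hf
  apply hf
  constructor
  · intro h
    omega
  · intro h
    omega

/-! ### the window of `X_1` -/

theorem nodeG_z (hn : 2 ≤ n) (hk : n + 8 + m = k) :
    H1.NodeG k 0 .nil (lv (m + 1) (lv2 1 .nil)) (H1.ch (n + 1)) .nil := by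
  have e1 : OddHC.ht (H1.ch (n + 1)) = n + 1 := H1.ch_ht _
  have e2 : OddHC.ht .nil = 0 := rfl
  refine ⟨trivial, ?_, ?_, trivial, H1.bl_H 1 (m + 1), ?_, ?_, ?_, ?_, ?_, ?_⟩
  · obtain ⟨n', rfl⟩ : ∃ n', n = n' + 2 := ⟨n - 2, by omega⟩
    exact H1.hv_ch n'
  · exact fun e => by cases e
  · exact fun e => by cases e
  · rw [e1, e2]; omega
  · rw [e1, e2]; omega
  · rw [e1]; omega
  · intro x hx
    exact absurd hx (Multiset.notMem_zero _)
  · change (app .nil (HB (m + 1) (n + 1) △ .nil)).numNodes + 0 + 3 = k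
    have h1 : (HB (m + 1) (n + 1)).numNodes = (m + 1) + 2 + (n + 1) := by
      unfold HB
      rw [HH_eq, num_app, lp_num]
      change m + 1 + ((BinaryTree.nil △ BinaryTree.nil : BinaryTree Unit).numNodes + (H1.ch (n + 1)).numNodes + 1) = _
      rw [ch_num]
      change m + 1 + (1 + (n + 1) + 1) = _
      omega
    change (HB (m + 1) (n + 1)).numNodes + 0 + 1 + 0 + 3 = k
    omega

theorem win_z (hn : 2 ≤ n) (hk : n + 8 + m = k) :
    ∃ (x : OddHC.X k) (g : DG k), x.1 = zW n (m + 1) ∧ TyAp {cyc x} g := by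
  have hN := nodeG_z hn hk
  have hz : (zW n (m + 1)).numNodes = k := by
    have h1 := hN.size
    change (HB (m + 1) (n + 1)).numNodes + 0 + 1 + 0 + 3 = k at h1
    change (HB (m + 1) (n + 1)).numNodes + (H1.ch 3).numNodes + 1 = k
    rw [ch_num]
    omega
  obtain ⟨x, hx⟩ : ∃ x : OddHC.X k, x.1 = zW n (m + 1) := ⟨⟨_, mem_treesOfNumNodesEq.2 hz⟩, rfl⟩
  refine ⟨x, gad20 (H1.gX 0 .nil (lv (m + 1) (lv2 1 .nil)) (H1.ch (n + 1)) .nil x), hx,
    0, m, 1, .nil, H1.ch (n + 1), .nil, x, hN, Or.inr le_rfl, ?_, rfl⟩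
  have h3 := hN.word x (i := 0) (by norm_num)
  have h4 : x = H1.gX 0 .nil (lv (m + 1) (lv2 1 .nil)) (H1.ch (n + 1)) .nil x 0 := by
    apply Subtype.ext
    rw [h3, hx]
    rfl
  rw [← h4]

/-! ### the words of the link `B - X_1` -/

/-- `[s] ([2] ()) ()^(m-1)` -/
def sF (n m : ℕ) : BinaryTree Unit := app (H1.ch (n + 2)) (app (H1.ch 2) (lp 1) △ lp (m - 1))

/-- `([s-1] (()) ()) ()^m` -/
def sC (n m : ℕ) : BinaryTree Unit := app (H1.ch (n + 1)) (app (H1.ch 2) (lp 1)) △ lp m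

theorem c_sF (hn : 1 ≤ n) (hm : 1 ≤ m) : cont (sF n m) = {n + 2} + {3} + replicate m 1 := by
  unfold sF
  have e : raise ({2} + replicate 1 1 : Multiset ℕ) = {3} + replicate 1 1 := by
    have h1 := raise_top (s := 2) (M := replicate 1 1) (by simp)
    exact h1
  obtain ⟨m', rfl⟩ : ∃ m', m = m' + 1 := ⟨m - 1, by omega⟩
  rw [cont_app, c_ch (by omega), cont_node, cont_app, c_ch (by norm_num), c_lp, c_lp, e]
  rw [show m' + 1 - 1 = m' by omega, Multiset.replicate_one, Multiset.replicate_succ, ← Multiset.singleton_add]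
  abel

theorem c_sC (hn : 1 ≤ n) : cont (sC n m) = {n + 2} + {2} + replicate (m + 1) 1 := by
  unfold sC
  have e : raise ({n + 1} + ({2} + replicate 1 1) : Multiset ℕ) = {n + 2} + ({2} + replicate 1 1) := by
    refine raise_top ?_
    simp
    omega
  rw [cont_node, cont_app, cont_app, c_ch (by omega), c_ch (by norm_num), c_lp, c_lp, e]
  rw [Multiset.replicate_one, Multiset.replicate_succ, ← Multiset.singleton_add]
  abel

theorem lp_two (m : ℕ) : app (lp m) (lp 2) = lp (m + 2) := Hole2.lp_app m 2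

/-- the left K link over a word that is not prime -/
theorem mk_k1 (S : BinaryTree Unit) (hS : 2 ≤ OddHC.ht S) (hk : S.numNodes + 2 = k) :
    ∃ (b c : OddHC.X k) (g : DG k), b.1 = app S (lp 2) ∧ c.1 = lp 1 △ S ∧
      IsTri (lp 1) S .nil {cyc b, cyc c} g ∧ contc (cyc b) = cont S + ({1} + {1}) ∧
      contc (cyc c) = {2} + cont S := by
  have e0 : raise ({1} : Multiset ℕ) = {2} := by
    have := raise_top (s := 1) (M := 0) (by simp)
    rw [add_zero, add_zero] at this
    exact this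
  have e1 : cont (w1 S .nil (lp 1)) = cont S + ({1} + {1}) := by
    rw [cont_w1, cont_nil, raise_zero, c_lp]
    rfl
  have e2 : cont (w1 .nil (lp 1) S) = {2} + cont S := by
    rw [cont_w1, cont_nil, zero_add, c_lp]
    congr 1
  obtain ⟨b, c, g, hb, hc, ht'⟩ := mk_tri (k := k) (lp 1) S .nil (by
      rw [lp_num, show (BinaryTree.nil : BinaryTree Unit).numNodes = 0 from rfl]
      omega) (by
      rw [e1, e2]
      intro e
      have := congrArg (Multiset.count 1) e
      rw [Multiset.count_add, Multiset.count_add, Multiset.count_add] at this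
      simp at this) (by
      rw [ht_w1, ht_w1]
      change max (OddHC.ht S) (max 1 1) = max 0 (max (1 + 1) (OddHC.ht S))
      omega) (by
      rw [ht_w1, ht_w1]
      change max (OddHC.ht S) (max 1 1) < max 1 (max (OddHC.ht S + 1) 0)
      omega)
  refine ⟨b, c, g, hb, ?_, ht', ?_, ?_⟩
  · rw [hc]; rfl
  · rw [contc_cyc, hb, e1]
  · rw [contc_cyc, hc, e2]

/-! ### the member of `X_1` -/

theorem hsF (n : ℕ) : (.nil △ app (pw (n + 1)) (pw 1 △ .nil) : BinaryTree Unit).numNodes = n + 4 := by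
  change 0 + (app (pw (n + 1)) (pw 1 △ .nil)).numNodes + 1 = n + 4
  rw [num_app, pw_num]
  change 0 + (n + 1 + ((pw 1).numNodes + 0 + 1)) + 1 = _
  rw [pw_num]
  omega

/-- `() [s-1] [2]` -/
def uF (n : ℕ) : OddHC.X (n + 4) := ⟨.nil △ app (pw (n + 1)) (pw 1 △ .nil), mem_treesOfNumNodesEq.2 (hsF n)⟩

theorem ins_uF (n : ℕ) (a b : ℕ) :
    ins (uF n).1 (List.replicate (2 * n + 7) 0 ++ [a, b]) =
      app (H1.ch 2) (app (H1.ch (n + 2)) (app (H1.ch 2) (lp a) △ lp b)) := by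
  have h1 := ins_end2 (pw (n + 1)) (pw 1) a b
  rw [pw_num, pw_num, inf1_eq (by exact fun h => by cases h), inf_pw, inf_pw] at h1
  change ins (.nil △ app (pw (n + 1)) (pw 1 △ .nil)) _ = _
  have e4 : List.replicate (2 * n + 7) 0 ++ [a, b] =
      0 :: 0 :: (List.replicate (2 * (n + 1) + 2 * 1 + 1) 0 ++ [a, b]) := by
    rw [show 2 * n + 7 = (2 * (n + 1) + 2 * 1 + 1) + 1 + 1 by omega, List.replicate_succ, List.replicate_succ]
    rfl
  rw [e4, ins, List.headD_cons, List.tail_cons]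
  change lv 0 (ins .nil (bump .nil [0]) △ ins (app (pw (n + 1)) (pw 1 △ .nil))
    (List.replicate (2 * (n + 1) + 2 * 1 + 1) 0 ++ [a, b])) = _
  rw [h1]
  rfl

/-- the near pile and the pile, at the same gap -/
theorem uF_near {w : OddHC.X k} (hw : w.1 = app (H1.ch 2) (sF n m)) : w.1 = ins (uF n).1 (lf fun z : ZMod (2 * (n + 4) + 1) =>
      (if z = ((2 * n + 8 : ℕ) : ZMod (2 * (n + 4) + 1)) then m - 1 else 0) +
        if z = ((2 * n + 8 : ℕ) : ZMod (2 * (n + 4) + 1)) - 1 then 1 else 0) := by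
  have h2 := near_of_list (u := uF n) (w := w) (a := 2 * n + 7) (b := 0) (n := 1) (n' := m - 1) (by omega) (by
    rw [hw]
    have e : List.replicate (2 * n + 7) 0 ++ 1 :: (m - 1) :: List.replicate 0 0 =
        List.replicate (2 * n + 7) 0 ++ [1, m - 1] := by simp
    rw [e, ins_uF]
    rfl)
  rw [h2]
  congr 2
  funext z
  have e : ((2 * n + 8 : ℕ) : ZMod (2 * (n + 4) + 1)) - 1 = ((2 * n + 7 : ℕ) : ZMod (2 * (n + 4) + 1)) := by
    push_cast
    ring
  rw [e]
  exact add_comm _ _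

theorem uF_pile {w : OddHC.X k} (hw : w.1 = app (H1.ch 2) (app (H1.ch (n + 2)) (app (H1.ch 3) (lp m)))) :
    w.1 = ins (uF n).1 (lf fun z : ZMod (2 * (n + 4) + 1) =>
      if z = ((2 * n + 8 : ℕ) : ZMod (2 * (n + 4) + 1)) then m else 0) := by
  rw [hw, ← pile_lf (x := 2 * n + 8) (y := 0) (by omega)]
  have e : List.replicate (2 * n + 8) 0 ++ m :: List.replicate 0 0 = List.replicate (2 * n + 7) 0 ++ [0, m] := by
    rw [show 2 * n + 8 = (2 * n + 7) + 1 by omega, List.replicate_succ', List.append_assoc]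
    simp
  rw [e, ins_uF]
  rfl

end S5

end Pool.OddHC
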