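import Pool.Agent.Work.MP_8f87b2_h20.S5CD
import Pool.Agent.Work.MP_8f87b2_h40.H3c
import Pool.Agent.Work.MP_8f87b2_fin.BlkV

/-!
# Section 5: components with the groups of type H
-/

set_option autoImplicit false

namespace Pool.OddHC

open Finset Equiv BinaryTree Multiset Ring1 Pool.Agent.Work.MP_8f87b2_co Pool.OddHop

variable {i j j2 k : ℕ} {τ : Type} {P : τ → Set (Cyc k) → DG k → Prop}

/-- a set of classes, the T-cycles of `H` are used by other groups -/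
def RegX (P : τ → Set (Cyc k) → DG k → Prop) (K : Set (RD × Multiset ℕ)) (H : Set (Cyc k)) : Prop :=
  ∃ Xs : Set (Set (Cyc k)), (∀ F ∈ Xs, F.Nonempty ∧ Typd P P F ∧ ∀ c ∈ F, cl c ∈ K ∧ c ∉ H) ∧
    (∀ F ∈ Xs, ∀ F' ∈ Xs, ∀ c, c ∈ F → c ∈ F' → F = F') ∧
    ∀ p0 : Cyc k, cl p0 ∈ K → ∃ Gp Gw, ClsOK (AEP P) (cl p0) (inG Xs ∪ H) Gp Gw P P

theorem ClsReg.regX {K : Set (RD × Multiset ℕ)} {H : Set (Cyc k)} (h : ClsReg P K)
    (hH : ∀ c, cl c ∈ K → c ∉ H) : RegX P K H := by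
  obtain ⟨Xs, h1, h2, h3⟩ := h
  refine ⟨Xs, fun F hF => ?_, h2, fun p0 hp0 => ?_⟩
  · obtain ⟨a1, a2, a3⟩ := h1 F hF
    exact ⟨a1, a2, fun c hc => ⟨a3 c hc, hH c (a3 c hc)⟩⟩
  · obtain ⟨Gp, Gw, hC⟩ := h3 p0 hp0
    refine ⟨Gp, Gw, hC.congr fun c hc => ?_⟩
    constructor
    · exact Or.inl
    · rintro (h | h)
      · exact h
      · exact absurd h (hH c (by rw [hc]; exact hp0))

theorem RegX.iUnion {ι : Type} {K : ι → Set (RD × Multiset ℕ)} {H : Set (Cyc k)}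
    (hd : ∀ i i' d, d ∈ K i → d ∈ K i' → i = i')
    (h : ∀ i, RegX P (K i) H) : RegX P {d | ∃ i, d ∈ K i} H := by
  choose Xs h1 h2 h3 using h
  refine ⟨{F | ∃ i, F ∈ Xs i}, ?_, ?_, ?_⟩
  · rintro F ⟨i, hF⟩
    obtain ⟨a1, a2, a3⟩ := h1 i F hF
    exact ⟨a1, a2, fun c hc => ⟨⟨i, (a3 c hc).1⟩, (a3 c hc).2⟩⟩
  · rintro F ⟨i, hF⟩ F' ⟨i', hF'⟩ c hc hc'
    have e1 := ((h1 i F hF).2.2 c hc).1
    have e2 := ((h1 i' F' hF').2.2 c hc').1
    obtain rfl := hd i i' _ e1 e2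
    exact h2 i F hF F' hF' c hc hc'
  · rintro p0 ⟨i, hi⟩
    obtain ⟨Gp, Gw, hC⟩ := h3 i p0 hi
    refine ⟨Gp, Gw, hC.congr fun c hc => ?_⟩
    rw [← hc] at hi
    constructor
    · rintro (⟨F, hF, hcF⟩ | h)
      · exact Or.inl ⟨F, ⟨i, hF⟩, hcF⟩
      · exact Or.inr h
    · rintro (⟨F, ⟨i', hF⟩, hcF⟩ | h)
      · obtain rfl := hd i i' _ hi ((h1 i' F hF).2.2 c hcF).1
        exact Or.inl ⟨F, hF, hcF⟩
      · exact Or.inr h

theorem RegX.reg {K : Set (RD × Multiset ℕ)} {H : Set (Cyc k)} (h : RegX P K H) (G : Set (Set (Cyc k)))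
    (hG : ∀ F ∈ G, F.Nonempty ∧ Typd P P F ∧ ∀ c ∈ F, cl c ∈ K ∧ c ∈ H)
    (hd : ∀ F ∈ G, ∀ F' ∈ G, ∀ c, c ∈ F → c ∈ F' → F = F')
    (hH : ∀ c, cl c ∈ K → c ∈ H → c ∈ inG G) : ClsReg P K := by
  obtain ⟨Xs, h1, h2, h3⟩ := h
  refine ⟨Xs ∪ G, ?_, ?_, ?_⟩
  · rintro F (hF | hF)
    · obtain ⟨a1, a2, a3⟩ := h1 F hF
      exact ⟨a1, a2, fun c hc => (a3 c hc).1⟩
    · obtain ⟨a1, a2, a3⟩ := hG F hF
      exact ⟨a1, a2, fun c hc => (a3 c hc).1⟩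
  · rintro F (hF | hF) F' (hF' | hF') c hc hc'
    · exact h2 F hF F' hF' c hc hc'
    · exact absurd ((hG F' hF').2.2 c hc').2 ((h1 F hF).2.2 c hc).2
    · exact absurd ((hG F hF).2.2 c hc).2 ((h1 F' hF').2.2 c hc').2
    · exact hd F hF F' hF' c hc hc'
  · intro p0 hp0
    obtain ⟨Gp, Gw, hC⟩ := h3 p0 hp0
    refine ⟨Gp, Gw, hC.congr fun c hc => ?_⟩
    rw [← hc] at hp0
    constructor
    · rintro (⟨F, hF, hcF⟩ | h)
      · exact ⟨F, Or.inl hF, hcF⟩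
      · obtain ⟨F, hF, hcF⟩ := hH c hp0 h
        exact ⟨F, Or.inr hF, hcF⟩
    · rintro ⟨F, hF | hF, hcF⟩
      · exact Or.inl ⟨F, hF, hcF⟩
      · exact Or.inr ((hG F hF).2.2 c hcF).2

/-- the class of content `μ`: the groups of type H and `D` are left out -/
def CH (P : τ → Set (Cyc k) → DG k → Prop) (μ : Multiset ℕ) (D : Set (Cyc k)) : Prop :=
  ∀ (p0 : Cyc k) (X : Set (Cyc k)), contc p0 = μ → (∀ c, contc c = μ → (c ∈ X ↔ c ∈ Hole2.TYH k ∨ c ∈ D)) →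
    ∃ Gp Gw, ClsOK (AEP P) (cl p0) X Gp Gw P P

theorem CH.congr {μ : Multiset ℕ} {D D' : Set (Cyc k)} (h : CH P μ D) (hD : ∀ c, contc c = μ → (c ∈ D ↔ c ∈ D')) :
    CH P μ D' := fun p0 X h0 hX => h p0 X h0 fun c hc => (hX c hc).trans (or_congr Iff.rfl (hD c hc).symm)

theorem CD.toCH {μ : Multiset ℕ} {D : Set (Cyc k)} (h : CD P μ D) (hH : ∀ c, contc c = μ → c ∉ Hole2.TYH k) :
    CH P μ D := fun p0 X h0 hX => h p0 X h0 fun c hc =>
  (hX c hc).trans ⟨fun h => h.resolve_left (hH c hc), Or.inr⟩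

/-- a set of links -/
theorem regX_gen {K : Set (RD × Multiset ℕ)} {Xs : Set (Set (Cyc k))}
    (h1 : ∀ F ∈ Xs, F.Nonempty ∧ Typd P P F ∧ ∀ c ∈ F, cl c ∈ K ∧ c ∉ Hole2.TYH k)
    (h2 : ∀ F ∈ Xs, ∀ F' ∈ Xs, ∀ c, c ∈ F → c ∈ F' → F = F')
    (h3 : ∀ p0 : Cyc k, cl p0 ∈ K → CH P (contc p0) (inG Xs)) : RegX P K (Hole2.TYH k) :=
  ⟨Xs, h1, h2, fun p0 hp0 => h3 p0 hp0 p0 _ rfl fun c _ => ⟨fun h => h.symm, fun h => h.symm⟩⟩

theorem regX0 {K : Set (RD × Multiset ℕ)} (h : ∀ p0 : Cyc k, cl p0 ∈ K → CH P (contc p0) ∅) :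
    RegX P K (Hole2.TYH k) := by
  refine regX_gen (Xs := ∅) (fun F hF => absurd hF (Set.notMem_empty F)) (fun F hF => absurd hF (Set.notMem_empty F))
    fun p0 hp0 => ?_
  rw [inG_empty']
  exact h p0 hp0

theorem regX1 {K : Set (RD × Multiset ℕ)} {F : Set (Cyc k)} (hne : F.Nonempty) (hty : Typd P P F)
    (hcl : ∀ c ∈ F, cl c ∈ K ∧ c ∉ Hole2.TYH k) (h : ∀ p0 : Cyc k, cl p0 ∈ K → CH P (contc p0) F) :
    RegX P K (Hole2.TYH k) := by
  refine regX_gen (Xs := {F}) ?_ ?_ fun p0 hp0 => ?_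
  · rintro F' hF'
    rw [Set.mem_singleton_iff] at hF'
    rw [hF']
    exact ⟨hne, hty, hcl⟩
  · rintro F' hF' F'' hF'' c _ _
    rw [Set.mem_singleton_iff] at hF' hF''
    rw [hF', hF'']
  · rw [inG_single]
    exact h p0 hp0

namespace S5

variable {n a m : ℕ} {p : Cyc k}

theorem n1_cC (n a m : ℕ) : (cC n a m).count 1 = m := by
  unfold cC
  rw [Multiset.count_add, Multiset.count_add, Multiset.count_singleton, Multiset.count_replicate,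
    Multiset.count_replicate_self]
  simp

theorem p3_rep (a b : ℕ) (hb : b < 3) : (replicate a b).countP (fun x => 3 ≤ x) = 0 := by
  rw [Multiset.countP_eq_zero]
  intro x hx
  rw [Multiset.eq_of_mem_replicate hx]
  omega

theorem p3_one (b : ℕ) (hb : 3 ≤ b) : ({b} : Multiset ℕ).countP (fun x => 3 ≤ x) = 1 := by
  rw [show ({b} : Multiset ℕ) = b ::ₘ 0 from rfl, Multiset.countP_cons_of_pos _ hb]
  rfl

theorem p3_cC (hn : 1 ≤ n) (a m : ℕ) : (cC n a m).countP (fun x => 3 ≤ x) = 1 := by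
  unfold cC
  rw [Multiset.countP_add, Multiset.countP_add, p3_rep _ _ (by norm_num), p3_rep _ _ (by norm_num),
    p3_one _ (by omega)]

theorem p3_cX (hn : 1 ≤ n) (a m : ℕ) : (cX n a m).countP (fun x => 3 ≤ x) = 2 := by
  unfold cX
  rw [Multiset.countP_add, Multiset.countP_add, Multiset.countP_add, p3_rep _ _ (by norm_num),
    p3_rep _ _ (by norm_num), p3_one _ (by omega), p3_one _ (by norm_num)]

/-- the contents of the groups of type H -/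
theorem TYH_cont {c : Cyc k} (h : c ∈ Hole2.TYH k) : ∃ n' a', 1 ≤ n' ∧ (contc c = cC n' a' 0 ∨ contc c = cC n' a' 2) := by
  obtain ⟨S, g, hS, hc⟩ := h
  obtain ⟨n', a', h1, h2, h3, h4⟩ := hS.cls
  rcases h4 c hc with h5 | ⟨f, h5, h6, -⟩
  · refine ⟨n', a', h1, Or.inl ?_⟩
    rw [h5]
    unfold cC
    rw [Multiset.replicate_zero, add_zero]
  · refine ⟨n', a' - 1, h1, Or.inr ?_⟩
    have e : ∑ x, f x = a' - 1 := by omega
    have e2 : n' + 4 + 2 * ∑ x, f x = k := by omega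
    rcases h6 with rfl | rfl
    · rw [Hole2.contc_Yc h1 e2, e]
      rfl
    · rw [Hole2.contc_Zc h1 e2, e]
      rfl

theorem TYH_m (hc : contc p = cC n a m) (h : p ∈ Hole2.TYH k) : m = 0 ∨ m = 2 := by
  obtain ⟨n', a', h1, h2 | h2⟩ := TYH_cont h
  · left
    rw [hc] at h2
    have := congrArg (Multiset.count 1) h2
    rw [n1_cC, n1_cC] at this
    exact this
  · right
    rw [hc] at h2
    have := congrArg (Multiset.count 1) h2
    rw [n1_cC, n1_cC] at this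
    exact this

theorem TYH_X (hn : 1 ≤ n) (hc : contc p = cX n a m) : p ∉ Hole2.TYH k := by
  intro h
  obtain ⟨n', a', h1, h2 | h2⟩ := TYH_cont h
  · rw [hc] at h2
    have := congrArg (Multiset.countP (fun x => 3 ≤ x)) h2
    rw [p3_cX hn, p3_cC h1] at this
    omega
  · rw [hc] at h2
    have := congrArg (Multiset.countP (fun x => 3 ≤ x)) h2
    rw [p3_cX hn, p3_cC h1] at this
    omega

/-- a member at an even level `≥ 2` is in no group of type H -/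
theorem lev_TYH (hn : 1 ≤ n) (hc : contc p = cC n a 2) (h : LevTwo p) : p ∉ Hole2.TYH k := by
  obtain ⟨j, u, x, d, w, h1, h2, h3, h4, h5⟩ := h
  have hR : Rd p = ⟨j, cyc u⟩ := by
    rw [← h4]
    exact Rd_ins (lf_length _) h5
  obtain ⟨g1, g2, g3, g4, g5⟩ := Rd_Ca hn hc
  rw [hR] at g1 g2 g4 g5
  change j = _ at g1
  change Rd (cyc u) = _ at g4
  change (contc (cyc u)).count 1 = a at g5
  obtain ⟨F, hj, hu, hF⟩ := over_u (k := j) (j := n) hn (pwX n) (cyc u) g4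
  have hcu : cyc (phi (pwX n) F hj) = cyc u := hu.symm
  have hk2 : j + pkn u.1 + 2 = k := by
    have h6 := word_phi h5
    have h7 : ∑ z : ZMod (2 * j + 1), ((if z = x then 1 else 0) + if z = x + (d : ZMod (2 * j + 1)) then 1 else 0) = 2 := by
      rw [Finset.sum_add_distrib, Finset.sum_ite_eq', Finset.sum_ite_eq', if_pos (Finset.mem_univ _),
        if_pos (Finset.mem_univ _)]
    rw [h7] at h6
    exact h6
  have hk3 : j + pkn (phi (pwX n) F hj).1 + 2 = k := by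
    have e1 : pkn (phi (pwX n) F hj).1 = pkn u.1 := by rw [← pkc_cyc, hcu, pkc_cyc]
    rw [e1]
    exact hk2
  obtain ⟨t, ht⟩ := tc_phase hcu.symm hk3 hk2
  have h8 : p = tc (phi (pwX n) F hj) hk3 (x + t) d := by
    rw [← ht, ← h4]
    exact tc_word u hk2 x d h5
  rw [h8]
  exact Hole2.lev_mem hn F (hF.trans g5) hj hk3 (x + t) h1 h2

/-! ### the classes `C_a`, `a ≥ 2` -/

theorem C_ch0 (hk13 : 13 ≤ k) (hn : 1 ≤ n) (ha : 2 ≤ a) (hE : Hole2.CEnv n (AEP P) P P)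
    (ho : 1 ≤ m → ¬ (oddF n a ∧ oddF (n + 1 + a) m)) : CH P (cC n a m) ∅ := by
  intro p0 X h0 hX
  refine Hole2.C_plain hk13 hn ha h0 hE X (fun c hc => ?_) ho
  have h1 : contc c = cC n a m := by
    rw [← h0]
    exact congrArg Prod.snd hc
  rw [hX c h1]
  constructor
  · rintro (h | h)
    · exact ⟨h, TYH_m h1 h⟩
    · exact absurd h (Set.notMem_empty _)
  · rintro ⟨h, _⟩
    exact Or.inl h

theorem C_ch1 (hk13 : 13 ≤ k) (hn : 1 ≤ n) (ha : 2 ≤ a) (hm : 1 ≤ m) (hE : Hole2.CEnv n (AEP P) P P)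
    (ho : oddF n a ∧ oddF (n + 1 + a) m) {z : Cyc k} (hz : contc z = cC n a m)
    (h2 : a = 2 → ∀ U : Cyc (n + 1 + a), Rd z = ⟨n + 1 + a, U⟩ → IsTwo U)
    (h1 : m = 1 → 3 ≤ a → ∀ U : Cyc (n + 1 + a), Rd z = ⟨n + 1 + a, U⟩ → L1.NP n U)
    (hl : m = 2 → LevTwo z) (h3 : m = 3 → ∀ F ∈ Hole2.CCg k n, z ∉ F) : CH P (cC n a m) {z} := by
  intro p0 X h0 hX
  refine Hole2.cls_C hk13 hn ha h0 hE X {z} (fun c hc => ?_) (Or.inr ⟨z, rfl, hm, ho, ?_, h2, h1, hl, h3⟩)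
  · have h1 : contc c = cC n a m := by
      rw [← h0]
      exact congrArg Prod.snd hc
    rw [hX c h1]
    constructor
    · rintro (h | h)
      · exact Or.inl ⟨h, TYH_m h1 h⟩
      · exact Or.inr h
    · rintro (⟨h, _⟩ | h)
      · exact Or.inl h
      · exact Or.inr h
  · exact cl_Ca hn hz h0

theorem C_chS (hk13 : 13 ≤ k) (hn : 1 ≤ n) (ha : 1 ≤ a) (hE : Hole2.CEnv n (AEP P) P P)
    {S : BinaryTree Unit} (hS : Hole2.ShC n a m S) {b : OddHC.X k}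
    (hb : b.1 = app S (.nil △ H1.ch 2)) (ho : oddF n (a + 1) ∧ oddF (n + 1 + (a + 1)) (m + 1)) :
    CH P (cC n (a + 1) (m + 1)) {cyc b} := by
  intro p0 X h0 hX
  refine Hole2.C_guest hk13 hn ha hS hb h0 hE X (fun c hc => ?_) ho
  have h1 : contc c = cC n (a + 1) (m + 1) := by
    rw [← h0]
    exact congrArg Prod.snd hc
  rw [hX c h1]
  constructor
  · rintro (h | h)
    · refine Or.inl ⟨h, ?_⟩
      rcases TYH_m h1 h with h2 | h2
      · omega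
      · omega
    · exact Or.inr h
  · rintro (⟨h, _⟩ | h)
    · exact Or.inl h
    · exact Or.inr h

end S5

end Pool.OddHC
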