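import Pool.Agent.Work.MP_8f87b2_h20.S5Flow

/-!
# Section 5: the middle `{H, C_1, C_2, B, X_1}`, `t = m + 5 ≥ 6`
-/

set_option autoImplicit false

namespace Pool.OddHC

open Finset Equiv BinaryTree Multiset Ring1 Pool.Agent.Work.MP_8f87b2_co Pool.OddHop

variable {k : ℕ} {τ : Type} {P : τ → Set (Cyc k) → DG k → Prop}

theorem RegX.congrK {K K' : Set (RD × Multiset ℕ)} {H : Set (Cyc k)} (h : RegX P K H)
    (hK : ∀ p : Cyc k, cl p ∈ K ↔ cl p ∈ K') : RegX P K' H := by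
  obtain ⟨Xs, h1, h2, h3⟩ := h
  refine ⟨Xs, fun F hF => ?_, h2, fun p0 hp0 => h3 p0 ((hK p0).2 hp0)⟩
  obtain ⟨a1, a2, a3⟩ := h1 F hF
  exact ⟨a1, a2, fun c hc => ⟨(hK c).1 (a3 c hc).1, (a3 c hc).2⟩⟩

namespace S5

variable {n m j : ℕ} {KS : BinaryTree Unit → Prop}

/-- the types of the links of the middle -/
structure MTy (P : τ → Set (Cyc k) → DG k → Prop) (n m : ℕ) : Prop where
  ek : ∀ F g, TyEk F g → ∃ t, P t F g
  s5 : ∀ F g, TyS5l F g → Typd P P F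
  cl : ∀ S F g, Hole2.ShC n 1 m S → IsTri (H1.ch 2) S .nil F g → Typd P P F
  clp : ∀ F g, IsTri (H1.ch 2) (app (H1.ch (n + 1)) (lp (m + 2)) △ .nil) .nil F g → Typd P P F
  km1 : ∀ F g, IsTri (lp 1) (sC n m) .nil F g → Typd P P F
  kmf : ∀ F g, IsTri (lp 1) (sF n m) .nil F g → Typd P P F
  ap : ∀ F g, TyAp F g → Typd P P F

/-! ### the classes -/

theorem cC0 (n t : ℕ) : cC n 0 t = {n + 2} + replicate t 1 := by
  unfold cC
  rw [Multiset.replicate_zero, add_zero]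

theorem H_0 (hn : 1 ≤ n) (hek : ∀ F g, TyEk F g → ∃ t, P t F g) (hev : ¬ oddF (n + 1) (m + 5)) :
    CD P (cC n 0 (m + 5)) ∅ := by
  intro p0 X h0 hX
  exact hook_even' hek hn (by omega) (by rw [h0, cC0]) X hev fun p hp h =>
    absurd ((hX p (by rw [hp, cC0])).1 h) (Set.notMem_empty p)

theorem H_1 (hn : 1 ≤ n) (hek : ∀ F g, TyEk F g → ∃ t, P t F g) (hod : oddF (n + 1) (m + 5)) {w : OddHC.X k}
    (hw : w.1 = app (H1.ch (n + 2)) (lp (m + 5))) : CD P (cC n 0 (m + 5)) {cyc w} := by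
  intro p0 X h0 hX
  exact hook_odd' hek hn (by omega) (by rw [h0, cC0]) X hod hw fun p hp => hX p (by rw [hp, cC0])

theorem C1_0 (hn : 1 ≤ n) (hm : 1 ≤ m) (hE : Hole2.CEnv n (AEP P) P P) (hev : ¬ oddF (n + 2) (m + 3)) :
    CD P (cC n 1 (m + 3)) ∅ := by
  intro p0 X h0 hX
  exact C1_even hn h0 (hE.cls h0 (by omega)) X hev fun p hp h =>
    absurd ((hX p hp).1 h) (Set.notMem_empty p)

theorem C1_1 (hn : 1 ≤ n) (hm : 1 ≤ m) (hE : Hole2.CEnv n (AEP P) P P) (hod : oddF (n + 2) (m + 3)) {q : Cyc k}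
    (hq : contc q = cC n 1 (m + 3)) : CD P (cC n 1 (m + 3)) {q} := by
  intro p0 X h0 hX
  exact C1_one hn (by omega) h0 (hE.cls h0 (by omega)) X hod hq fun p hp => hX p hp

theorem C1_2 (hn : 1 ≤ n) (hm : 1 ≤ m) (hE : Hole2.CEnv n (AEP P) P P) (hev : ¬ oddF (n + 2) (m + 3))
    {u u' : OddHC.X (n + 2)} {p y : OddHC.X k} (hu : cont u.1 = {n + 1} + {1}) (hu' : cont u'.1 = {n + 1} + {1})
    (hp : Pile p u' (m + 3)) (hy : Near y u (m + 3)) : CD P (cC n 1 (m + 3)) {cyc p, cyc y} := by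
  intro p0 X h0 hX
  exact (C1_two hn (by omega) h0 (hE.cls h0 (by omega)) X hev hu hu' hp hy fun c hc => hX c hc).1

theorem C1_ne (hn : 1 ≤ n) {u u' : OddHC.X (n + 2)} {p y : OddHC.X k} (hu : cont u.1 = {n + 1} + {1})
    (hu' : cont u'.1 = {n + 1} + {1}) (hp : Pile p u' (m + 3)) (hy : Near y u (m + 3)) : cyc p ≠ cyc y := by
  have hcu : cyc u' = cyc u := Uq_a1 n hn _ _ (by rw [contc_cyc, hu']) (by rw [contc_cyc, hu])
  have hU : RotU u := rotU_one hn (Rd_a1 hn (by rw [contc_cyc, hu]))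
  exact pn_ne (by omega) hU hcu (by omega) hp hy

/-- a class of content `μ` with `D` left out, for `RegX` -/
theorem CD.cxu {μ : Multiset ℕ} {D Z : Set (Cyc k)} (h : CD P μ D) (hT : ∀ c, contc c = μ → c ∉ Hole2.TYH k)
    (hZ : ∀ c, contc c = μ → (c ∈ Z ↔ c ∈ D)) : CX P μ (Hole2.TYH k ∪ Z) := by
  refine (h.toCH hT).cx fun c hc => ?_
  rw [Set.mem_union, hZ c hc]

theorem CH.cxu {μ : Multiset ℕ} {D Z : Set (Cyc k)} (h : CH P μ D)
    (hZ : ∀ c, contc c = μ → (c ∈ Z ↔ c ∈ D)) : CX P μ (Hole2.TYH k ∪ Z) := by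
  refine h.cx fun c hc => ?_
  rw [Set.mem_union, hZ c hc]

/-- a T-cycle of another content -/
theorem z_off {μ ν : Multiset ℕ} {z : Cyc k} (hz : contc z = ν) (h : ν ≠ μ) :
    ∀ c, contc c = μ → (c ∈ ({z} : Set (Cyc k)) ↔ c ∈ (∅ : Set (Cyc k))) := by
  intro c hc
  constructor
  · intro h'
    rw [Set.mem_singleton_iff.1 h', hz] at hc
    exact absurd hc h
  · intro h'
    exact absurd h' (Set.notMem_empty c)

theorem z_on {z : Cyc k} {μ : Multiset ℕ} : ∀ c, contc c = μ → (c ∈ ({z} : Set (Cyc k)) ↔ c ∈ ({z} : Set (Cyc k))) :=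
  fun _ _ => Iff.rfl

theorem e_on {μ : Multiset ℕ} : ∀ c : Cyc k, contc c = μ → (c ∈ (∅ : Set (Cyc k)) ↔ c ∈ (∅ : Set (Cyc k))) :=
  fun _ _ => Iff.rfl

theorem C_T {a : ℕ} (h0 : m ≠ 0) (h2 : m ≠ 2) : ∀ c : Cyc k, contc c = cC n a m → c ∉ Hole2.TYH k := by
  intro c hc h
  rcases TYH_m hc h with h1 | h1
  · exact h0 h1
  · exact h2 h1

theorem X_T {a : ℕ} (hn : 1 ≤ n) : ∀ c : Cyc k, contc c = cX n a m → c ∉ Hole2.TYH k := fun _ hc => TYH_X hn hc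

/-- the classes `C_2`, `B`, `X_1` -/
noncomputable def K3 (n m : ℕ) : Set (RD × Multiset ℕ) := insert (kX n 0 (m + 2)) {kC n 2 (m + 1), kX n 1 m}

theorem kne1 (n m : ℕ) (hn : 1 ≤ n) : kX n 0 (m + 2) ∉ ({kC n 2 (m + 1), kX n 1 m} : Set (RD × Multiset ℕ)) := by
  rintro (h | h)
  · exact cC_ne_cX _ _ _ _ _ (congrArg Prod.snd h).symm
  · exact cX_ne hn (by norm_num) (congrArg Prod.snd (Set.mem_singleton_iff.1 h))

theorem kne2 (n m : ℕ) : kC n 2 (m + 1) ∉ ({kX n 1 m} : Set (RD × Multiset ℕ)) := by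
  intro h
  exact cC_ne_cX _ _ _ _ _ (congrArg Prod.snd (Set.mem_singleton_iff.1 h))

/-- the three classes with guests -/
theorem reg3 (hn : 1 ≤ n) {H : Set (Cyc k)} (hB : CX P (cX n 0 (m + 2)) H) (hC : CX P (cC n 2 (m + 1)) H)
    (hX : CX P (cX n 1 m) H) : RegX P (K3 n m) H := by
  have h1 : RegX P ({kX n 1 m} : Set (RD × Multiset ℕ)) H := by
    have h := RegX.peel (K := ∅) (H := H) (d := kX n 1 m) (fun p => cl_kX hn) (Set.notMem_empty _) (RegX.nil H) hX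
    have e : insert (kX n 1 m) (∅ : Set (RD × Multiset ℕ)) = {kX n 1 m} := by simp
    rwa [e] at h
  exact RegX.peel (fun p => cl_kX hn) (kne1 n m hn) (RegX.peel (fun p => cl_kC hn) (kne2 n m) h1 hC) hB

theorem pairX (hn : 1 ≤ n) (hk13 : 13 ≤ k) (hk : n + 7 + m = k) (hE : Hole2.CEnv n (AEP P) P P)
    (E : VEnv P (cyc (vX n)) KS) (hT : MTy P n m) : RegX P {kC n 2 (m + 1), kX n 1 m} (Hole2.TYH k) :=
  pair_regX hn le_rfl hk13 (by omega) hE E hT.cl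

theorem K22_two (hn : 1 ≤ n) {w : OddHC.X k} {q : ℕ}
    (hw : w.1 = app (H1.ch 2) (lp 1 △ app (H1.ch (n + 2)) (lp q))) :
    ∀ U : Cyc (n + 1 + 2), Rd (cyc w) = ⟨n + 1 + 2, U⟩ → IsTwo U := by
  intro U hU
  have h1 : L1.Wd (pw 1) 0 (H1.ch 2) := Hole2.wd_ch 0
  have h2 : L1.Wd (pw (n + 1)) 0 (H1.ch (n + 2)) := Hole2.wd_ch n
  have h3 := h1.app (h1.app (Hole2.wd_beads h2 q))
  have hr : (app (pw 1) (app (pw 1) (pw (n + 1)))).numNodes = n + 1 + 2 := by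
    rw [num_app, num_app, pw_num, pw_num]
    omega
  obtain ⟨u, hu⟩ : ∃ u : OddHC.X (n + 1 + 2), u.1 = app (pw 1) (app (pw 1) (pw (n + 1))) :=
    ⟨⟨_, mem_treesOfNumNodesEq.2 hr⟩, rfl⟩
  have h4 : Rd (cyc w) = ⟨n + 1 + 2, cyc u⟩ := Hole2.wd_rd (w := w) (by rw [hw]; exact h3) hu
  rw [h4] at hU
  have h5 : cyc u = U := eq_of_heq (Sigma.mk.inj_iff.1 hU).2
  rw [← h5]
  have h6 : L1.Wd (app .nil (pw n)) (replicate 2 0) (app (lp 2) (H1.ch (n + 1))) :=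
    Hole2.wd_free (Hole2.wd_lp 2) (Hole2.wd_ch' hn)
  refine Hole2.wd_two (r := pw n) (x := 0) (d := 0) ?_ (Nat.zero_le _) rfl
  rw [ch_eq] at h6
  rw [hu]
  exact h6

theorem sC_two (hn : 2 ≤ n) {w : OddHC.X k} (hw : w.1 = lp 1 △ sC n m) :
    ∀ U : Cyc (n + 1 + 2), Rd (cyc w) = ⟨n + 1 + 2, U⟩ → IsTwo U := by
  intro U hU
  have h1 : L1.Wd (pw 1) 0 (H1.ch 2) := Hole2.wd_ch 0
  have h2 : L1.Wd (app (pw n) (pw 1)) 0 (app (H1.ch (n + 1)) (H1.ch 2)) :=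
    Hole2.wd_free (Hole2.wd_ch' (by omega)) h1
  have h3 := (Hole2.wd_beads h2 1).wrap (Hole2.app_nn (Hole2.pw_nn (by omega)))
  have h4 := h1.app (Hole2.wd_beads h3 m)
  have hr : (app (pw 1) (app (pw n) (pw 1) △ .nil)).numNodes = n + 1 + 2 := by
    rw [num_app, pw_num]
    change 1 + ((app (pw n) (pw 1)).numNodes + 0 + 1) = _
    rw [num_app, pw_num, pw_num]
    omega
  obtain ⟨u, hu⟩ : ∃ u : OddHC.X (n + 1 + 2), u.1 = app (pw 1) (app (pw n) (pw 1) △ .nil) :=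
    ⟨⟨_, mem_treesOfNumNodesEq.2 hr⟩, rfl⟩
  have h5 : Rd (cyc w) = ⟨n + 1 + 2, cyc u⟩ := Hole2.wd_rd (w := w) (by
    rw [hw]
    have e : lp 1 △ sC n m = app (H1.ch 2) (app (app (app (H1.ch (n + 1)) (H1.ch 2)) (lp 1) △ .nil) (lp m)) := by
      unfold sC
      rw [app_assoc']
      rfl
    rw [e]
    exact h4) hu
  rw [h5] at hU
  have h6 : cyc u = U := eq_of_heq (Sigma.mk.inj_iff.1 hU).2
  rw [← h6]
  obtain ⟨n', rfl⟩ : ∃ n', n = n' + 1 := ⟨n - 1, by omega⟩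
  have h7 : L1.Wd (app .nil (pw (n' + 1))) (replicate 1 0 + ({2 * n' + 1} : Multiset ℕ).map (· + 2 * 0))
      (app (lp 1) (app (H1.ch (n' + 1)) (lp 1) △ .nil)) :=
    (Hole2.wd_lp 1).app (Hole2.wd_pb (by omega))
  refine ⟨_, pwX (n' + 1), -1 - 1, 2, u, by omega, rfl, rfl, ?_⟩
  rw [ch_eq] at h7
  have h8 := Hole2.wd_word (w := u.1) (r := pw (n' + 1)) (M := {0} + {2 * n' + 1}) (by
    rw [hu]
    exact h7) (u := pwX (n' + 1)) rfl
  rw [h8]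
  congr 2
  funext z
  have e1 : z.val = 0 ↔ z = -1 - 1 + ((2 : ℕ) : ZMod (2 * (n' + 1) + 1)) := by
    have : (-1 - 1 + ((2 : ℕ) : ZMod (2 * (n' + 1) + 1))) = 0 := by push_cast; ring
    rw [this]
    exact ZMod.val_eq_zero z
  have e2 := Hole2.val_last2 (n := n' + 1) (by omega) z
  rw [show 2 * (n' + 1) - 1 = 2 * n' + 1 by omega] at e2
  rw [Multiset.count_add, Multiset.count_singleton, Multiset.count_singleton, add_comm]
  simp only [e1, e2]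

end S5

end Pool.OddHC
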