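import Pool.Agent.Work.MP_8f87b2_h20.S5Mid

/-!
# Section 5: the middle, the links
-/

set_option autoImplicit false

namespace Pool.OddHC

open Finset Equiv BinaryTree Multiset Ring1 Pool.Agent.Work.MP_8f87b2_co Pool.OddHop

variable {k : ℕ} {τ : Type} {P : τ → Set (Cyc k) → DG k → Prop}

theorem CH.un {μ : Multiset ℕ} {D Z : Set (Cyc k)} (h : CH P μ D)
    (hZ : ∀ c, contc c = μ → (c ∈ Z ↔ c ∈ D)) : CX P μ (Hole2.TYH k ∪ Z) := S5.CH.cxu h hZ

theorem CD.un {μ : Multiset ℕ} {D Z : Set (Cyc k)} (h : CD P μ D) (hT : ∀ c, contc c = μ → c ∉ Hole2.TYH k)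
    (hZ : ∀ c, contc c = μ → (c ∈ Z ↔ c ∈ D)) : CX P μ (Hole2.TYH k ∪ Z) := S5.CD.cxu h hT hZ

namespace S5

variable {n m j : ℕ} {KS : BinaryTree Unit → Prop}

theorem CX0 (hn : 1 ≤ n) (hk : n + 7 + m = k) (E : VEnv P (cyc (vX n)) KS) :
    CH P (cX n 1 m) ∅ := XC0 hn E le_rfl (by omega)

theorem cyc_cX (hn : 1 ≤ n) {z : Cyc k} {a b : ℕ} (hz : contc z = cX n a b) : cl z = kX n a b := (cl_kX hn).2 hz

theorem cyc_cC (hn : 1 ≤ n) {z : Cyc k} {a b : ℕ} (hz : contc z = cC n a b) : cl z = kC n a b := (cl_kC hn).2 hz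

theorem tyh (k : ℕ) : Hole2.TYH k ∪ ∅ = Hole2.TYH k := Set.union_empty _

/-- **C_1 satisfied** -/
theorem mid0 (hn : 2 ≤ n) (hk13 : 13 ≤ k) (hm : 1 ≤ m) (hk : n + 7 + m = k) (hE : Hole2.CEnv n (AEP P) P P)
    (E : VEnv P (cyc (vX n)) KS) (hT : MTy P n m) : RegX P (K3 n m) (Hole2.TYH k) := by
  have hn1 : 1 ≤ n := by omega
  by_cases hc : oddF n 2 ∧ oddF (n + 1 + 2) (m + 1)
  · have hm3 := c2_m hm hc
    by_cases hb : oddF (n + 3) (m + 2)
    · -- K22
      obtain ⟨b, c, g, e1, e2, e3, e4, e5⟩ := mk_k22 (k := k) (s := n + 2) (n := m + 1) (by omega) (by omega) (by omega)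
      have hb4 : contc (cyc b) = cX n 0 (m + 2) := by rw [e4, cX0]
      have hc5 : contc (cyc c) = cC n 2 (m + 1) := by rw [e5]; rfl
      have hcT : cyc c ∉ Hole2.TYH k := C_T (by omega) (by omega) _ hc5
      refine RegX.link (K := {kC n 2 (m + 1), kX n 1 m}) (d := kX n 0 (m + 2)) (fun p => cl_kX hn1) (kne1 n m hn1)
        (b := cyc b) (c := cyc c) ?_ (Or.inl (cyc_cC hn1 hc5)) hcT hb4 (TYH_X hn1 hb4) (hT.s5 _ _ e3) ?_
      · have h1 : RegX P ({kX n 1 m} : Set (RD × Multiset ℕ)) (Hole2.TYH k ∪ {cyc c}) := by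
          have h := RegX.peel (K := ∅) (H := Hole2.TYH k ∪ {cyc c}) (d := kX n 1 m) (fun p => cl_kX hn1)
            (Set.notMem_empty _) (RegX.nil _) ((CX0 hn1 hk E).un (z_off hc5 (cC_ne_cX _ _ _ _ _)))
          have e : insert (kX n 1 m) (∅ : Set (RD × Multiset ℕ)) = {kX n 1 m} := by simp
          rwa [e] at h
        refine RegX.peel (fun p => cl_kC hn1) (kne2 n m) h1 ?_
        refine (C_ch1 hk13 hn1 le_rfl (by omega) hE hc hc5 (fun _ => K22_two hn1 e2) (fun h => by omega)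
          (fun h => by omega) (fun h => by omega)).un z_on
      · refine ((B1 hn1 E hb hb4 (fun h => by omega))).un z_on
    · refine RegX.peel (fun p => cl_kX hn1) (kne1 n m hn1) (pairX hn1 hk13 hk hE E hT) ?_
      have := (B0 (m := m + 2) hn1 E hb).un (Z := ∅) e_on
      rwa [tyh k] at this
  · by_cases hb : oddF (n + 3) (m + 2)
    · have h2 := pkc_V hn1
      have h3 := (E.low (by omega) m hm (by omega)).regX (H := Hole2.TYH k) (fun c hc => by
        rcases hc with hc | hc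
        · exact TYH_X hn1 ((vclX hn1 (a := 0) (m := m + 2) (by omega)).1 hc)
        · exact TYH_X hn1 ((vclX hn1 (a := 1) (m := m) (by omega)).1 hc))
      have h4 : RegX P ({kX n 0 (m + 2), kX n 1 m} : Set (RD × Multiset ℕ)) (Hole2.TYH k) := by
        refine h3.congrK fun p => ?_
        constructor
        · rintro (h | h)
          · exact Or.inl (cyc_cX hn1 ((vclX hn1 (a := 0) (m := m + 2) (by omega)).1 h))
          · exact Or.inr (cyc_cX hn1 ((vclX hn1 (a := 1) (m := m) (by omega)).1 h))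
        · rintro (h | h)
          · exact Or.inl ((vclX hn1 (a := 0) (m := m + 2) (by omega)).2 ((cl_kX hn1).1 h))
          · exact Or.inr ((vclX hn1 (a := 1) (m := m) (by omega)).2 ((cl_kX hn1).1 (Set.mem_singleton_iff.1 h)))
      have h5 := RegX.peel (d := kC n 2 (m + 1)) (fun p => cl_kC hn1) (by
        rintro (h | h)
        · exact cC_ne_cX _ _ _ _ _ (congrArg Prod.snd h)
        · exact cC_ne_cX _ _ _ _ _ (congrArg Prod.snd (Set.mem_singleton_iff.1 h))) h4 (by
        have := (C_ch0 (m := m + 1) hk13 hn1 le_rfl hE (fun _ => hc)).un (Z := ∅) e_on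
        rwa [tyh k] at this)
      refine h5.congrK fun p => ?_
      unfold K3
      simp only [Set.mem_insert_iff, Set.mem_singleton_iff]
      tauto
    · refine RegX.peel (fun p => cl_kX hn1) (kne1 n m hn1) (pairX hn1 hk13 hk hE E hT) ?_
      have := (B0 (m := m + 2) hn1 E hb).un (Z := ∅) e_on
      rwa [tyh k] at this

/-- the link `C_1 - B` -/
theorem link_CB (hn : 1 ≤ n) (hk : n + 7 + m = k) (hT : MTy P n m) :
    ∃ (b c : OddHC.X k) (u : OddHC.X (n + 2)) (u' : OddHC.X (n + 3)), cont u.1 = {n + 1} + {1} ∧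
      cont u'.1 = {n + 1} + {2} ∧ Near b u (m + 3) ∧ Pile c u' (m + 2) ∧ contc (cyc b) = cC n 1 (m + 3) ∧
      contc (cyc c) = cX n 0 (m + 2) ∧ Typd P P {cyc b, cyc c} := by
  have hc0 : cont (app (H1.ch (n + 1)) (lp (m + 2)) △ .nil) = {n + 2} + replicate 0 2 + replicate (m + 2) 1 := by
    rw [cont_node, cont_app, c_ch (by omega), c_lp, cont_nil, add_zero, Multiset.replicate_zero, add_zero]
    exact raise_top (by
      intro x hx
      rw [Multiset.eq_of_mem_replicate hx]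
      omega)
  obtain ⟨e1, e2⟩ := c3_cont hc0
  obtain ⟨b, c, g, hb, hc, hI, f1, f2⟩ := mk_c3 (k := k) _ (ht_S hn hc0) (by rw [num_of_cont hc0]; omega)
  rw [e1] at f1
  rw [e2] at f2
  obtain ⟨u, g1, g2⟩ := near_C1a (m := m + 3) hn (w := b) hb
  obtain ⟨u', g3, g4⟩ := pile_B (m := m + 2) hn (w := c) hc
  exact ⟨b, c, u, u', g1, g3, g2, g4, f1, f2, hT.clp _ _ hI⟩

theorem hvF (n : ℕ) : (app (pw n) (pw 1)).numNodes = n + 1 := by rw [num_app, pw_num, pw_num]

/-- `[s-2] [1]` -/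
def vF (n : ℕ) : OddHC.X (n + 1) := ⟨app (pw n) (pw 1), mem_treesOfNumNodesEq.2 (hvF n)⟩

theorem vF_cyc (hn : 1 ≤ n) : cyc (vF n) = cyc (vX n) := by
  refine Uq_n1 _ n hn _ _ ?_ ?_
  · rw [contc_cyc]
    change cont (app (pw n) (pw 1)) = _
    rw [cont_app, ← ch_eq, ← ch_eq, c_ch hn, c_ch le_rfl]
  · rw [contc_cyc, c_vX hn]

theorem uF_vF (hn : 1 ≤ n) : Pile (uF n) (vF n) 1 := by
  refine ⟨0, ?_⟩
  rw [front_word]
  obtain ⟨n', rfl⟩ : ∃ n', n = n' + 1 := ⟨n - 1, by omega⟩
  change _ = app (lp 1) (inf (app (pw (n' + 1)) (pw 1)))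
  rw [inf_app, inf_pw, show inf (pw 1) = H1.ch 2 from inf_pw (n := 0), ch_eq (n' + 2)]
  rfl

theorem uF_cyc (hn : 1 ≤ n) : cyc (uF n) = cyc (uX n 1) :=
  pile_same (rotU_v hn (c_vX hn)) (vF_cyc hn) (uX_pile hn) (uF_vF hn)

/-- `X_1` with the guest `(()) [s] ([2] ()) ()^(m-1)` -/
theorem X1_flow (hn : 2 ≤ n) (hm : 1 ≤ m) (hm2 : m ≠ 2) (hk : n + 7 + m = k)
    (E : VEnv P (cyc (vX n)) KS) (hT : MTy P n m) {c : OddHC.X k} (hc : c.1 = lp 1 △ sF n m) :
    CH P (cX n 1 m) {cyc c} := by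
  have hn1 : 1 ≤ n := by omega
  have h1 := uF_near (w := c) (n := n) (m := m) (by rw [hc]; rfl)
  have h2 : Rd (cyc c) = ⟨n + 3 + 1, cyc (uX n 1)⟩ := by
    have h3 : Rd (cyc c) = ⟨n + 4, cyc (uF n)⟩ := Rd_ins (lf_length _) h1
    rw [h3, uF_cyc hn1]
  by_cases ho : oddF (n + 3 + 1) m
  · exact X_oddg hn1 E hm ho (oddF_one' _) h2 fun h => absurd h hm2
  · have hm1 : m ≠ 1 := by
      rintro rfl
      exact ho (oddF_one' _)
    obtain ⟨m', rfl⟩ : ∃ m', m = m' + 1 := ⟨m - 1, by omega⟩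
    obtain ⟨x, g, e1, e2⟩ := win_z (m := m') hn (show n + 8 + m' = k by omega)
    obtain ⟨x', e3, e4⟩ := zW_cyc hn e1
    have h4 := uF_pile (w := x') e3
    have hne : cyc x' ≠ cyc c := by
      refine pile_ne_near (m := m' + 1) (by omega) ?_ h4 h1
      have : Fact (1 < 2 * (n + 4) + 1) := ⟨by omega⟩
      intro h
      exact one_ne_zero (show (1 : ZMod (2 * (n + 4) + 1)) = 0 by linear_combination -h)
    refine X_eveng hn1 E le_rfl hm ho (z := cyc x') ?_ hne h2 ?_
    · refine ⟨⟨vF n, uF n, x', vF_cyc hn1, uF_vF hn1, ⟨_, h4⟩, rfl⟩, ?_⟩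
      rw [e4]
      exact hT.ap _ _ e2
    · have h5 := remOK_py (j := n + 4) (by omega) (m := m' + 1) (by omega) (Or.inr rfl) h4 h1 ho
      rw [uF_cyc hn1] at h5
      exact h5

/-- **C_1 has a guest** -/
theorem mid1 (hn : 2 ≤ n) (hk13 : 13 ≤ k) (hm : 1 ≤ m) (hk : n + 7 + m = k) (hE : Hole2.CEnv n (AEP P) P P)
    (E : VEnv P (cyc (vX n)) KS) (hT : MTy P n m) (hf : ¬ (oddF (n + 1) (m + 5) ↔ oddF (n + 2) (m + 3))) :
    ∃ (y : OddHC.X k) (u : OddHC.X (n + 2)) (z : Cyc k), cont u.1 = {n + 1} + {1} ∧ Near y u (m + 3) ∧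
      contc (cyc y) = cC n 1 (m + 3) ∧ Typd P P {cyc y, z} ∧ cl z ∈ K3 n m ∧ z ∉ Hole2.TYH k ∧
      RegX P (K3 n m) (Hole2.TYH k ∪ {z}) := by
  have hn1 : 1 ≤ n := by omega
  by_cases hb : oddF (n + 3) (m + 2)
  · -- C_1 - B
    obtain ⟨b, c, u, u', g1, g3, g2, g4, f1, f2, hTy⟩ := link_CB hn1 hk hT
    refine ⟨b, u, cyc c, g1, g2, f1, hTy, Or.inl (cyc_cX hn1 f2), TYH_X hn1 f2, ?_⟩
    refine RegX.peel (fun p => cl_kX hn1) (kne1 n m hn1) ?_
      ((B1 hn1 E hb f2 (fun h => by omega)).un z_on)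
    refine (pairX hn1 hk13 hk hE E hT).congr fun c' hc' => ?_
    constructor
    · exact Or.inl
    · rintro (h | h)
      · exact h
      · exfalso
        rw [Set.mem_singleton_iff.1 h] at hc'
        rw [cyc_cX hn1 f2] at hc'
        exact kne1 n m hn1 hc'
  · by_cases hc : oddF n 2 ∧ oddF (n + 1 + 2) (m + 1)
    · -- C_1 - C_2
      have hm3 := c2_m hm hc
      have hcS := c_sC (m := m) hn1
      obtain ⟨b, c, g, h1, h2, h3, h4, h5⟩ := mk_k1 (k := k) (sC n m) (by
        have h6 : cont (sC n m) = {n + 2} + ({2} + replicate (m + 1) 1) := by rw [hcS, add_assoc]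
        have := ht_of_cont h6
        omega) (by
        rw [← cont_sum, hcS, Multiset.sum_add, Multiset.sum_add, Multiset.sum_singleton, Multiset.sum_singleton,
          Multiset.sum_replicate, smul_eq_mul]
        omega)
      have f1 : contc (cyc b) = cC n 1 (m + 3) := by
        rw [h4, hcS]
        unfold cC
        rw [show m + 3 = (m + 1) + 1 + 1 from rfl, Multiset.replicate_succ 1 (m + 1 + 1),
          Multiset.replicate_succ 1 (m + 1), ← Multiset.singleton_add, ← Multiset.singleton_add, Multiset.replicate_one]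
        abel
      have f2 : contc (cyc c) = cC n 2 (m + 1) := by
        rw [h5, hcS]
        unfold cC
        rw [show (replicate 2 2 : Multiset ℕ) = {2} + {2} from rfl]
        abel
      obtain ⟨u, g1, g2⟩ := near_C1b (m := m + 3) hn1 (w := b) (by
        rw [h1]
        unfold sC
        change app (H1.ch (n + 1)) (app (H1.ch 2) (lp 1)) △ app (lp m) (lp 2) = _
        rw [lp_two]
        rfl)
      have hcT : cyc c ∉ Hole2.TYH k := C_T (by omega) (by omega) _ f2
      refine ⟨b, u, cyc c, g1, g2, f1, hT.km1 _ _ h3, Or.inr (Or.inl (cyc_cC hn1 f2)), hcT, ?_⟩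
      refine reg3 hn1 ((B0 (m := m + 2) hn1 E hb).un (z_off f2 (cC_ne_cX _ _ _ _ _))) ?_
        ((CX0 hn1 hk E).un (z_off f2 (cC_ne_cX _ _ _ _ _)))
      exact (C_ch1 hk13 hn1 le_rfl (by omega) hE hc f2 (fun _ => sC_two hn h2) (fun h => by omega)
          (fun h => by omega) (fun h => by omega)).un z_on
    · -- flow
      obtain ⟨b, c, u, u', g1, g3, g2, g4, f1, f2, hTy⟩ := link_CB hn1 hk hT
      refine ⟨b, u, cyc c, g1, g2, f1, hTy, Or.inl (cyc_cX hn1 f2), TYH_X hn1 f2, ?_⟩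
      have hm2 := flow_m hf hb
      have hcS := c_sF hn1 hm
      obtain ⟨b', c', g, h1, h2, h3, h4, h5⟩ := mk_k1 (k := k) (sF n m) (by
        have h6 : cont (sF n m) = {n + 2} + ({3} + replicate m 1) := by rw [hcS, add_assoc]
        have := ht_of_cont h6
        omega) (by
        rw [← cont_sum, hcS, Multiset.sum_add, Multiset.sum_add, Multiset.sum_singleton, Multiset.sum_singleton,
          Multiset.sum_replicate, smul_eq_mul]
        omega)
      have f3 : contc (cyc b') = cX n 0 (m + 2) := by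
        rw [h4, hcS, cX0, show m + 2 = m + 1 + 1 from rfl, Multiset.replicate_succ 1 (m + 1), Multiset.replicate_succ 1 m,
          ← Multiset.singleton_add, ← Multiset.singleton_add]
        abel
      have f4 : contc (cyc c') = cX n 1 m := by
        rw [h5, hcS]
        unfold cX
        rw [Multiset.replicate_one]
        abel
      obtain ⟨u2, g5, g6⟩ := near_B (m := m + 2) hn1 (w := b') (by
        rw [h1]
        unfold sF
        obtain ⟨m', rfl⟩ : ∃ m', m = m' + 1 := ⟨m - 1, by omega⟩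
        rw [app_assoc']
        change app (H1.ch (n + 2)) (app (H1.ch 2) (lp 1) △ app (lp m') (lp 2)) = _
        rw [lp_two]
        rfl)
      have hBne : cyc c ≠ cyc b' := by
        have hcu : cyc u' = cyc u2 := Uq_n2 _ n hn1 _ _ (by rw [contc_cyc, g3]) (by rw [contc_cyc, g5])
        exact pn_ne (by omega) (rotU_B hn1 g5) hcu (by omega) g4 g6
      have hXne : cyc c' ≠ cyc c := by
        intro h
        rw [h, f2] at f4
        exact cX_ne hn1 (by norm_num) f4
      have hcc : ∀ z, contc z = cX n 1 m → (z ∈ ({cyc c} ∪ {cyc c'} : Set (Cyc k)) ↔ z ∈ ({cyc c'} : Set (Cyc k))) := by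
        intro z hz
        constructor
        · rintro (h | h)
          · rw [Set.mem_singleton_iff.1 h, f2] at hz
            exact absurd hz (cX_ne hn1 (by norm_num))
          · exact h
        · exact Or.inr
      refine RegX.link (K := {kC n 2 (m + 1), kX n 1 m}) (H := Hole2.TYH k ∪ {cyc c}) (d := kX n 0 (m + 2))
        (fun p => cl_kX hn1) (kne1 n m hn1) (b := cyc b') (c := cyc c') ?_ (Or.inr (cyc_cX hn1 f4)) ?_ f3 ?_
        (hT.kmf _ _ h3) ?_
      · rw [Set.union_assoc]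
        have h6 : RegX P ({kX n 1 m} : Set (RD × Multiset ℕ)) (Hole2.TYH k ∪ ({cyc c} ∪ {cyc c'})) := by
          have h := RegX.peel (K := ∅) (H := Hole2.TYH k ∪ ({cyc c} ∪ {cyc c'})) (d := kX n 1 m) (fun p => cl_kX hn1)
            (Set.notMem_empty _) (RegX.nil _) ((X1_flow hn hm hm2 hk E hT h2).un hcc)
          have e : insert (kX n 1 m) (∅ : Set (RD × Multiset ℕ)) = {kX n 1 m} := by simp
          rwa [e] at h
        refine RegX.peel (fun p => cl_kC hn1) (kne2 n m) h6 ?_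
        refine (C_ch0 (m := m + 1) hk13 hn1 le_rfl hE (fun _ => hc)).un fun z hz => ?_
        constructor
        · rintro (h | h)
          · rw [Set.mem_singleton_iff.1 h, f2] at hz
            exact absurd hz.symm (cC_ne_cX _ _ _ _ _)
          · rw [Set.mem_singleton_iff.1 h, f4] at hz
            exact absurd hz.symm (cC_ne_cX _ _ _ _ _)
        · intro h
          exact absurd h (Set.notMem_empty z)
      · rintro (h | h)
        · exact TYH_X hn1 f4 h
        · exact hXne (Set.mem_singleton_iff.1 h)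
      · rintro (h | h)
        · exact TYH_X hn1 f3 h
        · exact hBne (Set.mem_singleton_iff.1 h).symm
      · rw [Set.union_assoc]
        refine (B2 hn1 E (by omega) hb g5 g3 g4 g6).un fun z _ => ?_
        exact Iff.rfl

end S5

end Pool.OddHC
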