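import Pool.Agent.Work.MP_8f87b2_h20.S5Mid2

/-!
# Section 5: the middle, `t ≥ 6`
-/

set_option autoImplicit false

namespace Pool.OddHC

open Finset Equiv BinaryTree Multiset Ring1 Pool.Agent.Work.MP_8f87b2_co Pool.OddHop

variable {k : ℕ} {τ : Type} {P : τ → Set (Cyc k) → DG k → Prop}

namespace S5

variable {n m j : ℕ} {KS : BinaryTree Unit → Prop}

/-- the classes `C_1`, `C_2`, `B`, `X_1` -/
noncomputable def K4 (n m : ℕ) : Set (RD × Multiset ℕ) := insert (kC n 1 (m + 3)) (K3 n m)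

/-- the classes `H`, `C_1`, `C_2`, `B`, `X_1` -/
noncomputable def K5 (n m : ℕ) : Set (RD × Multiset ℕ) := insert (kC n 0 (m + 5)) (K4 n m)

theorem kne3 (hn : 1 ≤ n) : kC n 1 (m + 3) ∉ K3 n m := by
  rintro (h | h | h)
  · exact cC_ne_cX _ _ _ _ _ (congrArg Prod.snd h)
  · exact cC_ne hn (by norm_num) (congrArg Prod.snd h)
  · exact cC_ne_cX _ _ _ _ _ (congrArg Prod.snd (Set.mem_singleton_iff.1 h))

theorem kne4 (hn : 1 ≤ n) : kC n 0 (m + 5) ∉ K4 n m := by
  rintro (h | h | h | h)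
  · exact cC_ne hn (by norm_num) (congrArg Prod.snd h)
  · exact cC_ne_cX _ _ _ _ _ (congrArg Prod.snd h)
  · exact cC_ne hn (by norm_num) (congrArg Prod.snd h)
  · exact cC_ne_cX _ _ _ _ _ (congrArg Prod.snd (Set.mem_singleton_iff.1 h))

/-- the set of used T-cycles, off the classes -/
theorem off_K {K : Set (RD × Multiset ℕ)} {H Z : Set (Cyc k)} {c : Cyc k} (hc : cl c ∉ K) (h : RegX P K (H ∪ Z)) :
    RegX P K ((H ∪ {c}) ∪ Z) := by
  refine h.congr fun x hx => ?_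
  constructor
  · rintro (h | h)
    · exact Or.inl (Or.inl h)
    · exact Or.inr h
  · rintro ((h | h) | h)
    · exact Or.inl h
    · rw [Set.mem_singleton_iff.1 h] at hx
      exact absurd hx hc
    · exact Or.inr h

theorem off_K0 {K : Set (RD × Multiset ℕ)} {H : Set (Cyc k)} {c : Cyc k} (hc : cl c ∉ K) (h : RegX P K H) :
    RegX P K (H ∪ {c}) := by
  refine h.congr fun x hx => ?_
  constructor
  · exact Or.inl
  · rintro (h | h)
    · exact h
    · rw [Set.mem_singleton_iff.1 h] at hx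
      exact absurd hx hc

/-- **THE MIDDLE**, `t = m + 5 ≥ 6` -/
theorem mid (hn : 2 ≤ n) (hk13 : 13 ≤ k) (hm : 1 ≤ m) (hk : n + 7 + m = k) (hE : Hole2.CEnv n (AEP P) P P)
    (E : VEnv P (cyc (vX n)) KS) (hT : MTy P n m) : RegX P (K5 n m) (Hole2.TYH k) := by
  have hn1 : 1 ≤ n := by omega
  have hT1 : ∀ c : Cyc k, contc c = cC n 1 (m + 3) → c ∉ Hole2.TYH k := C_T (by omega) (by omega)
  have hT0 : ∀ c : Cyc k, contc c = cC n 0 (m + 5) → c ∉ Hole2.TYH k := C_T (by omega) (by omega)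
  by_cases hh : oddF (n + 1) (m + 5)
  · obtain ⟨b, c, g, e1, e2, e3, e4, e5⟩ := mk_long (k := k) (s := n + 2) (n := m + 2) (by omega) (by omega) (by omega)
    have hb4 : contc (cyc b) = cC n 0 (m + 5) := by rw [e4, cC0]
    have hc5 : contc (cyc c) = cC n 1 (m + 3) := e5
    have hcK : cl (cyc c) ∉ K3 n m := by
      rw [cyc_cC hn1 hc5]
      exact kne3 hn1
    obtain ⟨u', g3, g4⟩ := pile_C1 (m := m + 3) hn1 (w := c) e2
    have h4 : RegX P (K4 n m) (Hole2.TYH k ∪ {cyc c}) := by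
      by_cases h1 : oddF (n + 2) (m + 3)
      · exact RegX.peel (fun p => cl_kC hn1) (kne3 hn1) (off_K0 hcK (mid0 hn hk13 hm hk hE E hT))
          ((C1_1 hn1 hm hE h1 hc5).un hT1 z_on)
      · obtain ⟨y, u, z, f1, f2, f3, f4, f5, f6, f7⟩ := mid1 hn hk13 hm hk hE E hT (by tauto)
        have hne := C1_ne hn1 f1 g3 g4 f2
        refine RegX.link (fun p => cl_kC hn1) (kne3 hn1) (off_K hcK f7) f5 ?_ f3 ?_ f4 ?_
        · rintro (h | h)
          · exact f6 h
          · rw [Set.mem_singleton_iff.1 h] at f5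
            exact hcK f5
        · rintro (h | h)
          · exact hT1 _ f3 h
          · exact hne (Set.mem_singleton_iff.1 h).symm
        · rw [Set.union_assoc]
          exact (C1_2 hn1 hm hE h1 f1 g3 g4 f2).un hT1 fun x _ => Iff.rfl
    exact RegX.link (fun p => cl_kC hn1) (kne4 hn1) h4 (Or.inl (cyc_cC hn1 hc5)) (hT1 _ hc5) hb4 (hT0 _ hb4)
      (hT.s5 _ _ e3) ((H_1 hn1 hT.ek hh e1).un hT0 z_on)
  · have h4 : RegX P (K4 n m) (Hole2.TYH k) := by
      by_cases h1 : oddF (n + 2) (m + 3)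
      · obtain ⟨y, u, z, f1, f2, f3, f4, f5, f6, f7⟩ := mid1 hn hk13 hm hk hE E hT (by tauto)
        exact RegX.link (fun p => cl_kC hn1) (kne3 hn1) f7 f5 f6 f3 (hT1 _ f3) f4
          ((C1_1 hn1 hm hE h1 f3).un hT1 z_on)
      · have := (C1_0 hn1 hm hE h1).un hT1 (Z := ∅) e_on
        rw [tyh k] at this
        exact RegX.peel (fun p => cl_kC hn1) (kne3 hn1) (mid0 hn hk13 hm hk hE E hT) this
    have := (H_0 hn1 hT.ek hh).un hT0 (Z := ∅) e_on
    rw [tyh k] at this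
    exact RegX.peel (fun p => cl_kC hn1) (kne4 hn1) h4 this

end S5

end Pool.OddHC
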