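import Pool.Agent.Work.MP_8f87b2_h20.S5Ca

/-!
# Section 5: words with beads near the end, alignment of piles
-/

set_option autoImplicit false

namespace Pool.OddHC

open Finset Equiv BinaryTree Multiset Ring1 Pool.Agent.Work.MP_8f87b2_co

namespace S5

variable {k j : ℕ}

theorem cast_ne {L i a : ℕ} (hi : i < L) (ha : a < L) (h : i ≠ a) : (i : ZMod L) ≠ (a : ZMod L) := by
  intro e
  rw [ZMod.natCast_eq_natCast_iff', Nat.mod_eq_of_lt hi, Nat.mod_eq_of_lt ha] at e
  exact h e

/-- two neighbouring gaps -/
theorem lf2 {L a b : ℕ} (h : a + b + 2 = L) (n n' : ℕ) :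
    lf (fun z : ZMod L => (if z = ((a : ℕ) : ZMod L) then n else 0) + if z = ((a + 1 : ℕ) : ZMod L) then n' else 0) =
      List.replicate a 0 ++ n :: n' :: List.replicate b 0 := by
  apply List.ext_getElem
  · rw [lf_length, List.length_append, List.length_cons, List.length_cons, List.length_replicate,
      List.length_replicate]
    omega
  · intro i h1 h2
    have h0 : i < L := by rw [lf_length] at h1; exact h1
    rw [lf_getElem]
    rcases lt_trichotomy i a with hi | rfl | hi
    · rw [if_neg (cast_ne h0 (by omega) (by omega)), if_neg (cast_ne h0 (by omega) (by omega)),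
        List.getElem_append_left (by rw [List.length_replicate]; exact hi), List.getElem_replicate]
    · rw [if_pos rfl, if_neg (cast_ne h0 (by omega) (by omega)),
        List.getElem_append_right (by rw [List.length_replicate])]
      simp
    · rw [if_neg (cast_ne h0 (by omega) (by omega)),
        List.getElem_append_right (by rw [List.length_replicate]; omega)]
      rcases Nat.eq_or_lt_of_le hi with rfl | hi
      · rw [if_pos rfl]
        simp
      · rw [if_neg (cast_ne h0 (by omega) (by omega))]
        obtain ⟨d, rfl⟩ : ∃ d, i = a + 2 + d := ⟨i - (a + 2), by omega⟩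
        have e : a + 2 + d - (List.replicate a 0).length = d + 2 := by
          rw [List.length_replicate]; omega
        simp only [e, List.getElem_cons_succ, List.getElem_replicate]

/-- a pile at the end -/
theorem ins_end (C : BinaryTree Unit) (m : ℕ) :
    ins C (List.replicate (2 * C.numNodes) 0 ++ [m]) = app (inf C) (lp m) := by
  induction C with
  | nil => rfl
  | node _ A B _ ih =>
    have e1 : (BinaryTree.node () A B).numNodes = A.numNodes + B.numNodes + 1 := rfl
    have e2 : List.replicate (2 * (BinaryTree.node () A B).numNodes) 0 ++ [m] =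
        0 :: (List.replicate (2 * A.numNodes + 1) 0 ++ (List.replicate (2 * B.numNodes) 0 ++ [m])) := by
      rw [← List.append_assoc, List.replicate_append_replicate, e1, ← List.cons_append,
        ← List.replicate_succ]
      congr 2
      ring
    have e3 : (BinaryTree.node () A B) = A △ B := rfl
    rw [e2, e3, ins, List.headD_cons, List.tail_cons, List.take_left' List.length_replicate,
      List.drop_succ_cons, List.drop_left' List.length_replicate, ih]
    have e4 := ins_bump A 0
    rw [lv] at e4
    rw [List.replicate_succ (n := 2 * A.numNodes), e4, lv, inf_node, app]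

/-- beads at the last two gaps -/
theorem ins_end2 (A C : BinaryTree Unit) (n n' : ℕ) :
    ins (app A (C △ .nil)) (List.replicate (2 * A.numNodes + 2 * C.numNodes + 1) 0 ++ [n, n']) =
      app (inf A) (app (inf1 C) (lp n) △ lp n') := by
  have e1 : List.replicate (2 * A.numNodes + 2 * C.numNodes + 1) 0 ++ [n, n'] =
      List.replicate (2 * A.numNodes + 1) 0 ++ (List.replicate (2 * C.numNodes) 0 ++ [n, n']) := by
    rw [← List.append_assoc, List.replicate_append_replicate]
    congr 2
    ring
  rw [e1, ins_app _ _ _ _ List.length_replicate]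
  have e2 : (0 :: (List.replicate (2 * C.numNodes) 0 ++ [n, n'])) =
      0 :: ((List.replicate (2 * C.numNodes) 0 ++ [n]) ++ [n']) := by simp
  have l1 : (List.replicate (2 * C.numNodes) 0 ++ [n]).length = 2 * C.numNodes + 1 := by simp
  rw [e2, ins, List.headD_cons, List.tail_cons, List.take_left' l1, List.drop_succ_cons, List.drop_left' l1]
  have e3 : ins C (bump C (List.replicate (2 * C.numNodes) 0 ++ [n])) = app (inf1 C) (lp n) := by
    cases C with
    | nil => rfl
    | node _ A' B' =>
      change ins _ (List.replicate (2 * (A' △ B').numNodes) 0 ++ [n]) = _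
      exact ins_end (A' △ B') n
  rw [e3]
  rfl

/-- all rotations of the beads over `u` are the same T-cycle -/
def RotU (u : X j) : Prop := ∀ (k : ℕ) (b : ZMod (2 * j + 1) → ℕ) (h : j + pkn u.1 + ∑ x, b x = k)
  (c : ZMod (2 * j + 1)), cyc (phi u b h) = cyc (phi u (fun x => b (x + c)) (by rw [sum_shift]; exact h))

/-- alignment -/
theorem align {u u' : X j} (hU : RotU u) (hu : cyc u' = cyc u) {w : X k} {b : ZMod (2 * j + 1) → ℕ}
    (hw : w.1 = ins u'.1 (lf b)) (c : ZMod (2 * j + 1)) :
    ∃ w' : X k, w'.1 = ins u.1 (lf fun x => b (x + c)) ∧ cyc w' = cyc w := by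
  have hk := word_phi hw
  have hw' : w = phi u' b hk := Subtype.ext hw
  obtain ⟨i, hi⟩ := same_nat (cyc_eq.1 hu)
  have h1 : (TT ^ i) w = phi u (fun x => b (x + sp u' i)) (by
      rw [sum_shift, ← hi, pkn_pow]; exact hk) := by
    rw [hw', pow_phi]
    exact phi_congr hi rfl _ _
  have h2 : cyc w = cyc ((TT ^ i) w) := by
    rw [cyc_eq]
    exact ⟨(i : ℤ), by rw [zpow_natCast]⟩
  rw [h1, hU k _ _ (c - sp u' i)] at h2
  refine ⟨_, ?_, h2.symm⟩
  change ins u.1 (lf _) = _
  congr 2
  funext x
  congr 1
  ring

/-- a pile over `u'` at any gap is a pile over `u` at any gap -/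
theorem pile_at {u u' : X j} (hU : RotU u) (hu : cyc u' = cyc u) {w : X k} {m : ℕ} {x' : ZMod (2 * j + 1)}
    (hw : w.1 = ins u'.1 (lf fun z => if z = x' then m else 0)) (x : ZMod (2 * j + 1)) :
    ∃ w' : X k, w'.1 = ins u.1 (lf fun z => if z = x then m else 0) ∧ cyc w' = cyc w := by
  obtain ⟨w', h1, h2⟩ := align hU hu hw (x' - x)
  refine ⟨w', ?_, h2⟩
  rw [h1]
  congr 2
  funext z
  have : (z + (x' - x) = x') ↔ z = x := by
    constructor
    · intro h
      linear_combination h
    · intro h
      linear_combination h
  simp only [this]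

/-- the removal set of a pile and a near pile in different phases -/
theorem rem_py (hj : 1 ≤ j) {u u' : X j} (hU : RotU u) (hu : cyc u' = cyc u) {m : ℕ} (hm : 3 ≤ m)
    {p q : X k} {x' x y : ZMod (2 * j + 1)} (hy : y = x + 1 ∨ y = x - 1)
    (hp : p.1 = ins u'.1 (lf fun z => if z = x' then m else 0))
    (hq : q.1 = ins u.1 (lf fun z => (if z = x then m - 1 else 0) + if z = y then 1 else 0))
    (hev : ¬ oddF j m) : RemOK ⟨j, cyc u⟩ {cyc p, cyc q} := by
  obtain ⟨p', h1, h2⟩ := pile_at hU hu hp x
  rw [← h2]
  exact remOK_py hj hm hy h1 hq hev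

end S5

end Pool.OddHC
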