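import Pool.Agent.Work.MP_8f87b2_h20.S5XC

/-!
# Section 5: the components `{C_(a+1), X_a}`
-/

set_option autoImplicit false

namespace Pool.OddHC

open Finset Equiv BinaryTree Multiset Ring1 Pool.Agent.Work.MP_8f87b2_co Pool.OddHop

variable {i j j2 k : ℕ} {τ : Type} {P : τ → Set (Cyc k) → DG k → Prop}

namespace S5

variable {n a m : ℕ} {p : Cyc k} {KS : BinaryTree Unit → Prop}

theorem ShC_H {S : BinaryTree Unit} (hn : 1 ≤ n) (ha : 1 ≤ a) (hS : Hole2.ShC n a m S) {b : OddHC.X k}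
    (hb : b.1 = app S (.nil △ H1.ch 2)) (hc : contc (cyc b) = cC n (a + 1) (m + 1)) : cyc b ∉ Hole2.TYH k := by
  intro h
  rcases TYH_m hc h with h1 | h1
  · omega
  · obtain rfl : m = 1 := by omega
    exact lev_TYH hn hc (hS.lev hn ha hb) h

/-- **the link `Cl(S,3)`**, `C_(a+1)`–`X_a` -/
theorem link_CX (hn : 1 ≤ n) (ha : 1 ≤ a) (hk13 : 13 ≤ k) (hk : n + 5 + 2 * a + m = k)
    (hE : Hole2.CEnv n (AEP P) P P) (E : VEnv P (cyc (vX n)) KS)
    (hCl : ∀ S F g, Hole2.ShC n a m S → IsTri (H1.ch 2) S .nil F g → Typd P P F)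
    (hod : oddF n (a + 1) ∧ oddF (n + 1 + (a + 1)) (m + 1)) :
    ∃ b c : OddHC.X k, Typd P P {cyc b, cyc c} ∧ contc (cyc b) = cC n (a + 1) (m + 1) ∧
      contc (cyc c) = cX n a m ∧ cyc b ∉ Hole2.TYH k ∧ CH P (cC n (a + 1) (m + 1)) {cyc b} ∧
      CH P (cX n a m) {cyc c} := by
  obtain ⟨S, hS, hG⟩ := XC1 hn E ha hk hod
  have hcS := hS.cont hn ha
  obtain ⟨e1, e2⟩ := c3_cont hcS
  obtain ⟨b, c, g, hb, hc, hT, f1, f2⟩ := mk_c3 S (ht_S hn hcS) (by rw [num_of_cont hcS]; omega) (k := k)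
  rw [e1] at f1
  rw [e2] at f2
  exact ⟨b, c, hCl S _ g hS hT, f1, f2, ShC_H hn ha hS hb f1, C_chS hk13 hn ha hE hS hb hod, hG c hc⟩

/-- **COMPONENT** `{C_(a+1), X_a}`, `a ≥ 1` if the link exists, else `a ≥ 1` too -/
theorem pair_regX (hn : 1 ≤ n) (ha : 1 ≤ a) (hk13 : 13 ≤ k) (hk : n + 5 + 2 * a + m = k)
    (hE : Hole2.CEnv n (AEP P) P P) (E : VEnv P (cyc (vX n)) KS)
    (hCl : ∀ S F g, Hole2.ShC n a m S → IsTri (H1.ch 2) S .nil F g → Typd P P F) :
    RegX P {kC n (a + 1) (m + 1), kX n a m} (Hole2.TYH k) := by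
  by_cases hod : oddF n (a + 1) ∧ oddF (n + 1 + (a + 1)) (m + 1)
  · obtain ⟨b, c, h1, h2, h3, h4, h5, h6⟩ := link_CX hn ha hk13 hk hE E hCl hod
    refine regX1 (F := {cyc b, cyc c}) ⟨_, Or.inl rfl⟩ h1 ?_ ?_
    · rintro c' (rfl | rfl)
      · exact ⟨Or.inl ((cl_kC hn).2 h2), h4⟩
      · exact ⟨Or.inr ((cl_kX hn).2 h3), TYH_X hn h3⟩
    · rintro p0 (h0 | h0)
      · rw [cl_kC hn] at h0
        rw [h0]
        refine h5.congr fun c' hc' => ?_
        constructor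
        · intro h
          exact Or.inl h
        · rintro (h | h)
          · exact h
          · rw [Set.mem_singleton_iff.1 h, h3] at hc'
            exact absurd hc'.symm (cC_ne_cX _ _ _ _ _)
      · rw [Set.mem_singleton_iff, cl_kX hn] at h0
        rw [h0]
        refine h6.congr fun c' hc' => ?_
        constructor
        · intro h
          exact Or.inr h
        · rintro (h | h)
          · rw [h, h2] at hc'
            exact absurd hc' (cC_ne_cX _ _ _ _ _)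
          · exact h
  · refine regX0 ?_
    rintro p0 (h0 | h0)
    · rw [(cl_kC hn).1 h0]
      exact C_ch0 hk13 hn (by omega) hE fun _ => hod
    · rw [Set.mem_singleton_iff, cl_kX hn] at h0
      rw [h0]
      exact XC0 hn E ha hk

/-- **COMPONENT** `{C_a}`, `m = 0` -/
theorem single_regX (hn : 1 ≤ n) (ha : 2 ≤ a) (hk13 : 13 ≤ k) (hE : Hole2.CEnv n (AEP P) P P) :
    RegX P {kC n a 0} (Hole2.TYH k) := by
  refine regX0 ?_
  intro p0 h0
  rw [Set.mem_singleton_iff, cl_kC hn] at h0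
  rw [h0]
  exact C_ch0 hk13 hn ha hE fun h => by omega

end S5

end Pool.OddHC
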