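import Pool.Agent.Work.MP_8f87b2_h20.S5Pair

/-!
# Section 5: a component, class after class
-/

set_option autoImplicit false

namespace Pool.OddHC

open Finset Equiv BinaryTree Multiset Ring1 Pool.Agent.Work.MP_8f87b2_co Pool.OddHop

variable {i j j2 k : ℕ} {τ : Type} {P : τ → Set (Cyc k) → DG k → Prop}

/-- the class of content `μ`, the T-cycles of `H` are used by other groups -/
def CX (P : τ → Set (Cyc k) → DG k → Prop) (μ : Multiset ℕ) (H : Set (Cyc k)) : Prop :=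
  ∀ p0 : Cyc k, contc p0 = μ → ∃ Gp Gw, ClsOK (AEP P) (cl p0) H Gp Gw P P

theorem CH.cx {μ : Multiset ℕ} {D H : Set (Cyc k)} (h : CH P μ D)
    (hH : ∀ c, contc c = μ → (c ∈ H ↔ c ∈ Hole2.TYH k ∨ c ∈ D)) : CX P μ H := fun p0 h0 => h p0 H h0 hH

theorem RegX.congr {K : Set (RD × Multiset ℕ)} {H H' : Set (Cyc k)} (h : RegX P K H)
    (hH : ∀ c, cl c ∈ K → (c ∈ H ↔ c ∈ H')) : RegX P K H' := by
  obtain ⟨Xs, h1, h2, h3⟩ := h
  refine ⟨Xs, fun F hF => ?_, h2, fun p0 hp0 => ?_⟩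
  · obtain ⟨a1, a2, a3⟩ := h1 F hF
    exact ⟨a1, a2, fun c hc => ⟨(a3 c hc).1, fun h => (a3 c hc).2 ((hH c (a3 c hc).1).2 h)⟩⟩
  · obtain ⟨Gp, Gw, hC⟩ := h3 p0 hp0
    refine ⟨Gp, Gw, hC.congr fun c hc => ?_⟩
    rw [← hc] at hp0
    exact or_congr Iff.rfl (hH c hp0)

theorem RegX.nil (H : Set (Cyc k)) : RegX P ∅ H :=
  ⟨∅, fun F hF => absurd hF (Set.notMem_empty F), fun F hF => absurd hF (Set.notMem_empty F),
    fun p0 hp0 => absurd hp0 (Set.notMem_empty _)⟩

theorem RegX.union {K K' : Set (RD × Multiset ℕ)} {H : Set (Cyc k)} (hd : ∀ d ∈ K, d ∉ K')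
    (h : RegX P K H) (h' : RegX P K' H) : RegX P (K ∪ K') H := by
  have e : K ∪ K' = {d | ∃ b : Bool, d ∈ (if b then K else K')} := by
    ext d
    constructor
    · rintro (h | h)
      · exact ⟨true, h⟩
      · exact ⟨false, h⟩
    · rintro ⟨b, h⟩
      cases b
      · exact Or.inr h
      · exact Or.inl h
  rw [e]
  refine RegX.iUnion (ι := Bool) (K := fun b => if b then K else K') (H := H) (P := P) ?_ ?_
  · intro b b' d h h'
    cases b <;> cases b'
    · rfl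
    · exact absurd h (hd d h')
    · exact absurd h' (hd d h)
    · rfl
  · intro b
    cases b
    · exact h'
    · exact h

/-- one more class, no link -/
theorem RegX.peel {K : Set (RD × Multiset ℕ)} {H : Set (Cyc k)} {d : RD × Multiset ℕ} {μ : Multiset ℕ}
    (hd : ∀ p : Cyc k, cl p = d ↔ contc p = μ) (hdK : d ∉ K) (h : RegX P K H) (h0 : CX P μ H) :
    RegX P (insert d K) H := by
  obtain ⟨Xs, h1, h2, h3⟩ := h
  refine ⟨Xs, fun F hF => ?_, h2, ?_⟩
  · obtain ⟨a1, a2, a3⟩ := h1 F hF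
    exact ⟨a1, a2, fun c hc => ⟨Or.inr (a3 c hc).1, (a3 c hc).2⟩⟩
  · rintro p0 (hp0 | hp0)
    · obtain ⟨Gp, Gw, hC⟩ := h0 p0 ((hd p0).1 hp0)
      refine ⟨Gp, Gw, hC.congr fun c hc => ?_⟩
      constructor
      · exact Or.inr
      · rintro (⟨F, hF, hcF⟩ | h)
        · have := ((h1 F hF).2.2 c hcF).1
          rw [hc, hp0] at this
          exact absurd this hdK
        · exact h
    · exact h3 p0 hp0

/-- one more class, one link -/
theorem RegX.link {K : Set (RD × Multiset ℕ)} {H : Set (Cyc k)} {d : RD × Multiset ℕ} {μ : Multiset ℕ}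
    (hd : ∀ p : Cyc k, cl p = d ↔ contc p = μ) (hdK : d ∉ K) {b c : Cyc k} (h : RegX P K (H ∪ {c}))
    (hc : cl c ∈ K) (hcH : c ∉ H) (hb : contc b = μ) (hbH : b ∉ H) (hT : Typd P P {b, c})
    (h0 : CX P μ (H ∪ {b})) : RegX P (insert d K) H := by
  obtain ⟨Xs, h1, h2, h3⟩ := h
  have hbd : cl b = d := (hd b).2 hb
  have hbK : cl b ∉ K := by
    rw [hbd]
    exact hdK
  refine ⟨insert {b, c} Xs, ?_, ?_, ?_⟩
  · rintro F (rfl | hF)
    · refine ⟨⟨b, Or.inl rfl⟩, hT, ?_⟩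
      rintro x (rfl | rfl)
      · exact ⟨Or.inl hbd, hbH⟩
      · exact ⟨Or.inr hc, hcH⟩
    · obtain ⟨a1, a2, a3⟩ := h1 F hF
      exact ⟨a1, a2, fun x hx => ⟨Or.inr (a3 x hx).1, fun h => (a3 x hx).2 (Or.inl h)⟩⟩
  · have key : ∀ F ∈ Xs, ∀ x ∈ F, x ∉ ({b, c} : Set (Cyc k)) := by
      rintro F hF x hx (rfl | rfl)
      · exact hbK ((h1 F hF).2.2 _ hx).1
      · exact ((h1 F hF).2.2 _ hx).2 (Or.inr rfl)
    rintro F (rfl | hF) F' (rfl | hF') x hx hx'
    · rfl
    · exact absurd hx (key F' hF' x hx')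
    · exact absurd hx' (key F hF x hx)
    · exact h2 F hF F' hF' x hx hx'
  · rintro p0 (hp0 | hp0)
    · obtain ⟨Gp, Gw, hC⟩ := h0 p0 ((hd p0).1 hp0)
      refine ⟨Gp, Gw, hC.congr fun x hx => ?_⟩
      rw [hp0] at hx
      constructor
      · rintro (h | h)
        · exact Or.inr h
        · exact Or.inl ⟨_, Or.inl rfl, Or.inl h⟩
      · rintro (⟨F, rfl | hF, hxF⟩ | h)
        · rcases hxF with rfl | rfl
          · exact Or.inr rfl
          · rw [hx] at hc
            exact absurd hc hdK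
        · have := ((h1 F hF).2.2 x hxF).1
          rw [hx] at this
          exact absurd this hdK
        · exact Or.inl h
    · obtain ⟨Gp, Gw, hC⟩ := h3 p0 hp0
      refine ⟨Gp, Gw, hC.congr fun x hx => ?_⟩
      constructor
      · rintro (⟨F, hF, hxF⟩ | (h | h))
        · exact Or.inl ⟨F, Or.inr hF, hxF⟩
        · exact Or.inr h
        · exact Or.inl ⟨_, Or.inl rfl, Or.inr h⟩
      · rintro (⟨F, rfl | hF, hxF⟩ | h)
        · rcases hxF with rfl | rfl
          · rw [← hx] at hp0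
            exact absurd hp0 hbK
          · exact Or.inr (Or.inr rfl)
        · exact Or.inl ⟨F, hF, hxF⟩
        · exact Or.inr (Or.inl h)

end Pool.OddHC
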