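import Pool.Agent.Work.MP_8f87b2_h20.S5Cont
import Pool.Agent.Work.MP_8f87b2_h20.Cls2
import Pool.Agent.Work.MP_8f87b2_h24.J1Same
import Pool.Agent.Work.MP_8f87b2_h22.B6
import Pool.Agent.Work.MP_8f87b2_fin.ClsInv

/-!
# Section 5: uniqueness of the T-cycles of small contents, rotations
-/

set_option autoImplicit false

namespace Pool.OddHC

open Finset Equiv BinaryTree Multiset Ring1 Pool.Agent.Work.MP_8f87b2_co

namespace S5

variable {k j : ℕ}

/-- one T-cycle with the content `M` -/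
def Uq (k : ℕ) (M : Multiset ℕ) : Prop := ∀ p q : Cyc k, contc p = M → contc q = M → p = q

/-- every T-cycle over `u` is given by beads on the ring of `u` -/
theorem over_u (hj : 1 ≤ j) (u : X j) (p : Cyc k) (h : Rd p = ⟨j, cyc u⟩) :
    ∃ (a : ZMod (2 * j + 1) → ℕ) (hk : j + pkn u.1 + ∑ x, a x = k), p = cyc (phi u a hk) ∧
      ∑ x, a x = (contc p).count 1 := by
  have h1 := Rd_size p
  rw [h] at h1
  change j + pkc (cyc u) + _ = k at h1
  rw [pkc_cyc] at h1
  obtain ⟨g, hg, F, hinj, hF, hR, hs, hH, hA⟩ := family_rem hj u ((contc p).count 1) h1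
  obtain ⟨q, hq⟩ := hs p h
  obtain ⟨a, rfl⟩ := Quotient.exists_rep q
  refine ⟨a.1, by rw [a.2]; exact h1, ?_, a.2⟩
  exact hq.symm.trans (hF a _ rfl)

theorem contc_pos (p : Cyc k) : ∀ x ∈ contc p, 1 ≤ x := by
  obtain ⟨w, rfl⟩ := Quotient.exists_rep p
  exact cont_pos w.1

theorem contc_sum (p : Cyc k) : (contc p).sum = k := by
  obtain ⟨w, rfl⟩ := Quotient.exists_rep p
  change (cont w.1).sum = k
  rw [cont_sum, X_num]

/-- the reduced T-cycle of a content -/
theorem Rd_cont {p : Cyc k} {M : Multiset ℕ} {m : ℕ} (hM : 0 ∉ M)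
    (h : contc p = M.map (· + 1) + replicate m 1) :
    contc (Rd p).2 = M ∧ (Rd p).1 = M.sum ∧ (contc p).count 1 = m := by
  have h1 := contc_eq p
  have hc : (contc p).count 1 = m := by
    rw [h, Multiset.count_add, Multiset.count_replicate_self]
    have : (M.map (· + 1)).count 1 = 0 := by
      rw [Multiset.count_eq_zero]
      intro hx
      obtain ⟨y, hy, hy2⟩ := Multiset.mem_map.1 hx
      have : y = 0 := by omega
      subst this
      exact hM hy
    omega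
  have h2 : contc (Rd p).2 = M := by
    rw [hc, h] at h1
    have h3 := add_right_cancel h1
    exact (Multiset.map_injective (add_left_injective 1) h3).symm
  refine ⟨h2, ?_, hc⟩
  rw [← h2, contc_sum]

theorem Rd_of_Uq {p q : Cyc k} {M : Multiset ℕ} {m : ℕ} (hM : 0 ∉ M) (hU : Uq M.sum M)
    (h : contc p = M.map (· + 1) + replicate m 1) (h' : contc q = M.map (· + 1) + replicate m 1) :
    Rd p = Rd q := by
  obtain ⟨h1, h2, -⟩ := Rd_cont hM h
  obtain ⟨g1, g2, -⟩ := Rd_cont hM h'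
  obtain ⟨⟨i, U⟩, e⟩ : ∃ d, d = Rd p := ⟨_, rfl⟩
  obtain ⟨⟨i', U'⟩, e'⟩ : ∃ d, d = Rd q := ⟨_, rfl⟩
  rw [← e] at h1 h2 ⊢
  rw [← e'] at g1 g2 ⊢
  change i = M.sum at h2
  change i' = M.sum at g2
  subst h2
  subst g2
  change contc U = M at h1
  change contc U' = M at g1
  rw [hU U U' h1 g1]

theorem Uq_inf {M : Multiset ℕ} (hM : 0 ∉ M) (h0 : M ≠ 0) (hU : Uq M.sum M) : Uq k (M.map (· + 1)) := by
  intro p q hp hq
  have hp' : contc p = M.map (· + 1) + replicate 0 1 := by rw [hp, replicate_zero, add_zero]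
  have hq' : contc q = M.map (· + 1) + replicate 0 1 := by rw [hq, replicate_zero, add_zero]
  have hR := Rd_of_Uq hM hU hp' hq'
  obtain ⟨h1, h2, h3⟩ := Rd_cont hM hp'
  obtain ⟨g1, g2, g3⟩ := Rd_cont hM hq'
  obtain ⟨⟨i, U⟩, e⟩ : ∃ d, d = Rd p := ⟨_, rfl⟩
  obtain ⟨u, rfl⟩ := Quotient.exists_rep U
  have hi : 1 ≤ i := by
    rw [← e] at h2
    change i = M.sum at h2
    obtain ⟨x, hx⟩ := Multiset.exists_mem_of_ne_zero h0
    have h4 : x ≤ M.sum := Multiset.single_le_sum (fun _ _ => Nat.zero_le _) x hx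
    have h5 : x ≠ 0 := fun h => hM (h ▸ hx)
    omega
  obtain ⟨a, hk, ha, ha2⟩ := over_u hi u p e.symm
  obtain ⟨b, hk', hb, hb2⟩ := over_u hi u q (by rw [← hR]; exact e.symm)
  rw [h3] at ha2
  rw [g3] at hb2
  have hab : a = b := by
    funext x
    have e1 : a x = 0 := Finset.sum_eq_zero_iff.1 ha2 x (Finset.mem_univ _)
    have e2 : b x = 0 := Finset.sum_eq_zero_iff.1 hb2 x (Finset.mem_univ _)
    rw [e1, e2]
  subst hab
  rw [ha, hb]

theorem Uq_ch (n : ℕ) (hn : 1 ≤ n) : Uq n {n} := by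
  intro p q hp hq
  have key : ∀ p : Cyc n, contc p = {n} → p = cyc (pwX n) := by
    intro p hp
    obtain ⟨w, rfl⟩ := Quotient.exists_rep p
    have h1 : cont w.1 = {n} := hp
    have h2 : ht w.1 = n := by rw [ht_eq, h1, Multiset.sup_singleton]
    have h3 := ht_fullX w h2
    change cyc w = _
    rw [h3]
  rw [key p hp, key q hq]

/-- rotation over one soliton -/
theorem rot1 {q : ℕ} (hq : 1 ≤ q) (F : ZMod (2 * q + 1) → ℕ) (hk : q + pkn (pwX q).1 + ∑ x, F x = k)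
    (c : ZMod (2 * q + 1)) :
    cyc (phi (pwX q) F hk) = cyc (phi (pwX q) (fun x => F (x + c)) (by rw [sum_shift]; exact hk)) := by
  obtain ⟨t, ht⟩ := (unit_q hq).2 c
  obtain ⟨i, rfl⟩ : ∃ i : ℕ, (i : ZMod (2 * q + 1)) = t := ⟨t.val, ZMod.natCast_zmod_val t⟩
  rw [cyc_eq]
  refine ⟨(i : ℤ), ?_⟩
  rw [zpow_natCast, pow_phi]
  apply phi_congr (sp_pw q hq i).2
  funext x
  rw [(sp_pw q hq i).1]
  exact congrArg F (congrArg (x + ·) ht)

theorem one_bead {L : ℕ} [NeZero L] {a : ZMod L → ℕ} (h : ∑ x, a x = 1) : ∃ y, a = fun x => if x = y then 1 else 0 := by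
  classical
  obtain ⟨y, hy⟩ : ∃ y, a y ≠ 0 := by
    by_contra hn
    push Not at hn
    rw [Finset.sum_eq_zero fun x _ => hn x] at h
    exact absurd h (by norm_num)
  have h2 : a y + ∑ x ∈ univ.erase y, a x = 1 := by
    rw [Finset.add_sum_erase _ _ (Finset.mem_univ y)]
    exact h
  refine ⟨y, ?_⟩
  funext x
  by_cases hx : x = y
  · subst hx
    rw [if_pos rfl]
    omega
  · rw [if_neg hx]
    have h3 : ∑ x ∈ univ.erase y, a x = 0 := by omega
    exact Finset.sum_eq_zero_iff.1 h3 x (Finset.mem_erase.2 ⟨hx, Finset.mem_univ _⟩)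

theorem Uq_one (n : ℕ) (hn : 1 ≤ n) : Uq k ({n + 1} + {1}) := by
  have key : ∀ p : Cyc k, contc p = {n + 1} + {1} → ∃ (y : ZMod (2 * n + 1))
      (hk : n + pkn (pwX n).1 + ∑ x, (if x = y then 1 else 0) = k),
      p = cyc (phi (pwX n) (fun x => if x = y then 1 else 0) hk) := by
    intro p hp
    obtain ⟨h1, h2, h3⟩ := Rd_cont (M := {n}) (m := 1) (by simp; omega) (by rw [hp]; simp)
    obtain ⟨⟨i, U⟩, e⟩ : ∃ d, d = Rd p := ⟨_, rfl⟩
    rw [← e] at h1 h2
    change i = _ at h2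
    rw [Multiset.sum_singleton] at h2
    subst h2
    have hU : U = cyc (pwX i) := Uq_ch i hn _ _ h1 (by
      rw [contc_cyc]
      change cont (pw i) = {i}
      rw [← ch_eq]
      exact c_ch hn)
    subst hU
    obtain ⟨a, hk, ha, ha2⟩ := over_u hn _ p e.symm
    rw [h3] at ha2
    obtain ⟨y, rfl⟩ := one_bead ha2
    exact ⟨y, hk, ha⟩
  intro p q hp hq
  obtain ⟨y, hk, rfl⟩ := key p hp
  obtain ⟨z, hk', rfl⟩ := key q hq
  rw [rot1 hn _ hk (y - z)]
  congr 1
  apply phi_congr rfl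
  funext x
  congr 1
  rw [eq_iff_iff]
  constructor
  · intro h
    linear_combination h
  · intro h
    linear_combination h

/-- equal contents, equal classes -/
theorem cl_of_cont {p q : Cyc k} {M : Multiset ℕ} {a m : ℕ} (hM : 0 ∉ M) (hU : Uq M.sum M)
    (h : contc p = M.map (· + 2) + replicate a 2 + replicate m 1)
    (h' : contc q = M.map (· + 2) + replicate a 2 + replicate m 1) : cl p = cl q := by
  have e : M.map (· + 2) + replicate a 2 = (M.map (· + 1) + replicate a 1).map (· + 1) := by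
    rw [Multiset.map_add, Multiset.map_map, Multiset.map_replicate]
    rfl
  have h0 : 0 ∉ M.map (· + 1) + replicate a 1 := by
    intro hx
    rcases Multiset.mem_add.1 hx with hx | hx
    · obtain ⟨y, hy, hy2⟩ := Multiset.mem_map.1 hx
      omega
    · have := Multiset.eq_of_mem_replicate hx
      omega
  rw [e] at h h'
  obtain ⟨h1, -, -⟩ := Rd_cont h0 h
  obtain ⟨g1, -, -⟩ := Rd_cont h0 h'
  unfold cl
  rw [h, h']
  congr 1
  obtain ⟨a1, a2, a3⟩ := Rd_cont hM h1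
  obtain ⟨b1, b2, b3⟩ := Rd_cont hM g1
  obtain ⟨⟨i, V⟩, e1⟩ : ∃ d, d = Rd (Rd p).2 := ⟨_, rfl⟩
  obtain ⟨⟨i', V'⟩, e2⟩ : ∃ d, d = Rd (Rd q).2 := ⟨_, rfl⟩
  rw [← e1] at a1 a2 ⊢
  rw [← e2] at b1 b2 ⊢
  change i = M.sum at a2
  change i' = M.sum at b2
  subst a2
  subst b2
  rw [hU V V' a1 b1]

end S5

end Pool.OddHC
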