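import Pool.Agent.Work.MP_8f87b2_h20.S5B
import Pool.Agent.Work.MP_8f87b2_fin.RemTwo

/-!
# Section 5: the classes `X_a = (s, 3, 2^a, 1^m)`, guests
-/

set_option autoImplicit false

namespace Pool.OddHC

open Finset Equiv BinaryTree Multiset Ring1 Pool.Agent.Work.MP_8f87b2_co Pool.OddHop

variable {i j k : ℕ}

variable {τp τw : Type} {Pp : τp → Set (Cyc k) → DG k → Prop} {Pw : τw → Set (Cyc k) → DG k → Prop}
  {AE : Cyc k → Cyc k → Prop}

variable {p0 : Cyc k} {U1 : Cyc j} {X : Set (Cyc k)} {m : ℕ}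

/-- **families odd, the class even**: a window over `Ua`, a guest over `Ub` -/
theorem r1_two (hEnv : ClsEnv AE Pp Pw (cl p0)) (hp0 : Rd p0 = ⟨j, U1⟩)
    (hm : 1 ≤ m) (hk : j + pkc U1 + m = k) (ho : oddF j m)
    {Ua Ub : Cyc j} (hUa : Rd Ua = Rd U1) (hUb : Rd Ub = Rd U1) (hne : Ua ≠ Ub)
    (hrem : RemOK (Rd U1) {Ua, Ub}) {w g : Cyc k} (hw : Rd w = ⟨j, Ua⟩) (hg : Rd g = ⟨j, Ub⟩)
    (hw2 : m = 2 → IsTwo w) (hg2 : m = 2 → IsTwo g) (hty : Typd Pp Pw {w})
    (hX : ∀ c, cl c = cl p0 → (c ∈ X ↔ c = g)) :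
    ∃ Gp Gw, ClsOK AE (cl p0) X Gp Gw Pp Pw := by
  obtain ⟨I, hI⟩ := hrem
  have hXU : ∀ U, Rd U = Rd U1 → U ≠ Ub → ∀ c ∈ X, Rd c ≠ ⟨j, U⟩ := by
    intro U hU hneU c hc h
    have h3 := (hX c (cl_same hp0 h hU)).1 hc
    rw [h3, hg] at h
    exact hneU (eq_of_heq (Sigma.mk.inj_iff.1 h).2).symm
  refine cls_of_inv' hp0 X I (fun U hU => ⟨(hI U hU).1, (hI U hU).2.1⟩) ?_ ?_
  · intro U hU hneU
    obtain ⟨e1, e2, e3, e4⟩ := hI U hU
    have hU' : U ≠ Ub := fun h => hneU (e4.2 (Or.inr h))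
    have hIU : I U ≠ Ub := by
      intro h
      have h5 := (hI (I U) e1).2.2.2.2 (Or.inr h)
      rw [e2] at h5
      exact hneU h5.symm
    have f1 := rem_plain (X := X) hEnv hp0 hk hU (hXU U hU hU')
    have f2 := rem_plain (X := X) hEnv hp0 hk e1 (hXU (I U) e1 hIU)
    right
    have hhop : HopC U (I U) := by
      rcases e3 with e3 | e3
      · exact absurd e3 hneU
      · exact e3
    obtain ⟨p, q, g', hp, hq, ht, hLg⟩ := tyL_top (k := k) (fun h => hneU h.symm) hhop hm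
      (by rw [pkc_Rd hU]; exact hk)
    have htt : m = 2 → TopTwo p ∧ TopTwo q := by
      intro h3
      apply ht h3
      rw [h3] at ho
      exact oddF_two_even ho
    obtain ⟨a1, a2⟩ := f1.2 ho p hp (fun h => (htt h).1.two)
    obtain ⟨b1, b2⟩ := f2.2 ho q hq (fun h => (htt h).2.two)
    exact ⟨p, q, hp, hq, a1, b1, hEnv.l p q g' (cl_same hp0 hp hU) (cl_same hp0 hq e1) hLg, a2, b2⟩
  · intro U hU hf
    rcases (hI U hU).2.2.2.1 hf with rfl | rfl
    · obtain ⟨h3, h4⟩ := (rem_plain (X := X) hEnv hp0 hk hU (hXU _ hU hne)).2 ho w hw hw2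
      refine ⟨{{w}}, ?_, ?_, ?_⟩
      · rintro F hF
        rw [Set.mem_singleton_iff] at hF
        subst hF
        refine ⟨⟨w, rfl⟩, hty, ?_⟩
        rintro c hc
        rw [Set.mem_singleton_iff] at hc
        subst hc
        exact ⟨hw, h3⟩
      · rintro F hF F' hF' c _ _
        rw [Set.mem_singleton_iff] at hF hF'
        rw [hF, hF']
      · rw [inG_single]
        exact h4
    · refine ⟨∅, fun F h => absurd h (Set.notMem_empty _), fun F h => absurd h (Set.notMem_empty _), ?_⟩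
      rw [inG_empty', Set.empty_union]
      have hc := count_class hp0 hk hg hU
      refine (hEnv.rem hp0 hU (remOK_lo ⟨j, U⟩ g hg (fun h3 _ => hg2 (by rw [← hc, h3])))).congr
        fun c hc' => ?_
      rw [Set.mem_ofPred_eq, hc, hX c (cl_same hp0 hc' hU)]
      exact ⟨fun h => h.1, fun h => ⟨h, ho⟩⟩

namespace S5

/-! ### the reduced words -/

/-- `[1] [s-2]`, the doubly reduced word, `s = n + 2` -/
def vX (n : ℕ) : OddHC.X (n + 1) := ⟨app (lp 1) (pw n), mem_treesOfNumNodesEq.2 (by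
  rw [num_app, lp_num, pw_num]
  omega)⟩

theorem c_vX {n : ℕ} (hn : 1 ≤ n) : cont (vX n).1 = {n} + {1} := by
  change cont (app (lp 1) (pw n)) = _
  rw [cont_app, c_lp, ← ch_eq, c_ch hn, Multiset.replicate_one, add_comm]

theorem rotU_v {n : ℕ} (hn : 1 ≤ n) {u : OddHC.X (n + 1)} (hu : cont u.1 = {n} + {1}) : RotU u := by
  obtain ⟨n, rfl⟩ : ∃ n', n = n' + 1 := ⟨n - 1, by omega⟩
  rcases Nat.eq_zero_or_pos n with rfl | hn'
  · have hv : u = HT.hhX 2 := by
      apply Subtype.ext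
      change u.1 = lv 2 .nil
      have h1 : ht u.1 ≤ 1 := by
        rw [ht_eq, hu]
        decide
      rw [lp_of_ht u.1 h1, X_num]
    subst hv
    obtain ⟨h1, h2⟩ := HT.pow_hh (t := 2) (by norm_num) 2
    exact rotU_turn (n := 2) h2 (h1.trans (by norm_num))
  · exact rotU_one hn' (Rd_a1 hn' (by rw [contc_cyc, hu]))

/-- `[2] [s-1] ()^a`, the reduced word -/
def uX (n a : ℕ) : OddHC.X (n + 3 + a) := ⟨app (app (pw 2) (pw (n + 1))) (lp a), mem_treesOfNumNodesEq.2 (by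
  rw [num_app, num_app, lp_num, pw_num, pw_num]
  omega)⟩

theorem c_uX (n a : ℕ) : cont (uX n a).1 = {n + 1} + {2} + replicate a 1 := by
  change cont (app (app (pw 2) (pw (n + 1))) (lp a)) = _
  rw [cont_app, cont_app, c_lp, ← ch_eq, ← ch_eq, c_ch (by omega), c_ch (by omega)]
  abel

theorem uX_pile {n a : ℕ} (hn : 1 ≤ n) : Pile (uX n a) (vX n) a := by
  refine pile_pos (a := 2 * (n + 1)) (b := 0) (by omega) ?_
  change app (app (pw 2) (pw (n + 1))) (lp a) = ins (app (lp 1) (pw n)) _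
  have h1 := ins_end (app (lp 1) (pw n)) a
  have e1 : (app (lp 1) (pw n)).numNodes = n + 1 := by
    rw [num_app, lp_num, pw_num]
    omega
  rw [e1] at h1
  obtain ⟨n, rfl⟩ : ∃ n', n = n' + 1 := ⟨n - 1, by omega⟩
  rw [List.replicate_zero, h1, inf_app, inf_pw, ch_eq]
  rfl

/-- two piles over the same doubly reduced T-cycle -/
theorem pile_same {i : ℕ} {v v' : OddHC.X i} (hv : RotU v) (h : cyc v' = cyc v) {a : ℕ} {u u' : OddHC.X j}
    (hu : Pile u v a) (hu' : Pile u' v' a) : cyc u' = cyc u := by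
  obtain ⟨x, hx⟩ := hu
  obtain ⟨x', hx'⟩ := hu'
  obtain ⟨w, h1, h2⟩ := pile_at hv h hx' x
  rw [← h2]
  congr 1
  exact Subtype.ext (h1.trans hx.symm)

theorem Rd_pile {i : ℕ} {v : OddHC.X i} {a : ℕ} {u : OddHC.X j} (hu : Pile u v a) : Rd (cyc u) = ⟨i, cyc v⟩ := by
  obtain ⟨x, hx⟩ := hu
  exact Rd_ins (lf_length _) hx

theorem Rd_near {i : ℕ} {v : OddHC.X i} {a : ℕ} {u : OddHC.X j} (hu : Near u v a) : Rd (cyc u) = ⟨i, cyc v⟩ := by
  obtain ⟨x, y, -, hx⟩ := hu
  exact Rd_ins (lf_length _) hx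

theorem Pile.two {i : ℕ} {v : OddHC.X i} {a : ℕ} {u : OddHC.X j} (hu : Pile u v a) :
    (contc (cyc u)).count 1 = 2 → IsTwo (cyc u) := by
  obtain ⟨x, hx⟩ := hu
  exact IsPile.two ⟨i, v, x, a, u, rfl, hx⟩

/-- the three words -/
def gP (n a m : ℕ) : BinaryTree Unit := app (app (H1.ch (n + 2)) (lp m)) (sq a)
def gM (n a m : ℕ) : BinaryTree Unit := app (app (H1.ch (n + 1)) (lp 1) △ lp (m - 1)) (sq a)
def gY (n a m : ℕ) : BinaryTree Unit := app (app (H1.ch (n + 2)) (lp (m - 1))) (lp 2 △ sq (a - 1))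

theorem ins_lp0 (a : ℕ) : ins (lp a) (0 :: List.replicate (2 * a) 0) = sq a := by
  have : 0 :: List.replicate (2 * a) 0 = List.replicate (2 * (lp a).numNodes) 0 ++ [0] := by
    rw [lp_num, ← List.replicate_succ]
    exact List.replicate_succ'
  rw [this, ins_end]
  change app (inf (lp a)) .nil = _
  rw [app_nil']
  unfold sq lp
  rw [inf_lv]
  rfl

theorem gP_pile {n a m : ℕ} {w : OddHC.X k} (hw : w.1 = H1.ch 2 △ gP n a m) :
    w.1 = ins (uX n a).1 (lf fun z => if z = ((2 * n + 6 : ℕ) : ZMod (2 * (n + 3 + a) + 1)) then m else 0) := by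
  rw [← pile_lf (x := 2 * n + 6) (y := 2 * a) (by omega), hw]
  have h1 := ins_end (app (pw 2) (pw (n + 1))) m
  have e1 : (app (pw 2) (pw (n + 1))).numNodes = n + 3 := by
    rw [num_app, pw_num, pw_num]
    omega
  rw [e1] at h1
  have e2 : List.replicate (2 * n + 6) 0 ++ m :: List.replicate (2 * a) 0 =
      (List.replicate (2 * (n + 3)) 0 ++ [m]) ++ List.replicate (2 * a) 0 := by
    rw [List.append_assoc]
    congr 1
  change _ = ins (app (app (pw 2) (pw (n + 1))) (lp a)) _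
  rw [e2, ins_app _ _ _ _ (by rw [e1]; simp), h1, inf_app, inf_pw, inf_pw]
  rw [ins_lp0]
  unfold gP
  change _ = app (app (app (H1.ch 3) (H1.ch (n + 2))) (lp m)) (sq a)
  rw [app_assoc', app_assoc', app_assoc']
  rfl

theorem gM_near {n a m : ℕ} (hn : 1 ≤ n) {w : OddHC.X k} (hw : w.1 = H1.ch 2 △ gM n a m) :
    w.1 = ins (uX n a).1 (lf fun z => (if z = ((2 * n + 6 : ℕ) : ZMod (2 * (n + 3 + a) + 1)) then m - 1 else 0) +
      if z = ((2 * n + 6 : ℕ) : ZMod (2 * (n + 3 + a) + 1)) - 1 then 1 else 0) := by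
  have h0 : w.1 = ins (uX n a).1 (List.replicate (2 * n + 5) 0 ++ 1 :: (m - 1) :: List.replicate (2 * a) 0) := by
    rw [hw]
    have h1 := ins_end2 (pw 2) (pw n) 1 (m - 1)
    have e1 : (app (pw 2) (pw n △ .nil)).numNodes = n + 3 := by
      rw [num_app, pw_num]
      change 2 + ((pw n).numNodes + 0 + 1) = _
      rw [pw_num]
      omega
    rw [pw_num, pw_num] at h1
    have e2 : List.replicate (2 * n + 5) 0 ++ 1 :: (m - 1) :: List.replicate (2 * a) 0 =
        (List.replicate (2 * 2 + 2 * n + 1) 0 ++ [1, m - 1]) ++ List.replicate (2 * a) 0 := by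
      rw [List.append_assoc]
      have : 2 * 2 + 2 * n + 1 = 2 * n + 5 := by ring
      rw [this]
      rfl
    change _ = ins (app (app (pw 2) (pw n △ .nil)) (lp a)) _
    rw [e2, ins_app _ _ _ _ (by rw [e1]; simp; ring), h1, ins_lp0, inf_pw]
    obtain ⟨n, rfl⟩ : ∃ n', n = n' + 1 := ⟨n - 1, by omega⟩
    rw [inf1_eq (by exact fun h => by cases h), inf_pw]
    unfold gM
    rw [app_assoc']
    rfl
  rw [near_of_list (by omega) h0]
  congr 2
  funext z
  have e : ((2 * n + 5 + 1 : ℕ) : ZMod (2 * (n + 3 + a) + 1)) - 1 = ((2 * n + 5 : ℕ) : ZMod (2 * (n + 3 + a) + 1)) := by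
    push_cast; ring
  rw [← e]
  exact add_comm _ _

theorem gY_near {n a m : ℕ} (ha : 1 ≤ a) {w : OddHC.X k} (hw : w.1 = H1.ch 2 △ gY n a m) :
    w.1 = ins (uX n a).1 (lf fun z => (if z = ((2 * n + 6 : ℕ) : ZMod (2 * (n + 3 + a) + 1)) then m - 1 else 0) +
      if z = ((2 * n + 6 : ℕ) : ZMod (2 * (n + 3 + a) + 1)) + 1 then 1 else 0) := by
  obtain ⟨a, rfl⟩ : ∃ a', a = a' + 1 := ⟨a - 1, by omega⟩
  have h0 : w.1 = ins (uX n (a + 1)).1
      (List.replicate (2 * n + 6) 0 ++ (m - 1) :: 1 :: List.replicate (2 * a + 1) 0) := by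
    rw [hw]
    have h1 := ins_end (app (pw 2) (pw (n + 1))) (m - 1)
    have e1 : (app (pw 2) (pw (n + 1))).numNodes = n + 3 := by
      rw [num_app, pw_num, pw_num]
      omega
    rw [e1] at h1
    have e2 : List.replicate (2 * n + 6) 0 ++ (m - 1) :: 1 :: List.replicate (2 * a + 1) 0 =
        (List.replicate (2 * (n + 3)) 0 ++ [m - 1]) ++ 1 :: List.replicate (2 * a + 1) 0 := by
      rw [List.append_assoc]
      congr 1
    change _ = ins (app (app (pw 2) (pw (n + 1))) (lp (a + 1))) _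
    rw [e2, ins_app _ _ _ _ (by rw [e1]; simp), h1, inf_app, inf_pw, inf_pw]
    have e3 : ins (lp (a + 1)) (0 :: 1 :: List.replicate (2 * a + 1) 0) = lp 2 △ sq a := by
      change ins (.nil △ lp a) _ = _
      rw [ins, List.headD_cons, List.tail_cons]
      have e5 : (BinaryTree.nil : BinaryTree Unit).numNodes = 0 := rfl
      rw [e5]
      change lv 0 (ins .nil (bump .nil [1]) △ ins (lp a) (List.replicate (2 * a + 1) 0)) = _
      rw [List.replicate_succ, ins_lp0]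
      rfl
    rw [e3]
    unfold gY
    change _ = app (app (app (H1.ch 3) (H1.ch (n + 2))) (lp (m - 1))) (lp 2 △ sq (a + 1 - 1))
    rw [app_assoc', app_assoc', app_assoc']
    rfl
  rw [near_of_list (by omega) h0]
  push_cast
  rfl

/-- contents -/
theorem c_gP (n a m : ℕ) : cont (gP n a m) = {n + 2} + replicate a 2 + replicate m 1 := by
  unfold gP
  rw [cont_app, cont_app, c_lp, c_sq, c_ch (by omega)]
  abel

theorem c_gM (n a m : ℕ) (hm : 1 ≤ m) : cont (gM n a m) = {n + 2} + replicate a 2 + replicate m 1 := by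
  unfold gM
  rw [cont_app, cont_node, cont_app, c_lp, c_lp, c_sq, c_ch (by omega),
    raise_top (s := n + 1) (M := replicate 1 1) fun x hx => by
      rw [Multiset.eq_of_mem_replicate hx]
      omega]
  obtain ⟨m, rfl⟩ : ∃ m', m = m' + 1 := ⟨m - 1, by omega⟩
  have e : replicate (m + 1) 1 = replicate 1 1 + replicate m 1 := by
    rw [← Multiset.replicate_add, add_comm]
  rw [Nat.add_sub_cancel, e]
  abel

theorem c_gY (n a m : ℕ) (hm : 1 ≤ m) (ha : 1 ≤ a) : cont (gY n a m) = {n + 2} + replicate a 2 + replicate m 1 := by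
  unfold gY
  obtain ⟨m, rfl⟩ : ∃ m', m = m' + 1 := ⟨m - 1, by omega⟩
  obtain ⟨a, rfl⟩ : ∃ a', a = a' + 1 := ⟨a - 1, by omega⟩
  rw [cont_app, cont_app, cont_node, c_lp, c_lp, c_sq, c_ch (by omega), raise_lp 1]
  have e : replicate (m + 1) 1 = replicate 1 1 + replicate m 1 := by
    rw [← Multiset.replicate_add, add_comm]
  have e' : replicate (a + 1) 2 = {2} + replicate a 2 := by
    rw [Multiset.replicate_succ, ← Multiset.singleton_add]
  rw [Nat.add_sub_cancel, Nat.add_sub_cancel, e, e']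
  abel

/-- the guests of an even class, even families -/
def Gd (n a m : ℕ) (S : BinaryTree Unit) : Prop := S = gP n a m ∨ S = gM n a m ∨ S = gY n a m

theorem Gd.cont {n a m : ℕ} (ha : 1 ≤ a) (hm : 1 ≤ m) {S : BinaryTree Unit} (h : Gd n a m S) :
    OddHC.cont S = {n + 2} + replicate a 2 + replicate m 1 := by
  rcases h with rfl | rfl | rfl
  · exact c_gP n a m
  · exact c_gM n a m hm
  · exact c_gY n a m hm ha

theorem ht_of_cont {S : BinaryTree Unit} {n : ℕ} {M : Multiset ℕ} (h : OddHC.cont S = {n} + M) : n ≤ ht S := by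
  rw [ht_eq, h]
  exact Multiset.le_sup (Multiset.mem_add.2 (Or.inl (Multiset.mem_singleton_self n)))

/-- **three options**: `z` is any member of the family of the pile `[2] [s-1] ()^a` -/
theorem guest_even {n a m : ℕ} (hn : 1 ≤ n) (ha : 1 ≤ a) (hm : 3 ≤ m) (hk : n + 5 + 2 * a + m = k)
    (hev : ¬ oddF (n + 3 + a) m) {z : Cyc k} (hz : Rd z = ⟨n + 3 + a, cyc (uX n a)⟩) :
    ∃ S, Gd n a m S ∧ ∀ c : OddHC.X k, c.1 = H1.ch 2 △ S →
      z ≠ cyc c ∧ RemOK ⟨n + 3 + a, cyc (uX n a)⟩ ({z} ∪ {cyc c}) := by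
  have hnum : ∀ S, Gd n a m S → (H1.ch 2 △ S).numNodes = k := by
    intro S hS
    change (H1.ch 2).numNodes + S.numNodes + 1 = k
    rw [← cont_sum S, hS.cont ha (by omega), Multiset.sum_add, Multiset.sum_add, Multiset.sum_replicate,
      Multiset.sum_replicate, Multiset.sum_singleton, show (H1.ch 2).numNodes = 2 from rfl]
    simp only [smul_eq_mul]
    omega
  obtain ⟨p, hp⟩ : ∃ p : OddHC.X k, p.1 = H1.ch 2 △ gP n a m :=
    ⟨⟨_, mem_treesOfNumNodesEq.2 (hnum _ (Or.inl rfl))⟩, rfl⟩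
  obtain ⟨q', hq'⟩ : ∃ p : OddHC.X k, p.1 = H1.ch 2 △ gM n a m :=
    ⟨⟨_, mem_treesOfNumNodesEq.2 (hnum _ (Or.inr (Or.inl rfl)))⟩, rfl⟩
  obtain ⟨q, hq⟩ : ∃ p : OddHC.X k, p.1 = H1.ch 2 △ gY n a m :=
    ⟨⟨_, mem_treesOfNumNodesEq.2 (hnum _ (Or.inr (Or.inr rfl)))⟩, rfl⟩
  have hp1 := gP_pile hp
  have hq1' := gM_near hn hq'
  have hq1 := gY_near ha hq
  have uq : ∀ {c c' : OddHC.X k}, c.1 = c'.1 → c = c' := fun h => Subtype.ext h
  by_cases h : z = cyc p
  · refine ⟨gM n a m, Or.inr (Or.inl rfl), fun c hc => ?_⟩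
    have e : c = q' := uq (hc.trans hq'.symm)
    subst e
    constructor
    · rw [h]
      refine pile_ne_near (by omega) ?_ hp1 hq1'
      have : Fact (1 < 2 * (n + 3 + a) + 1) := ⟨by omega⟩
      intro h
      exact one_ne_zero (show (1 : ZMod (2 * (n + 3 + a) + 1)) = 0 by linear_combination -h)
    · rw [h]
      exact remOK_py (by omega) hm (Or.inr rfl) hp1 hq1' hev
  · obtain ⟨g, hg, hgz, hR⟩ := remOK_t (by omega) hm hp1 hq1 hq1' hev hz h
    rcases hg with rfl | rfl | rfl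
    · refine ⟨gP n a m, Or.inl rfl, fun c hc => ?_⟩
      have e : c = p := uq (hc.trans hp.symm)
      subst e
      exact ⟨hgz.symm, hR⟩
    · refine ⟨gY n a m, Or.inr (Or.inr rfl), fun c hc => ?_⟩
      have e : c = q := uq (hc.trans hq.symm)
      subst e
      exact ⟨hgz.symm, hR⟩
    · refine ⟨gM n a m, Or.inr (Or.inl rfl), fun c hc => ?_⟩
      have e : c = q' := uq (hc.trans hq'.symm)
      subst e
      exact ⟨hgz.symm, hR⟩

end S5

end Pool.OddHC
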