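import Pool.Agent.Work.MP_8f87b2_h20.S5X

/-!
# Section 5: the classes `X_a = (s, 3, 2^a, 1^m)`, `m ≥ 1`, `a ≥ 1`, with one guest
-/

set_option autoImplicit false

namespace Pool.OddHC

open Finset Equiv BinaryTree Multiset Ring1 Pool.Agent.Work.MP_8f87b2_co Pool.OddHop

variable {i j k : ℕ}

variable {τp τw : Type} {Pp : τp → Set (Cyc k) → DG k → Prop} {Pw : τw → Set (Cyc k) → DG k → Prop}
  {AE : Cyc k → Cyc k → Prop}

namespace S5

/-! ### two beads -/

theorem pile_tc {u u' : OddHC.X j} (hu : cyc u' = cyc u) (hk : j + pkn u.1 + 2 = k) {p : OddHC.X k}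
    (hp : Pile p u' 2) : ∃ a, cyc p = tc u hk a 0 := by
  obtain ⟨x, hx⟩ := hp
  have hk' : j + pkn u'.1 + 2 = k := by
    have e1 : pkn u'.1 = pkn u.1 := by rw [← pkc_cyc, hu, pkc_cyc]
    rw [e1]
    exact hk
  obtain ⟨t, ht⟩ := tc_phase hu hk hk'
  refine ⟨x + t, ?_⟩
  rw [← ht]
  apply tc_word
  rw [hx]
  congr 2
  funext z
  rw [Nat.cast_zero, add_zero]
  split_ifs <;> rfl

theorem near_tc {u u' : OddHC.X j} (hu : cyc u' = cyc u) (hk : j + pkn u.1 + 2 = k) {p : OddHC.X k}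
    (hp : Near p u' 2) : ∃ a, cyc p = tc u hk a 1 := by
  obtain ⟨x, y, hy, hx⟩ := hp
  have hk' : j + pkn u'.1 + 2 = k := by
    have e1 : pkn u'.1 = pkn u.1 := by rw [← pkc_cyc, hu, pkc_cyc]
    rw [e1]
    exact hk
  obtain ⟨t, ht⟩ := tc_phase hu hk hk'
  rcases hy with rfl | rfl
  · refine ⟨x + t, ?_⟩
    rw [← ht]
    apply tc_word
    rw [hx, Nat.cast_one]
  · refine ⟨x - 1 + t, ?_⟩
    rw [← ht]
    apply tc_word
    rw [hx, Nat.cast_one]
    congr 2
    funext z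
    rw [sub_add_cancel]
    exact add_comm _ _

/-- pile and near pile, even family, any number of beads -/
theorem rem_pn2 (hj : 1 ≤ j) {u u' u'' : OddHC.X j} (hu : cyc u' = cyc u) (hu2 : cyc u'' = cyc u) {p q : OddHC.X k}
    (hp : Pile p u' 2) (hq : Near q u'' 2) (hev : ¬ oddF j 2) : cyc p ≠ cyc q ∧ RemOK ⟨j, cyc u⟩ {cyc p, cyc q} := by
  have hk : j + pkn u.1 + 2 = k := by
    obtain ⟨x, hx⟩ := hp
    have h0 := word_phi hx
    have h1 : ∑ z : ZMod (2 * j + 1), (if z = x then 2 else 0) = 2 := (pileMs 2 x).2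
    rw [h1] at h0
    have e1 : pkn u'.1 = pkn u.1 := by rw [← pkc_cyc, hu, pkc_cyc]
    rwa [e1] at h0
  obtain ⟨a, ha⟩ := pile_tc hu hk hp
  obtain ⟨b, hb⟩ := near_tc hu2 hk hq
  have hj2 : j % 2 = 1 := by
    by_contra h
    exact hev (oddF_two_iff.2 (by omega))
  rw [ha, hb]
  refine ⟨fun h => ?_, rem_ab hj u hk hj2 a b⟩
  have := (two_family hj u hk).2.1 _ _ _ _ (by omega) (by omega) h
  omega

/-! ### near pile of the squares -/

/-- `[2] ([s-2] ()) ()^(a-1)` -/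
def yX (n a : ℕ) (ha : 1 ≤ a) : OddHC.X (n + 3 + a) :=
  ⟨app (pw 2) (app (pw n) (lp 1) △ lp (a - 1)), mem_treesOfNumNodesEq.2 (by
    rw [num_app, pw_num]
    change 2 + ((app (pw n) (lp 1)).numNodes + (lp (a - 1)).numNodes + 1) = _
    rw [num_app, pw_num, lp_num, lp_num]
    omega)⟩

theorem yX_near {n a : ℕ} (hn : 1 ≤ n) (ha : 1 ≤ a) : Near (yX n a ha) (vX n) a := by
  obtain ⟨n, rfl⟩ : ∃ n', n = n' + 1 := ⟨n - 1, by omega⟩
  obtain ⟨x, hx⟩ := near_neg (u := vX (n + 1)) (w := yX (n + 1) a ha) (m := a) (a := 2 * n + 3) (b := 0) (by omega) (by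
    have h1 := ins_end2 (lp 1) (pw n) 1 (a - 1)
    rw [lp_num, pw_num] at h1
    have e4 : List.replicate (2 * n + 3) 0 ++ 1 :: (a - 1) :: List.replicate 0 0 =
        List.replicate (2 * 1 + 2 * n + 1) 0 ++ [1, a - 1] := by
      have : 2 * 1 + 2 * n + 1 = 2 * n + 3 := by ring
      rw [this]
      simp
    change _ = ins (app (lp 1) (pw n △ .nil)) _
    rw [e4, h1]
    have e5 : inf1 (pw n) = pw (n + 1) := by
      rcases n with _ | n
      · rfl
      · rw [inf1_eq (by exact fun h => by cases h), inf_pw, ch_eq]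
    rw [e5]
    rfl)
  exact ⟨x, x - 1, Or.inr rfl, hx⟩

/-- window over the pile, guest over the near pile -/
theorem rem_uy {n a : ℕ} (hn : 1 ≤ n) (ha : 2 ≤ a) (hev : ¬ oddF (n + 1) a) :
    cyc (uX n a) ≠ cyc (yX n a (by omega)) ∧
      RemOK ⟨n + 1, cyc (vX n)⟩ {cyc (uX n a), cyc (yX n a (by omega))} := by
  have hv := rotU_v hn (c_vX hn)
  rcases Nat.lt_or_ge 2 a with h | h
  · exact ⟨pn_ne (by omega) hv rfl (by omega) (uX_pile hn) (yX_near hn (by omega)),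
      rem_pn (by omega) hv rfl h (uX_pile hn) (yX_near hn (by omega)) hev⟩
  · obtain rfl : a = 2 := by omega
    exact rem_pn2 (by omega) rfl rfl (uX_pile hn) (yX_near hn (by omega)) hev

/-! ### the other guests -/

/-- `[s] (())^a ()^m` -/
def gE (n a m : ℕ) : BinaryTree Unit := app (app (H1.ch (n + 2)) (sq a)) (lp m)
/-- `[s] (())^(a-2) () (())^2` -/
def gE1 (n a : ℕ) : BinaryTree Unit := app (app (app (H1.ch (n + 2)) (sq (a - 2))) (lp 1)) (sq 2)
/-- `([s-1] (())) (())^(a-1) ()^m` -/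
def gO (n a m : ℕ) : BinaryTree Unit := app (app (H1.ch (n + 1)) (H1.ch 2) △ sq (a - 1)) (lp m)
/-- `([s-1] (())) (())^(a-3) () (())^2` -/
def gO1 (n a : ℕ) : BinaryTree Unit := app (app (app (H1.ch (n + 1)) (H1.ch 2) △ sq (a - 3)) (lp 1)) (sq 2)
/-- `([s-1] (()())) (())` -/
def gO2 (n : ℕ) : BinaryTree Unit := app (H1.ch (n + 1)) (lp 2 △ .nil) △ sq 1

theorem inf_sq0 (a : ℕ) : inf (lp a) = sq a := by
  unfold sq lp
  rw [inf_lv]
  rfl

theorem inf_u (n a : ℕ) : inf (uX n a).1 = app (H1.ch 3) (app (H1.ch (n + 2)) (sq a)) := by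
  change inf (app (app (pw 2) (pw (n + 1))) (lp a)) = _
  rw [inf_app, inf_app, inf_pw, inf_pw, inf_sq0, app_assoc']

theorem inf_y {n a : ℕ} (hn : 1 ≤ n) (ha : 1 ≤ a) : inf (yX n a ha).1 =
    app (H1.ch 3) (app (H1.ch (n + 1)) (H1.ch 2) △ sq (a - 1)) := by
  obtain ⟨n, rfl⟩ : ∃ n', n = n' + 1 := ⟨n - 1, by omega⟩
  change inf (app (pw 2) (app (pw (n + 1)) (lp 1) △ lp (a - 1))) = _
  rw [inf_app, inf_pw, inf_node, inf1_eq (by exact fun h => by cases h), inf_app, inf_pw, inf_sq0, inf_sq0]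
  rfl

theorem gE_pile {n a m : ℕ} {w : OddHC.X k} (hw : w.1 = H1.ch 2 △ gE n a m) : Pile w (uX n a) m := by
  refine pile_pos (a := 2 * (n + 3 + a)) (b := 0) (by omega) ?_
  have h1 := ins_end (uX n a).1 m
  rw [X_num] at h1
  rw [hw, List.replicate_zero, h1, inf_u]
  unfold gE
  rw [app_assoc']
  rfl

theorem gE1_rd {n a : ℕ} (ha : 2 ≤ a) {w : OddHC.X k} (hw : w.1 = H1.ch 2 △ gE1 n a) :
    Rd (cyc w) = ⟨n + 3 + a, cyc (uX n a)⟩ := by
  refine Rd_ins (e := (List.replicate (2 * (n + 3 + (a - 2))) 0 ++ [1]) ++ List.replicate (2 * 2) 0) ?_ ?_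
  · simp
    omega
  · obtain ⟨a, rfl⟩ : ∃ a', a = a' + 2 := ⟨a - 2, by omega⟩
    have e0 : (uX n (a + 2)).1 = app (app (app (pw 2) (pw (n + 1))) (lp a)) (lp 2) := by
      change app (app (pw 2) (pw (n + 1))) (lp (a + 2)) = _
      rw [app_assoc' _ (lp a)]
      congr 1
      have : ∀ a, lp (a + 2) = app (lp a) (lp 2) := by
        intro a
        induction a with
        | zero => rfl
        | succ a ih =>
          change .nil △ lp (a + 2) = .nil △ app (lp a) (lp 2)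
          rw [ih]
      exact this a
    have e1 : (app (app (pw 2) (pw (n + 1))) (lp a)).numNodes = n + 3 + a := by
      rw [num_app, num_app, pw_num, pw_num, lp_num]
      omega
    have h1 := ins_end (app (app (pw 2) (pw (n + 1))) (lp a)) 1
    rw [e1] at h1
    rw [e0, Nat.add_sub_cancel, ins_app _ _ _ _ (by rw [e1]; simp), h1, ins_lp0, hw, inf_app, inf_app, inf_pw,
      inf_pw, inf_sq0]
    unfold gE1
    rw [Nat.add_sub_cancel, app_assoc', app_assoc', app_assoc', app_assoc', app_assoc']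
    rfl

theorem gO_pile {n a m : ℕ} (hn : 1 ≤ n) (ha : 1 ≤ a) {w : OddHC.X k} (hw : w.1 = H1.ch 2 △ gO n a m) :
    Pile w (yX n a ha) m := by
  refine pile_pos (a := 2 * (n + 3 + a)) (b := 0) (by omega) ?_
  have h1 := ins_end (yX n a ha).1 m
  rw [X_num] at h1
  rw [hw, List.replicate_zero, h1, inf_y hn ha]
  unfold gO
  rfl

theorem gO1_rd {n a : ℕ} (hn : 1 ≤ n) (ha : 3 ≤ a) {w : OddHC.X k} (hw : w.1 = H1.ch 2 △ gO1 n a) :
    Rd (cyc w) = ⟨n + 3 + a, cyc (yX n a (by omega))⟩ := by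
  refine Rd_ins (e := (List.replicate (2 * (n + 3 + (a - 2))) 0 ++ [1]) ++ List.replicate (2 * 2) 0) ?_ ?_
  · simp
    omega
  · obtain ⟨a, rfl⟩ : ∃ a', a = a' + 3 := ⟨a - 3, by omega⟩
    obtain ⟨n, rfl⟩ : ∃ n', n = n' + 1 := ⟨n - 1, by omega⟩
    have this : ∀ a, lp (a + 2) = app (lp a) (lp 2) := by
      intro a
      induction a with
      | zero => rfl
      | succ a ih =>
        change .nil △ lp (a + 2) = .nil △ app (lp a) (lp 2)
        rw [ih]
    have e0 : (yX (n + 1) (a + 3) (by omega)).1 =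
        app (app (pw 2) (app (pw (n + 1)) (lp 1) △ lp a)) (lp 2) := by
      change app (pw 2) (app (pw (n + 1)) (lp 1) △ lp (a + 2)) = _
      rw [this, app_assoc']
      rfl
    have e1 : (app (pw 2) (app (pw (n + 1)) (lp 1) △ lp a)).numNodes = n + 1 + 3 + (a + 1) := by
      rw [num_app, pw_num]
      change 2 + ((app (pw (n + 1)) (lp 1)).numNodes + (lp a).numNodes + 1) = _
      rw [num_app, pw_num, lp_num, lp_num]
      omega
    have h1 := ins_end (app (pw 2) (app (pw (n + 1)) (lp 1) △ lp a)) 1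
    rw [e1] at h1
    have e2 : a + 3 - 2 = a + 1 := by omega
    rw [e0, e2, ins_app _ _ _ _ (by rw [e1]; simp), h1, ins_lp0, hw, inf_app, inf_pw, inf_node,
      inf1_eq (by exact fun h => by cases h), inf_app, inf_pw, inf_sq0, inf_sq0]
    unfold gO1
    rw [Nat.add_sub_cancel]
    rfl

theorem gO2_rd {n : ℕ} (hn : 1 ≤ n) {w : OddHC.X k} (hw : w.1 = H1.ch 2 △ gO2 n) :
    Rd (cyc w) = ⟨n + 3 + 2, cyc (yX n 2 (by norm_num))⟩ := by
  refine Rd_ins (e := List.replicate (2 * 2 + 1) 0 ++ ((List.replicate (2 * n) 0 ++ [0, 1, 0]) ++ [0, 0, 0])) ?_ ?_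
  · simp
    omega
  · obtain ⟨n, rfl⟩ : ∃ n', n = n' + 1 := ⟨n - 1, by omega⟩
    change _ = ins (app (pw 2) (app (pw (n + 1)) (lp 1) △ lp 1)) _
    rw [ins_app _ _ _ _ (by rw [pw_num]; rfl)]
    have e1 : ins (pw 2) (List.replicate (2 * 2 + 1) 0) = H1.ch 3 := rfl
    have hnum : (app (pw (n + 1)) (lp 1)).numNodes = n + 2 := by
      rw [num_app, pw_num, lp_num]
    have l1 : (List.replicate (2 * (n + 1)) 0 ++ [0, 1, 0]).length = 2 * (app (pw (n + 1)) (lp 1)).numNodes + 1 := by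
      rw [hnum]
      simp
      omega
    rw [ins, List.headD_cons, List.tail_cons, List.take_left' l1, List.drop_succ_cons, List.drop_left' l1, e1]
    have e2 : ins (app (pw (n + 1)) (lp 1)) (bump (app (pw (n + 1)) (lp 1)) (List.replicate (2 * (n + 1)) 0 ++ [0, 1, 0])) =
        app (H1.ch (n + 2)) (lp 2 △ .nil) := by
      change ins (app (pw (n + 1)) (lp 1)) (List.replicate (2 * (n + 1)) 0 ++ [0, 1, 0]) = _
      have e3 : List.replicate (2 * (n + 1)) 0 ++ [0, 1, 0] = (List.replicate (2 * (n + 1)) 0 ++ [0]) ++ [1, 0] := by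
        simp
      rw [e3, ins_app _ _ _ _ (by rw [pw_num]; simp)]
      have h1 := ins_end (pw (n + 1)) 0
      rw [pw_num] at h1
      rw [h1, inf_pw]
      change app (app (H1.ch (n + 2)) .nil) _ = _
      rw [app_nil']
      rfl
    rw [e2, hw]
    rfl

end S5

end Pool.OddHC
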