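import Pool.Agent.Work.MP_8f87b2_h20.S5H

/-!
# Section 5: the classes `X_a`, every `m ≥ 0`, and `B`, from `VEnv`
-/

set_option autoImplicit false

namespace Pool.OddHC

open Finset Equiv BinaryTree Multiset Ring1 Pool.Agent.Work.MP_8f87b2_co Pool.OddHop

variable {i j j2 k : ℕ} {τ : Type} {P : τ → Set (Cyc k) → DG k → Prop}

/-- **the class `(V; a, 0)`**: windows over `A`, guests over `B` -/
theorem jv_gen {V : Cyc j2} {a : ℕ} (hk : j2 + 2 * pkc V + 2 * a = k) {A B : Set (Cyc j)} (hj : j = j2 + pkc V + a)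
    (hrem : RemOK ⟨j2, V⟩ (A ∪ B)) (hAB : ∀ U ∈ A, U ∉ B)
    (jv : ∀ (j : ℕ) (U U' : Cyc j), Rd U = ⟨j2, V⟩ → Rd U' = ⟨j2, V⟩ → j = j2 + pkc V + a → U ≠ U' →
      HopC U U' → ∃ p q : Cyc k, Rd p = ⟨j, U⟩ ∧ Rd q = ⟨j, U'⟩ ∧ Typd P P {p, q})
    (hA : ∀ U ∈ A, ∃ z : Cyc k, Rd z = ⟨j, U⟩ ∧ Typd P P {z}) {Y : Set (Cyc k)}
    (hY : ∀ c, cl c ∈ vcl k V a → (c ∈ Y ↔ ∃ U ∈ B, Rd c = ⟨j, U⟩)) : JVC P V a Y := by
  intro p0 Xs hp0 hX
  obtain ⟨U1, a1, a2, a3, a4, a5⟩ := vcl_data (j := j) (m := 0) (by omega) hp0 hj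
  obtain ⟨I, hI⟩ := hrem
  rw [← a2] at hI
  have hc0 : ∀ (p : Cyc k) (U : Cyc j), Rd p = ⟨j, U⟩ → Rd U = Rd U1 → (contc p).count 1 = 0 := by
    intro p U hp hU
    exact count_class (m := 0) a1 (by omega) hp hU
  have hXs : ∀ c (U : Cyc j), Rd c = ⟨j, U⟩ → Rd U = Rd U1 → (c ∈ Xs ↔ U ∈ B) := by
    intro c U hc hU
    have h1 : cl c = cl p0 := cl_same a1 hc hU
    rw [hX c h1, hY c (by rw [h1]; exact hp0), hc]
    constructor
    · rintro ⟨U', hU', h⟩
      have : U = U' := eq_of_heq (Sigma.mk.inj_iff.1 h).2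
      rwa [this]
    · intro h
      exact ⟨U, h, rfl⟩
  have hmv : ∀ U, Rd U = Rd U1 → I U ≠ U → U ∉ A ∪ B := fun U hU hne h => hne ((hI U hU).2.2.2.2 h)
  refine cls_of_inv' a1 Xs I (fun U hU => ⟨(hI U hU).1, (hI U hU).2.1⟩) ?_ ?_
  · intro U hU hne
    obtain ⟨e1, e2, e3, e4⟩ := hI U hU
    have hne' : I (I U) ≠ I U := by
      rw [e2]
      exact fun h => hne h.symm
    have hhop : HopC U (I U) := by
      rcases e3 with e3 | e3
      · exact absurd e3 hne
      · exact e3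
    obtain ⟨p, q, hp, hq, hty⟩ := jv j U (I U) (hU.trans a2) (e1.trans a2) hj (fun h => hne h.symm) hhop
    refine Or.inr ⟨p, q, hp, hq, fun h => hmv U hU hne (Or.inr ((hXs p U hp hU).1 h)),
      fun h => hmv (I U) e1 hne' (Or.inr ((hXs q _ hq e1).1 h)), hty, ?_, ?_⟩
    · apply remA_all
      intro c hc
      exact Or.inl (fam_zero (hc.trans hp.symm) (hc0 c U hc hU))
    · apply remA_all
      intro c hc
      exact Or.inl (fam_zero (hc.trans hq.symm) (hc0 c _ hc e1))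
  · intro U hU hf
    rcases (hI U hU).2.2.2.1 hf with h3 | h3
    · obtain ⟨z, hz, hty⟩ := hA U h3
      refine ⟨{{z}}, ?_, ?_, ?_⟩
      · rintro F hF
        rw [Set.mem_singleton_iff] at hF
        subst hF
        refine ⟨⟨z, rfl⟩, hty, ?_⟩
        rintro c hc
        rw [Set.mem_singleton_iff] at hc
        subst hc
        exact ⟨hz, fun h => hAB U h3 ((hXs c U hz hU).1 h)⟩
      · rintro F hF F' hF' c _ _
        rw [Set.mem_singleton_iff] at hF hF'
        rw [hF, hF']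
      · rw [inG_single]
        apply remA_all
        intro c hc
        exact Or.inl (fam_zero (hc.trans hz.symm) (hc0 c U hc hU))
    · refine ⟨∅, fun F h => absurd h (Set.notMem_empty _), fun F h => absurd h (Set.notMem_empty _), ?_⟩
      rw [inG_empty', Set.empty_union]
      apply remA_all
      intro c hc
      exact (hXs c U hc hU).2 h3

namespace S5

variable {n a m : ℕ} {p : Cyc k} {KS : BinaryTree Unit → Prop}

theorem X_env (hn : 1 ≤ n) (E : VEnv P (cyc (vX n)) KS) {p0 : Cyc k} (h0 : contc p0 = cX n a m) :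
    ClsEnv (AEP P) P P (cl p0) := by
  obtain ⟨U, g1, g2, -⟩ := Rd_X hn h0
  refine E.env p0 ?_
  rw [g1]
  exact g2

theorem X_win' (hn : 1 ≤ n) (E : VEnv P (cyc (vX n)) KS) (ha : 1 ≤ a) (hk : n + 5 + 2 * a + m = k) :
    ∃ z, Win P P n a m z := by
  have h2 := pkc_V hn
  obtain ⟨v, x2, u, x, w, b1, b2, b3, b4, b5, b6, b7, b8⟩ :=
    (E.win a m ha (by omega)).data (j := n + 3 + a) (by omega)
  exact ⟨cyc w, ⟨v, u, w, b1, ⟨x2, b2⟩, ⟨x, b3⟩, rfl⟩, b4⟩

theorem X_jv (hn : 1 ≤ n) (E : VEnv P (cyc (vX n)) KS) (ha : 1 ≤ a) (hk : n + 5 + 2 * a = k) : JVH P n a := by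
  have h2 := pkc_V hn
  intro j U U' h1 h2' h3 h4 h5
  exact E.jv a j U U' ha (by omega) h1 h2' h3 h4 h5

/-- the size of the class -/
theorem cX_size (hn : 1 ≤ n) (h0 : contc p = cX n a m) : n + 5 + 2 * a + m = k := X_size hn h0

theorem cnt_X (hn : 1 ≤ n) : (contc (cyc (uX n a))).count 1 = a := by
  rw [contc_cyc, c_uX, Multiset.count_add, Multiset.count_add, Multiset.count_singleton, Multiset.count_singleton,
    Multiset.count_replicate_self]
  simp
  omega

/-- **`X_a` without guest** -/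
theorem XC0 (hn : 1 ≤ n) (E : VEnv P (cyc (vX n)) KS) (ha : 1 ≤ a) (hk : n + 5 + 2 * a + m = k) :
    CH P (cX n a m) ∅ := by
  refine CD.toCH ?_ fun c hc => TYH_X hn hc
  obtain ⟨z, hz⟩ := X_win' hn E ha hk
  rcases Nat.eq_zero_or_pos m with rfl | hm
  · have jv := X_jv hn E ha (by omega)
    by_cases ho : oddF (n + 1) a
    · refine CD_of_JVC hn (by omega) (jv_gen (j := n + 3 + a) (A := {cyc (uX n a)}) (B := ∅)
        (by have h2 := pkc_V hn; omega) (by have h2 := pkc_V hn; omega) ?_ (fun U _ h => h.elim) jv ?_ ?_)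
      · rw [Set.union_empty]
        refine (remOK_lo ⟨n + 1, cyc (vX n)⟩ (cyc (uX n a)) (Rd_uX hn) fun h _ => (uX_pile hn).two h).congr ?_
        intro U _
        rw [cnt_X hn]
        exact ⟨fun h => h.1, fun h => ⟨h, ho⟩⟩
      · intro U hU
        rw [Set.mem_singleton_iff.1 hU]
        exact ⟨z, hz.rd hn, hz.2⟩
      · intro c _
        constructor
        · intro h
          exact absurd h (Set.notMem_empty c)
        · rintro ⟨U, hU, _⟩
          exact absurd hU (Set.notMem_empty U)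
    · exact X0_plain hn ha (by omega) jv ho
  · intro p0 X h0 hX
    exact X_win hn hm h0 (X_env hn E h0) (fun c hc hc2 => absurd ((hX c hc2).1 hc) (Set.notMem_empty c)) hz

/-- first component without its brackets -/
def fstC : BinaryTree Unit → BinaryTree Unit
  | .nil => .nil
  | .node _ A _ => A

theorem gO_fst (n m : ℕ) : (fstC (gO n 1 m)).numNodes = n + 3 := by
  change (app (H1.ch (n + 1)) (H1.ch 2)).numNodes = _
  rw [num_app, ch_num, ch_num]

theorem gE_fst (n a m : ℕ) : (fstC (gE n a m)).numNodes = n + 1 := by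
  change (H1.ch (n + 1)).numNodes = _
  rw [ch_num]

theorem gP_fst (n a m : ℕ) : (fstC (gP n a m)).numNodes = n + 1 := by
  change (H1.ch (n + 1)).numNodes = _
  rw [ch_num]

theorem gY_fst (n a m : ℕ) : (fstC (gY n a m)).numNodes = n + 1 := by
  change (H1.ch (n + 1)).numNodes = _
  rw [ch_num]

theorem gM_fst (n a m : ℕ) : (fstC (gM n a m)).numNodes = n + 2 := by
  change (app (H1.ch (n + 1)) (lp 1)).numNodes = _
  rw [num_app, ch_num, lp_num]

theorem ne_gO {S : BinaryTree Unit} {m : ℕ} (h : (fstC S).numNodes ≤ n + 2) : S ≠ gO n 1 m := by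
  rintro rfl
  rw [gO_fst] at h
  omega

theorem two_pile {j : ℕ} {w : OddHC.X k} {u : OddHC.X j} (h : Pile w u m) (hm : m = 2) : IsTwo (cyc w) := by
  obtain ⟨x, hx⟩ := h
  subst hm
  refine ⟨_, u, x, 0, w, Nat.zero_le _, rfl, rfl, ?_⟩
  rw [hx]
  congr 2
  funext y
  rw [Nat.cast_zero, add_zero]
  split_ifs <;> rfl

/-- both levels odd, any guest over the pile -/
theorem X_oddg (hn : 1 ≤ n) (E : VEnv P (cyc (vX n)) KS) (hm : 1 ≤ m) (ho : oddF (n + 3 + a) m)
    (ho2 : oddF (n + 1) a) {z : Cyc k} (hz : Rd z = ⟨n + 3 + a, cyc (uX n a)⟩) (hz2 : m = 2 → IsTwo z) :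
    CH P (cX n a m) {z} := by
  refine CD.toCH ?_ fun c hc => TYH_X hn hc
  intro p0 X h0 hX
  obtain ⟨U1, g1, g2, g3, g4, g5⟩ := Rd_X hn h0
  have hs := X_size hn h0
  refine r1_guest (X_env hn E h0) g1 hm (by rw [pkc_u g5]; omega) ho z (cyc (uX n a)) (by rw [Rd_uX hn, g2]) hz ?_
    (fun c' hc' => hX c' ((cl_X hn h0).1 hc')) (uX_pile hn).two hz2
  rw [Rd_uX hn, cnt_X hn]
  exact ho2

/-- even families, `m ≥ 3` -/
theorem X_eveng (hn : 1 ≤ n) (E : VEnv P (cyc (vX n)) KS) (ha : 1 ≤ a) (hm : 1 ≤ m) (ho : ¬ oddF (n + 3 + a) m)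
    {z : Cyc k} (hz : Win P P n a m z) {g : Cyc k} (h1 : z ≠ g) (hg : Rd g = ⟨n + 3 + a, cyc (uX n a)⟩)
    (hrem : RemOK ⟨n + 3 + a, cyc (uX n a)⟩ ({z} ∪ {g})) : CH P (cX n a m) {g} := by
  refine CD.toCH ?_ fun c hc => TYH_X hn hc
  intro p0 X h0 hX
  obtain ⟨U1, g1, g2, g3, g4, g5⟩ := Rd_X hn h0
  have hs := X_size hn h0
  refine r1_set_even (X_env hn E h0) g1 hm (by rw [pkc_u g5]; omega) ho {g} (cyc (uX n a)) (by rw [Rd_uX hn, g2])
    ?_ ?_ (uX_pile hn).two {z} ?_ (Or.inr ⟨z, rfl, hz.rd hn, hz.2⟩) hrem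
  · intro c' hc'
    rw [Set.mem_singleton_iff.1 hc']
    exact hg
  · exact fun c' hc' => hX c' ((cl_X hn h0).1 hc')
  · intro c' hc' h
    rw [Set.mem_singleton_iff] at hc' h
    exact h1 (hc'.symm.trans h)

/-- **`X_a` WITH ONE GUEST** -/
theorem XC1 (hn : 1 ≤ n) (E : VEnv P (cyc (vX n)) KS) (ha : 1 ≤ a) (hk : n + 5 + 2 * a + m = k)
    (hod : oddF n (a + 1) ∧ oddF (n + 1 + (a + 1)) (m + 1)) :
    ∃ S, Hole2.ShC n a m S ∧ ∀ c : OddHC.X k, c.1 = H1.ch 2 △ S → CH P (cX n a m) {cyc c} := by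
  obtain ⟨z, hz⟩ := X_win' hn E ha hk
  rcases Nat.eq_zero_or_pos m with rfl | hm
  · have jv := X_jv hn E ha (by omega)
    by_cases ho : oddF (n + 1) a
    · refine ⟨gE n a 0, ⟨Or.inr ⟨rfl, Or.inl rfl⟩, fun _ => ne_gO (by rw [gE_fst]; omega), fun _ h => by omega⟩,
        fun c hc => CD.toCH (X0_one hn ha (by omega) jv ho (Rd_pile (gE_pile hc))) fun c hc => TYH_X hn hc⟩
    · have ha2 : 2 ≤ a := by
        by_contra h
        obtain rfl : a = 1 := by omega
        exact ho (oddF_one' _)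
      obtain ⟨hne, hrem⟩ := rem_uy hn ha2 ho
      refine ⟨gO n a 0, ⟨Or.inr ⟨rfl, Or.inr rfl⟩, fun h => by omega, fun h => by omega⟩, fun c hc =>
        CD.toCH (CD_of_JVC hn (by omega) (jv_gen (j := n + 3 + a) (A := {cyc (uX n a)}) (B := {cyc (yX n a ha)})
          (by have h2 := pkc_V hn; omega) (by have h2 := pkc_V hn; omega) hrem ?_ jv ?_ ?_)) fun c hc => TYH_X hn hc⟩
      · intro U hU hU'
        rw [Set.mem_singleton_iff] at hU hU'
        exact hne (hU.symm.trans hU')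
      · intro U hU
        rw [Set.mem_singleton_iff.1 hU]
        exact ⟨z, hz.rd hn, hz.2⟩
      · intro c' hc'
        have hR : Rd (cyc c) = ⟨n + 3 + a, cyc (yX n a ha)⟩ := Rd_pile (gO_pile hn ha hc)
        constructor
        · intro h
          rw [Set.mem_singleton_iff.1 h]
          exact ⟨_, rfl, hR⟩
        · rintro ⟨U, hU, h⟩
          rw [Set.mem_singleton_iff.1 hU] at h
          refine fam_zero (h.trans hR.symm) ?_
          rw [(vclX hn (m := 0) (by omega)).1 hc']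
          unfold cX
          rw [Multiset.count_add, Multiset.count_add, Multiset.count_add, Multiset.count_singleton,
            Multiset.count_singleton, Multiset.count_replicate, Multiset.count_replicate]
          simp
  · rcases Nat.lt_or_ge 1 a with ha2 | ha1
    · obtain ⟨S, hS, h⟩ := X_guest hn ha hm (Or.inr ha2) hk hz
      refine ⟨S, ⟨Or.inl hS, fun h => by omega, fun h => by omega⟩, fun c hc => ?_⟩
      exact CD.toCH (fun p0 X h0 hX => h c hc p0 X h0 (X_env hn E h0) hX) fun c hc => TYH_X hn hc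
    · obtain rfl : a = 1 := by omega
      have hn2 : n % 2 = 0 := oddF_two_iff.1 hod.1
      have ho2 : oddF (n + 1) 1 := oddF_one' _
      have hm1 : m ≠ 1 := by
        rintro rfl
        have := oddF_two_iff.1 hod.2
        omega
      by_cases ho : oddF (n + 3 + 1) m
      · refine ⟨gE n 1 m, ⟨Or.inl (Or.inl ⟨by omega, Or.inl rfl⟩), fun _ => ne_gO (by rw [gE_fst]; omega),
          fun _ h => Or.inl (by rw [h])⟩, fun c hc => ?_⟩
        exact X_oddg hn E hm ho ho2 (Rd_pile (gE_pile hc)) (two_pile (gE_pile hc))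
      · have hm3 : 3 ≤ m := by
          by_contra h
          obtain rfl : m = 2 := by omega
          exact ho (oddF_two_iff.2 (by omega))
        obtain ⟨S, hS, h2⟩ := guest_even hn ha hm3 hk ho (hz.rd hn)
        refine ⟨S, ⟨Or.inl (Or.inl ⟨by omega, Or.inr (Or.inr hS)⟩), fun _ => ?_, fun _ h => by omega⟩, fun c hc => ?_⟩
        · rcases hS with rfl | rfl | rfl
          · exact ne_gO (by rw [gP_fst]; omega)
          · exact ne_gO (by rw [gM_fst])
          · exact ne_gO (by rw [gY_fst]; omega)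
        · obtain ⟨e1, e2⟩ := h2 c hc
          refine X_eveng hn E ha hm ho hz e1 ?_ e2
          rcases hS with rfl | rfl | rfl
          · exact Rd_ins (lf_length _) (gP_pile hc)
          · exact Rd_ins (lf_length _) (gM_near hn hc)
          · exact Rd_ins (lf_length _) (gY_near ha hc)

/-! ### the class `B = X_0` -/

theorem cX0 (n m : ℕ) : cX n 0 m = {n + 2} + {3} + replicate m 1 := by
  unfold cX
  rw [Multiset.replicate_zero, add_zero]

theorem B0 (hn : 1 ≤ n) (E : VEnv P (cyc (vX n)) KS) (hev : ¬ oddF (n + 3) m) : CH P (cX n 0 m) ∅ := by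
  refine CD.toCH ?_ fun c hc => TYH_X hn hc
  intro p0 X h0 hX
  exact B_even hn (by rw [h0, cX0]) (X_env hn E h0) X hev fun p hp h =>
    absurd ((hX p (by rw [hp, cX0])).1 h) (Set.notMem_empty p)

theorem B1 (hn : 1 ≤ n) (E : VEnv P (cyc (vX n)) KS) (hod : oddF (n + 3) m) {q : Cyc k} (hq : contc q = cX n 0 m)
    (h2 : m = 2 → IsTwo q) : CH P (cX n 0 m) {q} := by
  refine CD.toCH ?_ fun c hc => TYH_X hn hc
  intro p0 X h0 hX
  exact B_one hn (by rw [h0, cX0]) (X_env hn E h0) X hod (by rw [hq, cX0]) h2 fun p hp =>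
    hX p (by rw [hp, cX0])

theorem B2 (hn : 1 ≤ n) (E : VEnv P (cyc (vX n)) KS) (hm : 3 ≤ m) (hev : ¬ oddF (n + 3) m)
    {u u' : OddHC.X (n + 3)} {p y : OddHC.X k} (hu : cont u.1 = {n + 1} + {2}) (hu' : cont u'.1 = {n + 1} + {2})
    (hp : Pile p u' m) (hy : Near y u m) : CH P (cX n 0 m) {cyc p, cyc y} := by
  refine CD.toCH ?_ fun c hc => TYH_X hn hc
  intro p0 X h0 hX
  exact (B_two hn (by rw [h0, cX0]) (X_env hn E h0) X hm hev hu hu' hp hy fun c hc =>
    hX c (by rw [hc, cX0])).1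

end S5

end Pool.OddHC
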